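import Pool.Agent.Y264.QR.Stm
import Pool.Agent.Y592.QE.Spec
import Pool.Agent.Y390.QR.LIP
import Pool.Agent.Y147.QR.AE
import Pool.Agent.Y401.QR.Dens

/-!
# Stress and energy in the mean: the abstract part

Eigenvalues of a family of pairs of forms `(a t, b t)`: comparison, the one sided derivative at the
bottom of a cluster.

(The lemma `der2` is adapted from `Pool.Agent.Y390.QR.LIP.der0`, where only the form `b` varies.)
-/

set_option autoImplicit false

open Set Filter Topology MeasureTheory
open scoped Real ContDiff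

noncomputable section

namespace Pool.Agent.Helper34.QJ

open Pool.Agent.Y262.QE Pool.Agent.Y264.QR Pool.Agent.Y592.QE

section forms

variable {H : Type} [NormedAddCommGroup H] [InnerProductSpace ℝ H]

/-- comparison of the eigenvalues of two pairs of forms -/
theorem evAB {a a' b b' : H →L[ℝ] H →L[ℝ] ℝ} (hF : Fm a b) {c : ℝ} (hc : 0 < c)
    {c' : ℝ} (hc' : 0 < c') (h : ∀ v, a' v v ≤ c * a v v) (h' : ∀ v, b v v ≤ c' * b' v v) (j : ℕ) :
    Ev a' b' j ≤ c * c' * Ev a b j := by
  have h1 : Ev a' b' j / (c * c') ≤ Ev a b j := by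
    apply le_csInf (nonempty_set hF j)
    rintro lam ⟨h0, V, hV, hVa⟩
    rw [div_le_iff₀ (by positivity)]
    apply csInf_le (bdd_set a' b' j)
    refine ⟨by positivity, V, hV, fun v hv => ?_⟩
    calc a' v v ≤ c * a v v := h v
      _ ≤ c * (lam * b v v) := mul_le_mul_of_nonneg_left (hVa v hv) hc.le
      _ ≤ c * (lam * (c' * b' v v)) :=
          mul_le_mul_of_nonneg_left (mul_le_mul_of_nonneg_left (h' v) h0) hc.le
      _ = lam * (c * c') * b' v v := by ring
  rw [div_le_iff₀ (by positivity)] at h1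
  linarith

/-- the cross term of a symmetric form which is bounded by `K c`, at `y + x e` with `c y e = 0` -/
theorem cross {c k : H →L[ℝ] H →L[ℝ] ℝ} {K : ℝ} (ksym : ∀ u v, k u v = k v u)
    (hk : ∀ v, |k v v| ≤ K * c v v) {y e : H} (h1 : c y e = 0) (h2 : c e y = 0) (x : ℝ) {s : ℝ}
    (hs : 0 < s) : |2 * x * k y e| ≤ K * (c y y / s + s * (c e e * x ^ 2)) := by
  have p1 := hk (y + (s * x) • e)
  have p2 := hk (y - (s * x) • e)
  have q1 : k (y + (s * x) • e) (y + (s * x) • e) =
      k y y + 2 * (s * x) * k y e + k e e * (s * x) ^ 2 := by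
    simp only [map_add, map_smul, add_apply,
      smul_apply, smul_eq_mul]
    rw [ksym e y]
    ring
  have q2 : k (y - (s * x) • e) (y - (s * x) • e) =
      k y y - 2 * (s * x) * k y e + k e e * (s * x) ^ 2 := by
    simp only [map_sub, map_smul, sub_apply,
      smul_apply, smul_eq_mul]
    rw [ksym e y]
    ring
  have r1 : c (y + (s * x) • e) (y + (s * x) • e) = c y y + c e e * (s * x) ^ 2 := by
    simp only [map_add, map_smul, add_apply,
      smul_apply, smul_eq_mul, h1, h2]
    ring
  have r2 : c (y - (s * x) • e) (y - (s * x) • e) = c y y + c e e * (s * x) ^ 2 := by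
    simp only [map_sub, map_smul, sub_apply,
      smul_apply, smul_eq_mul, h1, h2]
    ring
  rw [q1, r1] at p1
  rw [q2, r2] at p2
  have h5 : |s * (2 * x * k y e)| ≤ s * (K * (c y y / s + s * (c e e * x ^ 2))) := by
    have h6 : s * (K * (c y y / s + s * (c e e * x ^ 2))) =
        K * (c y y + c e e * (s * x) ^ 2) := by
      field_simp
    rw [h6]
    obtain ⟨u1, u2⟩ := abs_le.1 p1
    obtain ⟨w1, w2⟩ := abs_le.1 p2
    rw [abs_le]
    constructor <;> linarith
  rw [abs_mul, abs_of_pos hs] at h5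
  exact le_of_mul_le_mul_left h5 hs

/-- the inequality for the coefficients of `x ^ 2` -/
theorem ineqX {lam ka kb K s η ε T : ℝ} {τ : ℝ} (hT : |τ| = T) (hlam : 0 ≤ lam) (hK : 0 ≤ K)
    (hs : 0 < s) (hη : 0 < η) (hε : 0 < ε) (hka : |ka| ≤ K * lam) (hkb : |kb| ≤ K)
    (t1 : (K + η + K * s) * T ≤ 1 / 4) (t2 : 2 * K ^ 2 * lam * T ≤ ε / 8)
    (t3 : 3 * lam * (K * s) ≤ ε / 8) (t4 : 3 * lam * η ≤ ε / 8) :
    lam + η * T * lam + τ * ka + T * (K * s * lam) ≤
      (lam + τ * (ka - lam * kb) + ε * T) * (1 - η * T + τ * kb - T * (K * s)) := by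
  have hT0 : 0 ≤ T := by rw [← hT]; exact abs_nonneg _
  have hτkb : |τ * kb| ≤ K * T := by
    rw [abs_mul, hT]
    nlinarith
  have hτka : |τ * ka| ≤ K * lam * T := by
    rw [abs_mul, hT, mul_comm]
    exact mul_le_mul_of_nonneg_right hka hT0
  have hq : T * (η + K * s) ≤ 1 / 4 := by nlinarith
  have hKT : K * T ≤ 1 / 4 := by nlinarith [mul_nonneg hη.le hT0, mul_nonneg (mul_nonneg hK hs.le) hT0]
  obtain ⟨a1, a2⟩ := abs_le.1 hτkb
  -- expand
  have e1 : (lam + τ * (ka - lam * kb) + ε * T) * (1 - η * T + τ * kb - T * (K * s)) -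
      (lam + η * T * lam + τ * ka + T * (K * s * lam)) =
      ε * T * (1 + τ * kb - T * (η + K * s)) + (τ * ka - lam * (τ * kb)) * (τ * kb) -
        (lam + (τ * ka - lam * (τ * kb))) * (T * (η + K * s)) - lam * (T * (η + K * s)) := by
    ring
  have hc : |τ * ka - lam * (τ * kb)| ≤ 2 * K * lam * T := by
    refine (abs_sub _ _).trans ?_
    rw [abs_mul lam, abs_of_nonneg hlam]
    have := mul_le_mul_of_nonneg_left hτkb hlam
    linarith
  have b1 : -(2 * K * lam * T * (K * T)) ≤ (τ * ka - lam * (τ * kb)) * (τ * kb) := by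
    have h1 : |(τ * ka - lam * (τ * kb)) * (τ * kb)| ≤ 2 * K * lam * T * (K * T) := by
      rw [abs_mul]
      exact mul_le_mul hc hτkb (abs_nonneg _) (by positivity)
    exact (abs_le.1 h1).1
  have b2 : lam + (τ * ka - lam * (τ * kb)) ≤ 2 * lam := by
    have h1 := (abs_le.1 hc).2
    have h2 : 2 * K * lam * T ≤ lam := by nlinarith
    linarith
  have hq0 : 0 ≤ T * (η + K * s) := by positivity
  have b3 : (lam + (τ * ka - lam * (τ * kb))) * (T * (η + K * s)) ≤
      2 * lam * (T * (η + K * s)) := mul_le_mul_of_nonneg_right b2 hq0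
  have b4 : ε * T * (1 / 2) ≤ ε * T * (1 + τ * kb - T * (η + K * s)) :=
    mul_le_mul_of_nonneg_left (by linarith) (by positivity)
  have b5 : 2 * K * lam * T * (K * T) ≤ ε / 8 * T := by
    have h1 := mul_le_mul_of_nonneg_right t2 hT0
    linarith
  have b6 : 3 * lam * (T * (η + K * s)) ≤ ε / 4 * T := by
    have h1 : 3 * lam * (K * s) + 3 * lam * η ≤ ε / 4 := by linarith
    have h2 := mul_le_mul_of_nonneg_right h1 hT0
    linarith
  have b7 : 0 ≤ ε * T := by positivity
  linarith

/-- the inequality for the other coefficients -/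
theorem ineqY {lam ka kb K s η ε T g : ℝ} {τ : ℝ} (hT : |τ| = T) (hlam : 0 ≤ lam) (hK : 0 ≤ K)
    (hs : 0 < s) (hη : 0 < η) (hε : 0 < ε) (hg : 0 < g) (hka : |ka| ≤ K * lam) (hkb : |kb| ≤ K)
    (t1 : (η + K + K / s) * T ≤ 1)
    (t2 : (2 * K * lam + 2 * lam * (η + K + K / s)) * T ≤ g) :
    (lam - g) * (1 + (η + K + K / s) * T) ≤
      (lam + τ * (ka - lam * kb) + ε * T) * (1 - (η + K + K / s) * T) := by
  have hT0 : 0 ≤ T := by rw [← hT]; exact abs_nonneg _
  have hτkb : |τ * kb| ≤ K * T := by
    rw [abs_mul, hT]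
    nlinarith
  have hτka : |τ * ka| ≤ K * lam * T := by
    rw [abs_mul, hT, mul_comm]
    exact mul_le_mul_of_nonneg_right hka hT0
  have hc : |τ * (ka - lam * kb)| ≤ 2 * K * lam * T := by
    have e : τ * (ka - lam * kb) = τ * ka - lam * (τ * kb) := by ring
    rw [e]
    refine (abs_sub _ _).trans ?_
    rw [abs_mul lam, abs_of_nonneg hlam]
    have := mul_le_mul_of_nonneg_left hτkb hlam
    linarith
  set q := (η + K + K / s) * T with hq
  have hq0 : 0 ≤ q := by positivity
  have h1 : lam - 2 * K * lam * T ≤ lam + τ * (ka - lam * kb) + ε * T := by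
    have := (abs_le.1 hc).1
    have : 0 ≤ ε * T := by positivity
    linarith
  refine le_trans ?_ (mul_le_mul_of_nonneg_right h1 (by linarith))
  have h2 : (2 * K * lam + 2 * lam * (η + K + K / s)) * T = 2 * K * lam * T + 2 * lam * q := by
    rw [hq]; ring
  rw [h2] at t2
  have h3 : (lam - 2 * K * lam * T) * (1 - q) - (lam - g) * (1 + q) =
      g - 2 * K * lam * T - 2 * lam * q + 2 * K * lam * T * q + g * q := by ring
  have h4 : 0 ≤ 2 * K * lam * T * q + g * q := by positivity
  linarith

/-- the one-sided derivatives of an eigenvalue at the bottom of its cluster -/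
theorem der2 {a b : H →L[ℝ] H →L[ℝ] ℝ} (hF : Fm a b) {e : ℕ → H} {E : ℕ → ℝ}
    (hE : Eg a b e E) {ka kb : H →L[ℝ] H →L[ℝ] ℝ} {K : ℝ} (kasym : ∀ u v, ka u v = ka v u)
    (kbsym : ∀ u v, kb u v = kb v u) (hK : 0 ≤ K) (hka : ∀ v, |ka v v| ≤ K * a v v)
    (hkb : ∀ v, |kb v v| ≤ K * b v v) {i j : ℕ} (hij : E i = E j)
    (hlt : ∀ l, l < i → E l < E i) {ε : ℝ} (hε : 0 < ε) :
    ∃ η δ : ℝ, 0 < η ∧ 0 < δ ∧ ∀ τ : ℝ, |τ| < δ → ∀ a' b' : H →L[ℝ] H →L[ℝ] ℝ,
      (∀ v, a' v v ≤ a v v + τ * ka v v + η * |τ| * a v v) →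
      (∀ v, b v v + τ * kb v v - η * |τ| * b v v ≤ b' v v) →
      Ev a' b' i ≤ E i + τ * (ka (e j) (e j) - E i * kb (e j) (e j)) + ε * |τ| := by
  have hE0 : ∀ l, 0 ≤ E l := by
    intro l
    have h1 := hF.na (e l)
    rw [hE.eig, hE.orth, if_pos rfl, mul_one] at h1
    exact h1
  set lam := E i with hlam
  have hlam0 : 0 ≤ lam := hE0 i
  set κa := ka (e j) (e j) with hκadef
  set κb := kb (e j) (e j) with hκbdef
  have hajj : a (e j) (e j) = lam := by
    rw [hE.eig, hE.orth, if_pos rfl, mul_one]; exact hij.symm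
  have hjj : b (e j) (e j) = 1 := by rw [hE.orth, if_pos rfl]
  have hκa : |κa| ≤ K * lam := by
    have h1 := hka (e j)
    rwa [hajj] at h1
  have hκb : |κb| ≤ K := by
    have h1 := hkb (e j)
    rwa [hjj, mul_one] at h1
  obtain ⟨g, hg, hgap⟩ := Pool.Agent.Y726.QE.exists_gap (Finset.range i) (fun l => lam - E l)
    (fun l hl => by
      have := hlt l (Finset.mem_range.1 hl)
      linarith)
  -- the parameters
  set s : ℝ := ε / (24 * (lam * K + 1)) with hs
  have hs0 : 0 < s := by positivity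
  have hsε : 3 * lam * (K * s) ≤ ε / 8 := by
    have h0 : 0 ≤ lam * K := by positivity
    rw [hs]
    have e1 : 3 * lam * (K * (ε / (24 * (lam * K + 1)))) = (lam * K / (lam * K + 1)) * (ε / 8) := by
      field_simp
      ring
    rw [e1]
    have : lam * K / (lam * K + 1) ≤ 1 := by
      rw [div_le_one (by positivity)]
      linarith
    nlinarith
  set η : ℝ := ε / (24 * (lam + 1)) with hη
  have hη0 : 0 < η := by positivity
  have hηε : 3 * lam * η ≤ ε / 8 := by
    rw [hη]
    have e1 : 3 * lam * (ε / (24 * (lam + 1))) = (lam / (lam + 1)) * (ε / 8) := by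
      field_simp
      ring
    rw [e1]
    have : lam / (lam + 1) ≤ 1 := by
      rw [div_le_one (by positivity)]
      linarith
    nlinarith
  set C1 : ℝ := K + η + K * s with hC1
  set C2 : ℝ := 2 * K ^ 2 * lam with hC2
  set C3 : ℝ := η + K + K / s with hC3
  set C4 : ℝ := 2 * K * lam + 2 * lam * (η + K + K / s) with hC4
  refine ⟨η, min (min ((1 / 4) / (C1 + 1)) ((ε / 8) / (C2 + 1)))
    (min (1 / (C3 + 1)) (g / (C4 + 1))), hη0, by positivity, ?_⟩
  intro τ hτ a' b' ha' hb'
  have ht := abs_nonneg τ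
  have t1 : C1 * |τ| ≤ 1 / 4 := Pool.Agent.Y390.QR.LIP.small (by positivity)
    (lt_of_lt_of_le hτ ((min_le_left _ _).trans (min_le_left _ _)))
  have t2 : C2 * |τ| ≤ ε / 8 := Pool.Agent.Y390.QR.LIP.small (by positivity)
    (lt_of_lt_of_le hτ ((min_le_left _ _).trans (min_le_right _ _)))
  have t3 : C3 * |τ| ≤ 1 := Pool.Agent.Y390.QR.LIP.small (by positivity)
    (lt_of_lt_of_le hτ ((min_le_right _ _).trans (min_le_left _ _)))
  have t4 : C4 * |τ| ≤ g := Pool.Agent.Y390.QR.LIP.small (by positivity)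
    (lt_of_lt_of_le hτ ((min_le_right _ _).trans (min_le_right _ _)))
  have iX := ineqX (τ := τ) rfl hlam0 hK hs0 hη0 hε hκa hκb t1 t2 hsε hηε
  have iY := ineqY (τ := τ) rfl hlam0 hK hs0 hη0 hε hg hκa hκb t3 t4
  set ν := lam + τ * (κa - lam * κb) + ε * |τ| with hν
  have hν0 : 0 ≤ ν := by
    have hKT : K * |τ| ≤ 1 / 4 := by
      have h1 : K ≤ C1 := by
        have : 0 ≤ K * s := by positivity
        rw [hC1]; linarith
      exact (mul_le_mul_of_nonneg_right h1 ht).trans t1
    have h1 : |τ * (κa - lam * κb)| ≤ |τ| * (K * lam + lam * K) := by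
      rw [abs_mul]
      refine mul_le_mul_of_nonneg_left ?_ ht
      refine (abs_sub _ _).trans (add_le_add hκa ?_)
      rw [abs_mul, abs_of_nonneg hlam0]
      exact mul_le_mul_of_nonneg_left hκb hlam0
    have h2 := (abs_le.1 h1).1
    have h3 : |τ| * (K * lam + lam * K) ≤ lam := by
      have := mul_le_mul_of_nonneg_left hKT hlam0
      nlinarith
    have h4 : 0 ≤ ε * |τ| := by positivity
    linarith
  -- the subspace
  have hji : ∀ l, l < i → l ≠ j := by
    rintro l hl rfl
    have := hlt l hl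
    linarith
  let idx : Fin (i + 1) → ℕ := fun p => if (p : ℕ) < i then p else j
  have hidx : Function.Injective idx := by
    intro p q hpq
    simp only [idx] at hpq
    have hp := p.2
    have hq := q.2
    split_ifs at hpq with hp1 hq1 hq1
    · exact Fin.ext hpq
    · exact absurd hpq (hji _ hp1)
    · exact absurd hpq.symm (hji _ hq1)
    · apply Fin.ext
      omega
  let f : Fin (i + 1) → H := fun p => e (idx p)
  have horth : ∀ p q : Fin (i + 1), b (f p) (f q) = if p = q then 1 else 0 := by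
    intro p q
    show b (e (idx p)) (e (idx q)) = _
    rw [hE.orth]
    by_cases h : p = q
    · rw [if_pos h, if_pos (by rw [h])]
    · rw [if_neg h, if_neg fun h' => h (hidx h')]
  have hHD : HD a' b' ν i := by
    refine ⟨Submodule.span ℝ (range f), finrank_orth b horth, ?_⟩
    intro v hv
    obtain ⟨c, rfl⟩ := (Submodule.mem_span_range_iff_exists_fun ℝ).1 hv
    set x := c (Fin.last i) with hx
    let d : Fin i → ℝ := fun l => c l.castSucc
    set y : H := ∑ l : Fin i, d l • e l with hydef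
    have hv' : ∑ p, c p • f p = y + x • e j := by
      rw [Fin.sum_univ_castSucc]
      congr 1
      · refine Finset.sum_congr rfl fun l _ => ?_
        have : idx l.castSucc = l := by
          simp only [idx, Fin.val_castSucc, if_pos l.2]
        show c l.castSucc • e (idx l.castSucc) = _
        rw [this]
      · have : idx (Fin.last i) = j := by
          simp only [idx, Fin.val_last, lt_irrefl, if_false]
        show c (Fin.last i) • e (idx (Fin.last i)) = _
        rw [this]
    rw [hv']
    have ho := orth_fin b hE.orth i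
    have hyy : b y y = ∑ l : Fin i, d l ^ 2 := b_orth_self b ho d
    have hY0 : 0 ≤ b y y := hF.nb y
    have hyj : b y (e j) = 0 := by
      rw [hydef, b_sum_left]
      refine Finset.sum_eq_zero fun l _ => ?_
      rw [hE.orth, if_neg (hji l l.2), mul_zero]
    have hjy : b (e j) y = 0 := by rw [hF.sb, hyj]
    have hayy : a y y ≤ (lam - g) * b y y := by
      have h5 : a y y = ∑ l : Fin i, E l * d l ^ 2 := by
        rw [hydef, b_sum_left]
        refine Finset.sum_congr rfl fun l _ => ?_
        rw [hE.eig, b_orth_coef b ho]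
        ring
      rw [h5, hyy, Finset.mul_sum]
      refine Finset.sum_le_sum fun l _ => ?_
      have h6 := hgap l (Finset.mem_range.2 l.2)
      exact mul_le_mul_of_nonneg_right (by linarith) (sq_nonneg _)
    have hA0 : 0 ≤ a y y := hF.na y
    have h5 : a (e j) y = 0 := by rw [hE.eig, hjy, mul_zero]
    have h6 : a y (e j) = 0 := by rw [hF.sa, h5]
    have hav : a (y + x • e j) (y + x • e j) = a y y + lam * x ^ 2 := by
      simp only [map_add, map_smul, add_apply,
        smul_apply, smul_eq_mul, h5, h6, hajj]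
      ring
    have hbv : b (y + x • e j) (y + x • e j) = b y y + x ^ 2 := by
      simp only [map_add, map_smul, add_apply,
        smul_apply, smul_eq_mul, hyj, hjy, hjj]
      ring
    have hkv : ∀ k : H →L[ℝ] H →L[ℝ] ℝ, (∀ u v, k u v = k v u) →
        k (y + x • e j) (y + x • e j) = k y y + 2 * x * k y (e j) + k (e j) (e j) * x ^ 2 := by
      intro k ksym
      simp only [map_add, map_smul, add_apply,
        smul_apply, smul_eq_mul]
      rw [ksym (e j) y]
      ring
    have hca := cross kasym hka h6 h5 x hs0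
    have hcb := cross kbsym hkb hyj hjy x hs0
    rw [hajj] at hca
    rw [hjj, one_mul] at hcb
    have hkayy := hka y
    have hkbyy := hkb y
    set Y := b y y with hYdef
    set Z := a y y with hZdef
    have hx2 : 0 ≤ x ^ 2 := sq_nonneg x
    have hup : a' (y + x • e j) (y + x • e j) ≤
        Z * (1 + (η + K + K / s) * |τ|) +
          (lam + η * |τ| * lam + τ * κa + |τ| * (K * s * lam)) * x ^ 2 := by
      refine (ha' _).trans ?_
      rw [hav, hkv ka kasym]
      have h7 : τ * (ka y y + 2 * x * ka y (e j)) ≤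
          |τ| * (K * Z + K * (Z / s + s * (lam * x ^ 2))) := by
        refine (le_abs_self _).trans ?_
        rw [abs_mul]
        refine mul_le_mul_of_nonneg_left ?_ ht
        exact (abs_add_le _ _).trans (add_le_add hkayy hca)
      have h8 : Z * (1 + (η + K + K / s) * |τ|) +
          (lam + η * |τ| * lam + τ * κa + |τ| * (K * s * lam)) * x ^ 2 =
          Z + lam * x ^ 2 + τ * (κa * x ^ 2) + |τ| * (K * Z + K * (Z / s + s * (lam * x ^ 2))) +
            η * |τ| * (Z + lam * x ^ 2) := by
        field_simp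
        ring
      rw [h8]
      linarith
    have hlow : Y * (1 - (η + K + K / s) * |τ|) +
          (1 - η * |τ| + τ * κb - |τ| * (K * s)) * x ^ 2 ≤
        b' (y + x • e j) (y + x • e j) := by
      refine le_trans ?_ (hb' _)
      rw [hbv, hkv kb kbsym]
      have h7 : -(|τ| * (K * Y + K * (Y / s + s * x ^ 2))) ≤
          τ * (kb y y + 2 * x * kb y (e j)) := by
        have h6 : |τ * (kb y y + 2 * x * kb y (e j))| ≤
            |τ| * (K * Y + K * (Y / s + s * x ^ 2)) := by
          rw [abs_mul]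
          refine mul_le_mul_of_nonneg_left ?_ ht
          exact (abs_add_le _ _).trans (add_le_add hkbyy hcb)
        exact (abs_le.1 h6).1
      have h8 : Y * (1 - (η + K + K / s) * |τ|) +
          (1 - η * |τ| + τ * κb - |τ| * (K * s)) * x ^ 2 =
          Y + x ^ 2 + τ * (κb * x ^ 2) - |τ| * (K * Y + K * (Y / s + s * x ^ 2)) -
            η * |τ| * (Y + x ^ 2) := by
        field_simp
        ring
      rw [h8]
      linarith
    refine hup.trans (le_trans ?_ (mul_le_mul_of_nonneg_left hlow hν0))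
    have c1 : (lam + η * |τ| * lam + τ * κa + |τ| * (K * s * lam)) * x ^ 2 ≤
        (ν * (1 - η * |τ| + τ * κb - |τ| * (K * s))) * x ^ 2 :=
      mul_le_mul_of_nonneg_right iX hx2
    have c2 : Z * (1 + (η + K + K / s) * |τ|) ≤ (ν * (1 - (η + K + K / s) * |τ|)) * Y := by
      have d1 : 0 ≤ (η + K + K / s) * |τ| := by positivity
      have d2 : Z * (1 + (η + K + K / s) * |τ|) ≤
          ((lam - g) * Y) * (1 + (η + K + K / s) * |τ|) :=
        mul_le_mul_of_nonneg_right hayy (by linarith)
      refine d2.trans ?_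
      calc ((lam - g) * Y) * (1 + (η + K + K / s) * |τ|) =
          ((lam - g) * (1 + (η + K + K / s) * |τ|)) * Y := by ring
        _ ≤ _ := mul_le_mul_of_nonneg_right iY hY0
    calc _ ≤ (ν * (1 - (η + K + K / s) * |τ|)) * Y +
        (ν * (1 - η * |τ| + τ * κb - |τ| * (K * s))) * x ^ 2 := add_le_add c2 c1
      _ = _ := by ring
  exact csInf_le ⟨0, fun x hx => hx.1⟩ ⟨hν0, hHD⟩

end forms

end Pool.Agent.Helper34.QJ
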