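import Pool.Agent.Helper34.QJ.Fam

/-!
# Stress and energy in the mean: the density of the area
-/

set_option autoImplicit false
set_option linter.unusedSectionVars false

open Set Filter Topology MeasureTheory
open scoped Real ContDiff

noncomputable section

namespace Pool.Agent.Helper34.QJ

open Pool.Agent.Y262.QE Pool.Agent.Y264.QR Pool.Agent.Y708.QE Pool.Agent.Y960.QE

/-! ### Determinants in the plane -/

/-- the trace of a linear map of the plane -/
def tr (S : ℂ →L[ℝ] ℂ) : ℝ := (S 1).re + (S Complex.I).im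

theorem det_eq (S : ℂ →L[ℝ] ℂ) : S.det = (S 1).re * (S Complex.I).im - (S Complex.I).re * (S 1).im := by
  have h1 : S.det = LinearMap.det (S : ℂ →ₗ[ℝ] ℂ) := rfl
  rw [h1, ← LinearMap.det_toMatrix Complex.basisOneI, Matrix.det_fin_two]
  simp [LinearMap.toMatrix_apply]

theorem abs_det_le {C : ℂ →L[ℝ] ℂ} {c : ℝ} (h : ∀ v, ‖C v‖ ≤ c * ‖v‖) : |C.det| ≤ c ^ 2 := by
  have h1 := h 1
  have h2 := h Complex.I
  rw [norm_one, mul_one] at h1
  rw [Complex.norm_I, mul_one] at h2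
  have e1 : C.det = (starRingEnd ℂ (C 1) * C Complex.I).im := by
    rw [det_eq, Complex.mul_im, Complex.conj_re, Complex.conj_im]
    ring
  rw [e1]
  refine (Complex.abs_im_le_norm _).trans ?_
  rw [norm_mul, RCLike.norm_conj, pow_two]
  exact mul_le_mul h1 h2 (norm_nonneg _) ((norm_nonneg _).trans h1)

theorem abs_tr_le {S : ℂ →L[ℝ] ℂ} {c : ℝ} (h : ∀ v, ‖S v‖ ≤ c * ‖v‖) : |tr S| ≤ 2 * c := by
  have h1 := h 1
  have h2 := h Complex.I
  rw [norm_one, mul_one] at h1
  rw [Complex.norm_I, mul_one] at h2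
  unfold tr
  have h3 := (Complex.abs_re_le_norm (S 1)).trans h1
  have h4 := (Complex.abs_im_le_norm (S Complex.I)).trans h2
  exact (abs_add_le _ _).trans (by linarith)

theorem det_one_add (X : ℂ →L[ℝ] ℂ) :
    (ContinuousLinearMap.id ℝ ℂ + X).det = 1 + tr X + X.det := by
  rw [det_eq, det_eq]
  have e1 : (ContinuousLinearMap.id ℝ ℂ + X) 1 = 1 + X 1 := rfl
  have e2 : (ContinuousLinearMap.id ℝ ℂ + X) Complex.I = Complex.I + X Complex.I := rfl
  rw [e1, e2]
  unfold tr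
  simp only [Complex.add_re, Complex.add_im, Complex.one_re, Complex.one_im, Complex.I_re,
    Complex.I_im]
  ring

theorem det_comp' (A B : ℂ →L[ℝ] ℂ) : (A.comp B).det = A.det * B.det := by
  have h1 : (A.comp B).det = LinearMap.det ((A : ℂ →ₗ[ℝ] ℂ) ∘ₗ (B : ℂ →ₗ[ℝ] ℂ)) := rfl
  rw [h1, LinearMap.det_comp]

/-- the determinant of `B` is the product of the determinants of `B A⁻¹` and `A` -/
theorem det_split {A : ℂ →L[ℝ] ℂ} (hA : A.det ≠ 0) (B : ℂ →L[ℝ] ℂ) :
    B.det = (B.comp A.inverse).det * A.det := by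
  rw [← det_comp']
  congr 1
  ext1 v
  show B v = B (A.inverse (A v))
  rw [inv_apply' hA]

theorem det_le {A B : ℂ →L[ℝ] ℂ} (hA : A.det ≠ 0) {c : ℝ} (h : ∀ v, ‖B v‖ ≤ c * ‖A v‖) :
    |B.det| ≤ c ^ 2 * |A.det| := by
  rw [det_split hA B, abs_mul]
  refine mul_le_mul_of_nonneg_right (abs_det_le fun v => ?_) (abs_nonneg _)
  have := h (A.inverse v)
  rwa [inv_apply hA] at this

/-- the derivative of the determinant -/
theorem det_der {K η T τ : ℝ} (hT : |τ| = T)
    (h1 : (2 * (K + η) + (K + η) ^ 2 * T) * T ≤ 1 / 2)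
    {A B A' : ℂ →L[ℝ] ℂ} (hA : A.det ≠ 0) (hA' : ∀ v, ‖A' v‖ ≤ K * ‖A v‖)
    (h : ∀ v, ‖B v - A v - τ • A' v‖ ≤ η * |τ| * ‖A v‖) :
    |(|B.det| - |A.det| - τ * (tr (A'.comp A.inverse) * |A.det|))| ≤
      (2 * η + (K + η) ^ 2 * T) * T * |A.det| := by
  have hT0 : 0 ≤ T := by rw [← hT]; exact abs_nonneg _
  set S : ℂ →L[ℝ] ℂ := A'.comp A.inverse with hS
  set ρ : ℂ →L[ℝ] ℂ := B.comp A.inverse - ContinuousLinearMap.id ℝ ℂ - τ • S with hρ
  set X : ℂ →L[ℝ] ℂ := τ • S + ρ with hX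
  have hSb : ∀ v, ‖S v‖ ≤ K * ‖v‖ := by
    intro v
    have := hA' (A.inverse v)
    rwa [inv_apply hA] at this
  have hρb : ∀ v, ‖ρ v‖ ≤ (η * T) * ‖v‖ := by
    intro v
    have := h (A.inverse v)
    rw [inv_apply hA, hT] at this
    exact this
  have hXb : ∀ v, ‖X v‖ ≤ ((K + η) * T) * ‖v‖ := by
    intro v
    have e1 : X v = τ • S v + ρ v := rfl
    rw [e1]
    refine (norm_add_le _ _).trans ?_
    rw [norm_smul, Real.norm_eq_abs, hT]
    have h2 := mul_le_mul_of_nonneg_left (hSb v) hT0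
    have h3 := hρb v
    linarith
  have e1 : B.comp A.inverse = ContinuousLinearMap.id ℝ ℂ + X := by
    rw [hX, hρ]
    abel
  have e2 : (B.comp A.inverse).det = 1 + tr X + X.det := by rw [e1, det_one_add]
  have e3 : tr X = τ * tr S + tr ρ := by
    have g1 : X 1 = τ • S 1 + ρ 1 := rfl
    have g2 : X Complex.I = τ • S Complex.I + ρ Complex.I := rfl
    unfold tr
    rw [g1, g2]
    simp only [Complex.add_re, Complex.add_im, Complex.real_smul, Complex.mul_re, Complex.mul_im,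
      Complex.ofReal_re, Complex.ofReal_im, zero_mul, sub_zero, add_zero]
    ring
  have b1 := abs_tr_le hρb
  have b2 := abs_det_le hXb
  have b3 := abs_tr_le hXb
  have b4 : |tr X + X.det| ≤ 1 / 2 := by
    refine (abs_add_le _ _).trans ((add_le_add b3 b2).trans (le_trans (le_of_eq ?_) h1))
    ring
  have hpos : 0 < (B.comp A.inverse).det := by
    rw [e2]
    have := (abs_le.1 b4).1
    linarith
  rw [det_split hA B, abs_mul, abs_of_pos hpos, e2, e3]
  have e4 : (1 + (τ * tr S + tr ρ) + X.det) * |A.det| - |A.det| - τ * (tr S * |A.det|) =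
      (tr ρ + X.det) * |A.det| := by ring
  rw [e4, abs_mul, abs_abs]
  refine mul_le_mul_of_nonneg_right ?_ (abs_nonneg _)
  refine (abs_add_le _ _).trans ((add_le_add b1 b2).trans (le_of_eq ?_))
  ring

theorem det_der' {K : ℝ} (hK : 0 ≤ K) {ε : ℝ} (hε : 0 < ε) :
    ∃ η δ : ℝ, 0 < η ∧ 0 < δ ∧ ∀ τ : ℝ, |τ| < δ → ∀ {A B A' : ℂ →L[ℝ] ℂ}, A.det ≠ 0 →
      (∀ v, ‖A' v‖ ≤ K * ‖A v‖) → (∀ v, ‖B v - A v - τ • A' v‖ ≤ η * |τ| * ‖A v‖) →
      |(|B.det| - |A.det| - τ * (tr (A'.comp A.inverse) * |A.det|))| ≤ ε * |τ| * |A.det| := by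
  set η : ℝ := ε / 4 with hη
  have hη0 : 0 < η := by positivity
  refine ⟨η, min 1 (min (1 / (2 * (2 * (K + η) + (K + η) ^ 2) + 1)) (ε / (2 * (K + η) ^ 2 + 1))),
    hη0, by positivity, ?_⟩
  intro τ hτ A B A' hA hA' h
  have ht := abs_nonneg τ
  have h1 : |τ| ≤ 1 := (lt_of_lt_of_le hτ (min_le_left _ _)).le
  have h2 := lt_of_lt_of_le hτ ((min_le_right _ _).trans (min_le_left _ _))
  have h3 := lt_of_lt_of_le hτ ((min_le_right _ _).trans (min_le_right _ _))
  rw [lt_div_iff₀ (by positivity)] at h2 h3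
  have h4 : (K + η) ^ 2 * |τ| ≤ (K + η) ^ 2 := by
    have := mul_le_mul_of_nonneg_left h1 (sq_nonneg (K + η))
    linarith
  refine (det_der (τ := τ) rfl ?_ hA hA' h).trans ?_
  · have h5 : (2 * (K + η) + (K + η) ^ 2 * |τ|) * |τ| ≤ (2 * (K + η) + (K + η) ^ 2) * |τ| :=
      mul_le_mul_of_nonneg_right (by linarith) ht
    linarith
  · refine mul_le_mul_of_nonneg_right (mul_le_mul_of_nonneg_right ?_ ht) (abs_nonneg _)
    linarith

/-! ### The density -/

/-- the density of the area of the metric `B` with respect to the area of the metric `A` -/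
def dr {M : Type} (D : Data M) (A B : Fin D.N → ℂ → ℂ →L[ℝ] ℂ) (x : M) : ℝ :=
  ∑ i, (D.pc i).indicator (fun x => |(B i (D.φ i x)).det| / |(A i (D.φ i x)).det|) x

section

variable {M : Type} [MetricSpace M] [CompactSpace M] [MeasurableSpace M] [BorelSpace M]
  {D : Data M} {μ ν : Measure M} {A B : Fin D.N → ℂ → ℂ →L[ℝ] ℂ}

theorem meas_field' {E : Type} [NormedAddCommGroup E] [MeasurableSpace E] [BorelSpace E]
    [SecondCountableTopology E] (hD : ∀ i, IsOpen (D.U i))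
    (g : Fin D.N → M → E) (hg : ∀ i, ContinuousOn (g i) (D.U i)) :
    Measurable (fun x => ∑ i, (D.pc i).indicator (g i) x) := by
  classical
  have hm : ∀ i, MeasurableSet (D.pc i) := fun i =>
    (hD i).measurableSet.diff (MeasurableSet.iUnion fun k => (hD k.1).measurableSet)
  refine Finset.measurable_sum _ fun i _ => ?_
  rw [← Set.piecewise_eq_indicator]
  exact ContinuousOn.measurable_piecewise ((hg i).mono fun x hx => hx.1) continuousOn_const (hm i)

theorem dr_meas (hA : (chg D A).IsSurf μ) (hB : (chg D B).IsSurf ν) : Measurable (dr D A B) := by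
  refine meas_field' hA.openU _ fun i => ?_
  have hm : MapsTo (D.φ i) (D.U i) (D.T i) := fun x hx => ⟨x, hx, rfl⟩
  have h1 : ContinuousOn (fun x => |(B i (D.φ i x)).det|) (D.U i) :=
    ((ContinuousLinearMap.continuous_det.comp_continuousOn
      ((hB.contA i).comp (hA.contφ i) hm))).abs
  have h2 : ContinuousOn (fun x => |(A i (D.φ i x)).det|) (D.U i) :=
    ((ContinuousLinearMap.continuous_det.comp_continuousOn
      ((hA.contA i).comp (hA.contφ i) hm))).abs
  exact h1.div h2 fun x hx => (abs_pos.2 (hA.det i _ (hm hx))).ne'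

theorem pcx (hA : (chg D A).IsSurf μ) (x : M) : ∃ i, x ∈ D.pc i ∧ D.φ i x ∈ D.T i := by
  obtain ⟨i, hi⟩ := pc_ex hA x
  exact ⟨i, hi, ⟨x, hi.1, rfl⟩⟩

theorem dr_eq {i : Fin D.N} {x : M} (hi : x ∈ D.pc i) :
    dr D A B x = |(B i (D.φ i x)).det| / |(A i (D.φ i x)).det| := by
  rw [dr, sum_pc _ hi]

theorem dr_pos (hA : (chg D A).IsSurf μ) (hB : (chg D B).IsSurf ν) (x : M) : 0 < dr D A B x := by
  obtain ⟨i, hi, hz⟩ := pcx hA x
  rw [dr_eq hi]
  exact div_pos (abs_pos.2 (hB.det i _ hz)) (abs_pos.2 (hA.det i _ hz))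

/-- **The area.** -/
theorem dens (hA : (chg D A).IsSurf μ) (hB : (chg D B).IsSurf ν) : ν = wm μ (dr D A B) := by
  have hpc : ∀ i, MeasurableSet (D.pc i) := fun i => pc_meas hA i
  have hsub : ∀ i, D.pc i ⊆ D.U i := fun i x hx => hx.1
  have hloc : ∀ (i : Fin D.N) (s : Set M), MeasurableSet s → s ⊆ D.pc i →
      ν s = wm μ (dr D A B) s := by
    intro i s hs hsi
    have hsU : s ⊆ D.U i := hsi.trans (hsub i)
    have h1 : ν s = ∫⁻ z in D.φ i '' s, ENNReal.ofReal |(B i z).det| := hB.area i s hsU hs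
    have h2 : wm μ (dr D A B) s = ∫⁻ x in s, ENNReal.ofReal (dr D A B x) ∂μ := by
      unfold wm
      rw [withDensity_apply _ hs]
    have hmeas : Measurable fun x => ENNReal.ofReal (dr D A B x) := (dr_meas hA hB).ennreal_ofReal
    have h3 := map_nu hA i hsU hs
    rw [h1, h2, ← h3, lintegral_map' hmeas.aemeasurable (aemψ' hA i hsU hs)]
    have h4 := lintegral_withDensity_eq_lintegral_mul₀ (aemDet hA i hsU hs)
      (hmeas.comp_aemeasurable (aemψ hA i hsU hs))
    refine Eq.trans ?_ h4.symm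
    refine setLIntegral_congr_fun (meas_im hA i hsU hs) ?_
    rintro z ⟨x, hx, rfl⟩
    have hl : D.ψ i (D.φ i x) = x := hA.left i x (hsU hx)
    have hz : D.φ i x ∈ D.T i := ⟨x, hsU hx, rfl⟩
    have hd : 0 < |(A i (D.φ i x)).det| := abs_pos.2 (hA.det i _ hz)
    show ENNReal.ofReal |(B i (D.φ i x)).det| = ENNReal.ofReal |(A i (D.φ i x)).det| *
      ENNReal.ofReal (dr D A B (D.ψ i (D.φ i x)))
    rw [hl, dr_eq (hsi hx), ← ENNReal.ofReal_mul (abs_nonneg _), mul_div_cancel₀ _ hd.ne']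
  ext s hs
  have hcov : s = ⋃ i, s ∩ D.pc i := by
    ext x
    constructor
    · intro hx
      obtain ⟨i, hi, -⟩ := pcx hA x
      exact mem_iUnion.2 ⟨i, hx, hi⟩
    · intro hx
      obtain ⟨i, hi⟩ := mem_iUnion.1 hx
      exact hi.1
  have hdis : Pairwise (Function.onFun Disjoint fun i => s ∩ D.pc i) := by
    intro i j hij
    refine Set.disjoint_left.2 fun x hx hx' => hij (pc_disj hx.2 hx'.2)
  rw [hcov, measure_iUnion hdis (fun i => hs.inter (hpc i)),
    measure_iUnion hdis (fun i => hs.inter (hpc i))]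
  exact tsum_congr fun i => hloc i _ (hs.inter (hpc i)) inter_subset_right

end

end Pool.Agent.Helper34.QJ
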