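import Pool.Agent.Helper34.QJ.Abs

/-!
# Stress and energy in the mean: one parameter
-/

set_option autoImplicit false

open Set Filter Topology MeasureTheory
open scoped Real ContDiff

noncomputable section

namespace Pool.Agent.Helper34.QJ

open Pool.Agent.Y262.QE Pool.Agent.Y264.QR Pool.Agent.Y592.QE Pool.Agent.Y390.QR.LIP

/-- differentiable paths of pairs of forms -/
structure Path {H : Type} [NormedAddCommGroup H] [InnerProductSpace ℝ H]
    (a b ka kb : ℝ → H →L[ℝ] H →L[ℝ] ℝ) (K : ℝ) : Prop where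
  K0 : 0 ≤ K
  F : ∀ t, Fm (a t) (b t)
  sa : ∀ t u v, ka t u v = ka t v u
  sb : ∀ t u v, kb t u v = kb t v u
  ba : ∀ t v, |ka t v v| ≤ K * a t v v
  bb : ∀ t v, |kb t v v| ≤ K * b t v v
  da : ∀ t ε : ℝ, 0 < ε → ∃ δ : ℝ, 0 < δ ∧ ∀ τ : ℝ, |τ| < δ → ∀ v,
    a (t + τ) v v ≤ a t v v + τ * ka t v v + ε * |τ| * a t v v
  db : ∀ t ε : ℝ, 0 < ε → ∃ δ : ℝ, 0 < δ ∧ ∀ τ : ℝ, |τ| < δ → ∀ v,
    b t v v + τ * kb t v v - ε * |τ| * b t v v ≤ b (t + τ) v v
  la : ∀ s t v, a s v v ≤ Real.exp (K * |s - t|) * a t v v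
  lb : ∀ s t v, b s v v ≤ Real.exp (K * |s - t|) * b t v v

/-- the logarithmic derivative of the eigenvalue of the vector `e` -/
def kap {H : Type} [NormedAddCommGroup H] [InnerProductSpace ℝ H]
    (ka kb : H →L[ℝ] H →L[ℝ] ℝ) (e : H) (E : ℝ) : ℝ := kb e e - ka e e / E

section

variable {H : Type} [NormedAddCommGroup H] [InnerProductSpace ℝ H]
  {a b ka kb : ℝ → H →L[ℝ] H →L[ℝ] ℝ} {K : ℝ} {e : ℝ → ℕ → H} {E : ℝ → ℕ → ℝ}

theorem Path.mm (h : Path a b ka kb K) (hE : ∀ t, Eg (a t) (b t) (e t) (E t)) (t : ℝ) (j : ℕ) :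
    Ev (a t) (b t) j = E t j :=
  Pool.Agent.Y592.QE.mm H (a t) (b t) (h.F t) (e t) (E t) (hE t) j

theorem Path.E0 (h : Path a b ka kb K) (hE : ∀ t, Eg (a t) (b t) (e t) (E t)) (t : ℝ) (j : ℕ) :
    0 ≤ E t j := by
  rw [← h.mm hE]
  exact Ev_nonneg j

theorem aee (hE : ∀ t, Eg (a t) (b t) (e t) (E t)) (t : ℝ) (j : ℕ) :
    a t (e t j) (e t j) = E t j := by
  rw [(hE t).eig, (hE t).orth, if_pos rfl, mul_one]

theorem bee (hE : ∀ t, Eg (a t) (b t) (e t) (E t)) (t : ℝ) (j : ℕ) :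
    b t (e t j) (e t j) = 1 := by
  rw [(hE t).orth, if_pos rfl]

theorem Path.E_le (h : Path a b ka kb K) (hE : ∀ t, Eg (a t) (b t) (e t) (E t)) (s t : ℝ) (j : ℕ) :
    E s j ≤ Real.exp (2 * K * |s - t|) * E t j := by
  rw [← h.mm hE, ← h.mm hE]
  have h1 := evAB (a := a t) (a' := a s) (b := b t) (b' := b s) (h.F t)
    (Real.exp_pos (K * |s - t|)) (Real.exp_pos (K * |s - t|)) (h.la s t) (fun v => by
      have := h.lb t s v
      rwa [abs_sub_comm] at this) j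
  rw [← Real.exp_add] at h1
  have e1 : K * |s - t| + K * |s - t| = 2 * K * |s - t| := by ring
  rwa [e1] at h1

theorem Path.kap_le (h : Path a b ka kb K) (hE : ∀ t, Eg (a t) (b t) (e t) (E t)) (t : ℝ) (j : ℕ) :
    |kap (ka t) (kb t) (e t j) (E t j)| ≤ 2 * K := by
  have h1 := h.ba t (e t j)
  have h2 := h.bb t (e t j)
  rw [aee hE] at h1
  rw [bee hE, mul_one] at h2
  unfold kap
  refine (abs_sub _ _).trans ?_
  have h3 : |ka t (e t j) (e t j) / E t j| ≤ K := by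
    rw [abs_div, abs_of_nonneg (h.E0 hE t j)]
    exact div_le_of_le_mul₀ (h.E0 hE t j) h.K0 h1
  linarith

theorem Path.up (h : Path a b ka kb K) (hE : ∀ t, Eg (a t) (b t) (e t) (E t)) {t : ℝ} {i j : ℕ}
    (hij : E t i = E t j) (hl : ∀ l, l < i → E t l < E t i) {ε : ℝ} (hε : 0 < ε) :
    ∃ δ : ℝ, 0 < δ ∧ ∀ τ : ℝ, |τ| < δ →
      E (t + τ) i ≤ E t i * (1 - kap (ka t) (kb t) (e t j) (E t j) * τ) + ε * |τ| := by
  obtain ⟨η, δ, hη, hδ, h1⟩ := der2 (h.F t) (hE t) (h.sa t) (h.sb t) h.K0 (h.ba t) (h.bb t)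
    hij hl hε
  obtain ⟨δ', hδ', h2⟩ := h.da t η hη
  obtain ⟨δ'', hδ'', h3⟩ := h.db t η hη
  refine ⟨min δ (min δ' δ''), lt_min hδ (lt_min hδ' hδ''), fun τ hτ => ?_⟩
  have h4 := h1 τ (lt_of_lt_of_le hτ (min_le_left _ _)) (a (t + τ)) (b (t + τ))
    (h2 τ (lt_of_lt_of_le hτ ((min_le_right _ _).trans (min_le_left _ _))))
    (h3 τ (lt_of_lt_of_le hτ ((min_le_right _ _).trans (min_le_right _ _))))
  rw [h.mm hE] at h4
  refine h4.trans (le_of_eq ?_)
  have h5 : E t i * (1 - kap (ka t) (kb t) (e t j) (E t j) * τ) =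
      E t i + τ * (ka t (e t j) (e t j) - E t i * kb t (e t j) (e t j)) := by
    unfold kap
    rcases (h.E0 hE t j).eq_or_lt with h6 | h6
    · have h7 := h.ba t (e t j)
      rw [aee hE, ← h6, mul_zero] at h7
      have h8 : ka t (e t j) (e t j) = 0 := abs_nonpos_iff.1 h7
      rw [h8, hij, ← h6]
      simp
    · rw [hij]
      field_simp
      ring
  rw [h5]

theorem Path.point (h : Path a b ka kb K) (hE : ∀ t, Eg (a t) (b t) (e t) (E t)) {t : ℝ}
    (hd : ∀ l, DifferentiableAt ℝ (fun s => E s l) t) (j : ℕ) :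
    HasDerivAt (fun s => E s j) (-(kap (ka t) (kb t) (e t j) (E t j) * E t j)) t := by
  classical
  have hex : ∃ i, E t i = E t j := ⟨j, rfl⟩
  set i := Nat.find hex with hi
  have hij : E t i = E t j := Nat.find_spec hex
  have hle : i ≤ j := Nat.find_min' hex rfl
  have hlt : ∀ l, l < i → E t l < E t i := by
    intro l hl
    refine lt_of_le_of_ne ((hE t).mono hl.le) fun he => ?_
    exact Nat.find_min hex hl (he.trans hij)
  have hdi : deriv (fun s => E s i) t = -(kap (ka t) (kb t) (e t j) (E t j) * E t i) := by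
    refine Pool.Agent.Y147.QR.deriv_of_le (fun s => E s i) _ _ t (hd i).hasDerivAt fun ε hε => ?_
    obtain ⟨δ, hδ, h1⟩ := h.up hE hij hlt hε
    refine ⟨δ, hδ, fun τ hτ => (h1 τ hτ).trans (le_of_eq ?_)⟩
    ring
  have hmin : IsLocalMin (fun s => E s j - E s i) t := by
    refine Eventually.of_forall fun s => ?_
    have h1 := (hE s).mono hle
    simp only [hij, sub_self]
    linarith
  have hz : HasDerivAt (fun s => E s j - E s i)
      (deriv (fun s => E s j) t - deriv (fun s => E s i) t) t :=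
    (hd j).hasDerivAt.sub (hd i).hasDerivAt
  have h0 := hmin.hasDerivAt_eq_zero hz
  have h1 : deriv (fun s => E s j) t = -(kap (ka t) (kb t) (e t j) (E t j) * E t j) := by
    rw [← hij, ← hij] at *
    linarith
  rw [← h1]
  exact (hd j).hasDerivAt

theorem Path.ae (h : Path a b ka kb K) (hE : ∀ t, Eg (a t) (b t) (e t) (E t)) :
    ∀ᵐ t : ℝ, ∀ j, HasDerivAt (fun s => E s j)
      (-(kap (ka t) (kb t) (e t j) (E t j) * E t j)) t := by
  have hall : ∀ᵐ t : ℝ, ∀ j, DifferentiableAt ℝ (fun s => E s j) t :=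
    ae_all_iff.2 fun j => Pool.Agent.Y147.QR.ae_diff (fun s => E s j) (2 * K)
      (fun t => h.E0 hE t j) fun s t => h.E_le hE s t j
  filter_upwards [hall] with t ht j
  exact h.point hE ht j

/-- **One parameter.** -/
theorem Path.weak (h : Path a b ka kb K) (hE : ∀ t, Eg (a t) (b t) (e t) (E t))
    {L κ' : ℝ → ℝ} (hL0 : ∀ t, 0 < L t) (hLl : ∀ s t, L s ≤ Real.exp (2 * K * |s - t|) * L t)
    (hLd : ∀ t, HasDerivAt L (-(κ' t * L t)) t)
    (hW : ∀ t, Tendsto (fun j : ℕ => E t j / (j + 1)) atTop (𝓝 (L t))) :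
    ∀ χ : ℝ → ℝ, Integrable χ volume →
      Tendsto (fun j => ∫ t, χ t * kap (ka t) (kb t) (e t j) (E t j)) atTop
        (𝓝 (∫ t, χ t * κ' t)) := by
  set κ : ℕ → ℝ → ℝ := fun j t => kap (ka t) (kb t) (e t j) (E t j) with hκ
  have c1 := h.ae hE
  obtain ⟨J, hJ⟩ : ∃ J : ℕ, ∀ j, J ≤ j → ∀ t, 0 < E t j := by
    obtain ⟨J, hJ⟩ := eventually_atTop.1 ((hW 0).eventually (lt_mem_nhds (hL0 0)))
    refine ⟨J, fun j hj t => ?_⟩
    have h1 := hJ j hj
    have h2 : 0 < E 0 j := by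
      by_contra hcon
      have h3 : E 0 j = 0 := le_antisymm (not_lt.1 hcon) (h.E0 hE 0 j)
      rw [h3, zero_div] at h1
      exact lt_irrefl _ h1
    have h3 := h.E_le hE 0 t j
    by_contra hcon
    have h4 : E t j = 0 := le_antisymm (not_lt.1 hcon) (h.E0 hE t j)
    rw [h4, mul_zero] at h3
    linarith
  have hftc : ∀ j, J ≤ j → (∀ᵐ t : ℝ, |κ j t| ≤ 2 * K) ∧ AEMeasurable (κ j) volume ∧
      ∀ α β : ℝ, α ≤ β → ∫ t in α..β, κ j t = Real.log (E α j) - Real.log (E β j) := by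
    intro j hj
    exact Pool.Agent.Y147.QR.stFTC (fun t => E t j) (κ j) (2 * K) (fun t => hJ j hj t)
      (fun s t => h.E_le hE s t j) (c1.mono fun t ht => ht j)
  obtain ⟨l1, l2, l3⟩ := Pool.Agent.Y147.QR.stFTC L κ' (2 * K) hL0 hLl (ae_of_all _ hLd)
  intro χ hχ
  have h1 := Pool.Agent.Y401.QR.t_Dens (fun j t => κ (j + J) t) κ' (2 * K)
    (fun j => (hftc (j + J) (by omega)).2.1) l2
    (fun j => (hftc (j + J) (by omega)).1) l1 (by
      intro α β hαβ
      have hlog : ∀ t : ℝ, Tendsto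
          (fun j : ℕ => Real.log (E t (j + J) / (((j + J : ℕ) : ℝ) + 1))) atTop
          (𝓝 (Real.log (L t))) := by
        intro t
        have h2 := (tendsto_add_atTop_iff_nat J).2 (hW t)
        exact h2.log (hL0 t).ne'
      have h3 := (hlog α).sub (hlog β)
      rw [l3 α β hαβ]
      refine h3.congr fun j => ?_
      rw [(hftc (j + J) (by omega)).2.2 α β hαβ]
      have hj : ((j + J : ℕ) : ℝ) + 1 ≠ 0 := by positivity
      rw [Real.log_div (hJ (j + J) (by omega) _).ne' hj,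
        Real.log_div (hJ (j + J) (by omega) _).ne' hj]
      ring) χ hχ
  exact (tendsto_add_atTop_iff_nat (f := fun j => ∫ t, χ t * κ j t) J).1 h1

end

end Pool.Agent.Helper34.QJ
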