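import Pool.Agent.Helper34.QJ.Pw
import Pool.Agent.Helper34.QJ.One
import Pool.Agent.Y264.QR.All

/-!
# Stress and energy in the mean: families of metrics
-/

set_option autoImplicit false
set_option linter.unusedSectionVars false

open Set Filter Topology MeasureTheory
open scoped Real ContDiff

noncomputable section

namespace Pool.Agent.Helper34.QJ

open Pool.Agent.Y262.QE Pool.Agent.Y264.QR Pool.Agent.Y708.QE

/-- the surface `D` with other orthonormal coframes -/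
def chg {M : Type} (D : Data M) (A : Fin D.N → ℂ → ℂ →L[ℝ] ℂ) : Data M where
  N := D.N
  U := D.U
  φ := D.φ
  ψ := D.ψ
  A := A

/-- a family of comparable metrics; the area of the metric at `t` is `w t μ` -/
structure Fam0 {M : Type} [TopologicalSpace M] [MeasurableSpace M] (D : Data M) (μ : Measure M)
    (A : ℝ → Fin D.N → ℂ → ℂ →L[ℝ] ℂ) (w : ℝ → M → ℝ) (C : ℝ → ℝ → ℝ) : Prop where
  surf : ∀ t, (chg D (A t)).IsSurf (wm μ (w t))
  w0 : ∀ x, w 0 x = 1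
  wp : ∀ t x, 0 < w t x
  wme : ∀ t, Measurable (w t)
  C0 : ∀ s t, 0 < C s t
  lip : ∀ s t i, ∀ z ∈ D.T i, ∀ v, ‖A s i z v‖ ≤ C s t * ‖A t i z v‖
  wl : ∀ s t x, w s x ≤ C s t ^ 2 * w t x

/-- a differentiable family of metrics; the area of the metric at `t` is `w t μ`, and `σ t` is the
logarithmic derivative of the density of the area -/
structure Fam {M : Type} [TopologicalSpace M] [MeasurableSpace M] (D : Data M) (μ : Measure M)
    (A A' : ℝ → Fin D.N → ℂ → ℂ →L[ℝ] ℂ) (w σ : ℝ → M → ℝ) (K : ℝ) : Prop where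
  base : Fam0 D μ A w fun s t => Real.exp (K * |s - t|)
  K0 : 0 ≤ K
  cont : ∀ t i, ContinuousOn (A' t i) (D.T i)
  bdd : ∀ t i, ∀ z ∈ D.T i, ∀ v, ‖A' t i z v‖ ≤ K * ‖A t i z v‖
  der : ∀ t ε : ℝ, 0 < ε → ∃ δ : ℝ, 0 < δ ∧ ∀ τ : ℝ, |τ| < δ → ∀ i, ∀ z ∈ D.T i, ∀ v,
    ‖A (t + τ) i z v - A t i z v - τ • A' t i z v‖ ≤ ε * |τ| * ‖A t i z v‖
  sm : ∀ t, Measurable (σ t)
  sb : ∀ t x, |σ t x| ≤ 2 * K
  wd : ∀ t ε : ℝ, 0 < ε → ∃ δ : ℝ, 0 < δ ∧ ∀ τ : ℝ, |τ| < δ → ∀ x,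
    |w (t + τ) x - w t x - τ * (σ t x * w t x)| ≤ ε * |τ| * w t x

section mul

variable {M : Type} [MeasurableSpace M] {μ : Measure M} {V : Type} [NormedAddCommGroup V]
  [NormedSpace ℝ V]

/-- the multiplication with a bounded field of operators -/
theorem mulop (T : M → V →L[ℝ] V) (hT : AEStronglyMeasurable T μ) (C : ℝ)
    (hC : ∀ x w, ‖T x w‖ ≤ C * ‖w‖) :
    ∃ m : Lp V 2 μ →L[ℝ] Lp V 2 μ, ∀ f : Lp V 2 μ, (m f : M → V) =ᵐ[μ] fun x => T x (f x) := by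
  have hm : ∀ f : Lp V 2 μ, MemLp (fun x => T x (f x)) 2 μ := fun f => by
    refine MemLp.of_le_mul (c := C) (Lp.memLp f)
      ((ContinuousLinearMap.id ℝ (V →L[ℝ] V)).aestronglyMeasurable_comp₂ hT
        (Lp.aestronglyMeasurable f)) (ae_of_all _ fun x => hC x _)
  let T0 : Lp V 2 μ →ₗ[ℝ] Lp V 2 μ :=
    { toFun := fun f => (hm f).toLp _
      map_add' := by
        intro f g
        apply Lp.ext
        filter_upwards [(hm (f + g)).coeFn_toLp, (hm f).coeFn_toLp, (hm g).coeFn_toLp,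
          Lp.coeFn_add f g, Lp.coeFn_add ((hm f).toLp _) ((hm g).toLp _)] with x h1 h2 h3 h4 h5
        rw [h1, h5, Pi.add_apply, h2, h3, h4, Pi.add_apply, map_add]
      map_smul' := by
        intro c f
        apply Lp.ext
        filter_upwards [(hm (c • f)).coeFn_toLp, (hm f).coeFn_toLp,
          Lp.coeFn_smul c f, Lp.coeFn_smul c ((hm f).toLp _)] with x h1 h2 h3 h4
        rw [h1, RingHom.id_apply, h4, Pi.smul_apply, h2, h3, Pi.smul_apply, map_smul] }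
  have hT0 : ∀ f : Lp V 2 μ, (T0 f : M → V) =ᵐ[μ] fun x => T x (f x) :=
    fun f => (hm f).coeFn_toLp
  have hb : ∀ f : Lp V 2 μ, ‖T0 f‖ ≤ C * ‖f‖ := by
    intro f
    apply Lp.norm_le_mul_norm_of_ae_le_mul
    filter_upwards [hT0 f] with x h1
    rw [h1]
    exact hC x _
  exact ⟨T0.mkContinuous C hb, hT0⟩

end mul

/-- the field of operators which changes the gradients -/
def rf {M : Type} (D : Data M) (A : ℝ → Fin D.N → ℂ → ℂ →L[ℝ] ℂ) (t : ℝ) (x : M) : ℂ →L[ℝ] ℂ :=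
  ∑ i, (D.pc i).indicator (fun x => rr (A 0 i (D.φ i x)) (A t i (D.φ i x))) x

/-- the operator `B ∘ A⁻¹` at the points of the surface -/
def sf {M : Type} (D : Data M) (A B : Fin D.N → ℂ → ℂ →L[ℝ] ℂ) (x : M) : ℂ →L[ℝ] ℂ :=
  ∑ i, (D.pc i).indicator (fun x => (B i (D.φ i x)).comp (A i (D.φ i x)).inverse) x

section fam

variable {M : Type} [MetricSpace M] [CompactSpace M] [MeasurableSpace M] [BorelSpace M]
  {D : Data M} {μ : Measure M} {A A' : ℝ → Fin D.N → ℂ → ℂ →L[ℝ] ℂ} {w σ : ℝ → M → ℝ} {K : ℝ}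
  {C : ℝ → ℝ → ℝ}

theorem Fam0.surf0 (h : Fam0 D μ A w C) : (chg D (A 0)).IsSurf μ := by
  have h1 := h.surf 0
  have e : wm μ (w 0) = μ := by
    unfold wm
    simp only [h.w0, ENNReal.ofReal_one]
    exact withDensity_one
  rwa [e] at h1

theorem hdA {f f' : ℝ → ℂ} (h : ∀ t ε : ℝ, 0 < ε → ∃ δ : ℝ, 0 < δ ∧ ∀ τ : ℝ, |τ| < δ →
    ‖f (t + τ) - f t - τ • f' t‖ ≤ ε * |τ| * ‖f t‖) (t : ℝ) : HasDerivAt f (f' t) t := by
  rw [hasDerivAt_iff_isLittleO_nhds_zero]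
  rw [Asymptotics.isLittleO_iff]
  intro c hc
  obtain ⟨δ, hδ, h1⟩ := h t (c / (‖f t‖ + 1)) (by positivity)
  filter_upwards [Metric.ball_mem_nhds (0 : ℝ) hδ] with τ hτ
  have h2 : |τ| < δ := by
    rwa [Metric.mem_ball, dist_zero_right, Real.norm_eq_abs] at hτ
  refine (h1 τ h2).trans ?_
  rw [Real.norm_eq_abs]
  have h3 : c / (‖f t‖ + 1) * ‖f t‖ ≤ c := by
    rw [div_mul_eq_mul_div, div_le_iff₀ (by positivity)]
    nlinarith [norm_nonneg (f t)]
  calc c / (‖f t‖ + 1) * |τ| * ‖f t‖ = (c / (‖f t‖ + 1) * ‖f t‖) * |τ| := by ring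
    _ ≤ c * |τ| := mul_le_mul_of_nonneg_right h3 (abs_nonneg _)

theorem gron {f f' : ℝ → ℂ} {K : ℝ} (hf : ∀ t, HasDerivAt f (f' t) t)
    (hb : ∀ t, ‖f' t‖ ≤ K * ‖f t‖) {s t : ℝ} (hst : s ≤ t) :
    ‖f t‖ ≤ Real.exp (K * (t - s)) * ‖f s‖ := by
  have h1 := norm_le_gronwallBound_of_norm_deriv_right_le (f := f) (f' := f') (δ := ‖f s‖) (K := K)
    (ε := 0) (a := s) (b := t) (fun x _ => (hf x).continuousAt.continuousWithinAt)
    (fun x _ => (hf x).hasDerivWithinAt) le_rfl (fun x _ => by rw [add_zero]; exact hb x)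
    t ⟨hst, le_rfl⟩
  rw [gronwallBound_ε0] at h1
  rw [mul_comm]
  exact h1

theorem gron' {f f' : ℝ → ℂ} {K : ℝ} (hf : ∀ t, HasDerivAt f (f' t) t)
    (hb : ∀ t, ‖f' t‖ ≤ K * ‖f t‖) (s t : ℝ) :
    ‖f s‖ ≤ Real.exp (K * |s - t|) * ‖f t‖ := by
  rcases le_total t s with hts | hts
  · rw [abs_of_nonneg (sub_nonneg.2 hts)]
    exact gron hf hb hts
  · rw [abs_of_nonpos (sub_nonpos.2 hts)]
    have h1 : ∀ x : ℝ, HasDerivAt (fun y : ℝ => f (-y)) (-(f' (-x))) x := by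
      intro x
      have h2 := (hf (-x)).scomp x (hasDerivAt_neg x)
      rw [neg_one_smul] at h2
      exact h2
    have h2 := gron h1 (K := K) (fun x => by
      rw [norm_neg]
      exact hb (-x)) (neg_le_neg hts)
    simp only [neg_neg] at h2
    have e : K * (-s - -t) = K * -(s - t) := by ring
    rwa [e] at h2

omit [MetricSpace M] [CompactSpace M] [MeasurableSpace M] [BorelSpace M] in
theorem sum_pc {E : Type} [AddCommMonoid E] (g : Fin D.N → M → E) {i : Fin D.N} {x : M}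
    (hi : x ∈ D.pc i) : ∑ j, (D.pc j).indicator (g j) x = g i x := by
  rw [Finset.sum_eq_single i]
  · exact Set.indicator_of_mem hi _
  · intro j _ hj
    exact Set.indicator_of_notMem (fun h => hj (pc_disj h hi)) _
  · intro h
    exact absurd (Finset.mem_univ i) h

theorem Fam0.pc (h : Fam0 D μ A w C) (x : M) : ∃ i, x ∈ D.pc i ∧ D.φ i x ∈ D.T i := by
  obtain ⟨i, hi⟩ := pc_ex h.surf0 x
  exact ⟨i, hi, ⟨x, hi.1, rfl⟩⟩

theorem meas_field {E : Type} [NormedAddCommGroup E] (hD : ∀ i, IsOpen (D.U i))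
    (g : Fin D.N → M → E) [SecondCountableTopology E]
    (hg : ∀ i, ContinuousOn (g i) (D.U i)) :
    AEStronglyMeasurable (fun x => ∑ i, (D.pc i).indicator (g i) x) μ := by
  have hm : ∀ i, MeasurableSet (D.pc i) := fun i =>
    (hD i).measurableSet.diff (MeasurableSet.iUnion fun k => (hD k.1).measurableSet)
  refine Finset.aestronglyMeasurable_fun_sum _ fun i _ => ?_
  rw [aestronglyMeasurable_indicator_iff (hm i)]
  exact ((hg i).mono fun x hx => hx.1).aestronglyMeasurable (hm i)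

theorem Fam0.rf_meas (h : Fam0 D μ A w C) (t : ℝ) : AEStronglyMeasurable (rf D A t) μ := by
  refine meas_field h.surf0.openU _ fun i => ?_
  have hm : MapsTo (D.φ i) (D.U i) (D.T i) := fun x hx => ⟨x, hx, rfl⟩
  exact rr_cont ((h.surf0.contA i).comp (h.surf0.contφ i) hm)
    (((h.surf t).contA i).comp (h.surf0.contφ i) hm) fun x hx => (h.surf t).det i _ (hm hx)

theorem Fam.sf_meas (h : Fam D μ A A' w σ K) (t : ℝ) :
    AEStronglyMeasurable (sf D (A t) (A' t)) μ := by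
  refine meas_field h.base.surf0.openU _ fun i => ?_
  have hm : MapsTo (D.φ i) (D.U i) (D.T i) := fun x hx => ⟨x, hx, rfl⟩
  exact ((h.cont t i).comp (h.base.surf0.contφ i) hm).clm_comp
    (inv_cont (((h.base.surf t).contA i).comp (h.base.surf0.contφ i) hm)
      fun x hx => (h.base.surf t).det i _ (hm hx))

theorem Fam.sf_le (h : Fam D μ A A' w σ K) (t : ℝ) (x : M) (v : ℂ) :
    ‖sf D (A t) (A' t) x v‖ ≤ K * ‖v‖ := by
  obtain ⟨i, hi, hz⟩ := h.base.pc x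
  rw [sf, sum_pc _ hi]
  have h1 := h.bdd t i _ hz ((A t i (D.φ i x)).inverse v)
  have h2 : A t i (D.φ i x) ((A t i (D.φ i x)).inverse v) = v :=
    inv_apply ((h.base.surf t).det i _ hz) v
  rwa [h2] at h1

theorem Fam0.rf_le (h : Fam0 D μ A w C) (s t : ℝ) (x : M) (g : ℂ) :
    ‖rf D A s x g‖ ≤ C t s * ‖rf D A t x g‖ := by
  obtain ⟨i, hi, hz⟩ := h.pc x
  rw [rf, rf, sum_pc _ hi, sum_pc _ hi, rr_eq, rr_eq]
  exact grd_le ((h.surf t).det i _ hz) ((h.surf s).det i _ hz) (fun v => h.lip t s i _ hz v) _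

theorem Fam0.rf_zero (h : Fam0 D μ A w C) (x : M) (g : ℂ) : rf D A 0 x g = g := by
  obtain ⟨i, hi, hz⟩ := h.pc x
  rw [rf, sum_pc _ hi, rr_eq]
  exact grd_self ((h.surf 0).det i _ hz) g

theorem Fam0.rf_gr (h : Fam0 D μ A w C) (t : ℝ) (F : M → ℝ) (x : M) :
    rf D A t x ((chg D (A 0)).gr F x) = (chg D (A t)).gr F x := by
  obtain ⟨i, hi, hz⟩ := h.pc x
  have e0 : (chg D (A 0)).gr F x = grd (A 0 i (D.φ i x)) (D.dc i F x) := gr_eq (D := chg D (A 0)) hi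
  have e1 : (chg D (A t)).gr F x = grd (A t i (D.φ i x)) (D.dc i F x) := gr_eq (D := chg D (A t)) hi
  rw [e0, e1, rf, sum_pc _ hi]
  exact rr_grd ((h.surf 0).det i _ hz) _ _

theorem Fam0.sq_le (h : Fam0 D μ A w C) (s t : ℝ) (x : M) :
    Real.sqrt (w s x) ≤ C s t * Real.sqrt (w t x) := by
  have h1 := Real.sqrt_le_sqrt (h.wl s t x)
  rwa [Real.sqrt_mul (sq_nonneg _), Real.sqrt_sq (h.C0 s t).le] at h1

theorem Fam0.sq_one (h : Fam0 D μ A w C) (t : ℝ) (x : M) : Real.sqrt (w t x) ≤ C t 0 := by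
  have h1 := h.sq_le t 0 x
  rwa [h.w0, Real.sqrt_one, mul_one] at h1

theorem Fam.rf_der (h : Fam D μ A A' w σ K) (t : ℝ) {ε : ℝ} (hε : 0 < ε) :
    ∃ δ : ℝ, 0 < δ ∧ ∀ τ : ℝ, |τ| < δ → ∀ x g,
      |‖rf D A (t + τ) x g‖ ^ 2 - ‖rf D A t x g‖ ^ 2 +
        2 * τ * inner ℝ (rf D A t x g) (sf D (A t) (A' t) x (rf D A t x g))| ≤
        ε * |τ| * ‖rf D A t x g‖ ^ 2 := by
  obtain ⟨η, δ, hη, hδ, h1⟩ := grd_der' h.K0 hε
  obtain ⟨δ', hδ', h2⟩ := h.der t η hη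
  refine ⟨min δ δ', lt_min hδ hδ', fun τ hτ x g => ?_⟩
  obtain ⟨i, hi, hz⟩ := h.base.pc x
  rw [rf, rf, sf, sum_pc _ hi, sum_pc _ hi, sum_pc _ hi, rr_eq, rr_eq]
  exact h1 τ (lt_of_lt_of_le hτ (min_le_left _ _)) ((h.base.surf t).det i _ hz)
    ((h.base.surf (t + τ)).det i _ hz) (fun v => h.bdd t i _ hz v)
    (fun v => h2 τ (lt_of_lt_of_le hτ (min_le_right _ _)) i _ hz v) _

/-! ### Fields with the density of the area -/

/-- the product rule for the field with the density -/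
theorem prod_der {K ε T p q c w w' s τ : ℝ} (hT : |τ| = T) (hK : 0 ≤ K) (hε : 0 ≤ ε) (hw : 0 ≤ w)
    (hq : 0 ≤ q) (hc : |c| ≤ 2 * K * q) (hs : |s| ≤ 2 * K) (h1 : |p - q + τ * c| ≤ ε * T * q)
    (h2 : |w' - w - τ * (s * w)| ≤ ε * T * w) (hT1 : (2 * K + ε) * T ≤ 1) :
    |w' * p - w * q + τ * (w * c - s * w * q)| ≤ (4 * ε + 4 * K ^ 2 * T) * T * (w * q) := by
  have hT0 : 0 ≤ T := by rw [← hT]; exact abs_nonneg _
  have e1 : w' * p - w * q + τ * (w * c - s * w * q) =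
      (w' - w - τ * (s * w)) * p + (w * (1 + τ * s)) * (p - q + τ * c) -
        τ * τ * (s * w * c) := by ring
  have hτc : |τ * c| ≤ 2 * K * T * q := by
    rw [abs_mul, hT]
    nlinarith
  have hp : |p| ≤ 2 * q := by
    have e2 : p = q + (p - q + τ * c) - τ * c := by ring
    have h3 : |p| ≤ |q| + |p - q + τ * c| + |τ * c| := by
      calc |p| = |q + (p - q + τ * c) - τ * c| := by rw [← e2]
        _ ≤ |q + (p - q + τ * c)| + |τ * c| := abs_sub _ _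
        _ ≤ _ := by
          have := abs_add_le q (p - q + τ * c)
          linarith
    rw [abs_of_nonneg hq] at h3
    have h4 : (2 * K + ε) * T * q ≤ 1 * q := mul_le_mul_of_nonneg_right hT1 hq
    linarith
  have b1 : |(w' - w - τ * (s * w)) * p| ≤ (ε * T * w) * (2 * q) := by
    rw [abs_mul]
    exact mul_le_mul h2 hp (abs_nonneg _) (by positivity)
  have hts : |τ * s| ≤ 1 := by
    rw [abs_mul, hT]
    have : T * |s| ≤ T * (2 * K) := mul_le_mul_of_nonneg_left hs hT0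
    nlinarith [mul_nonneg hε hT0]
  have b2 : |(w * (1 + τ * s)) * (p - q + τ * c)| ≤ (w * 2) * (ε * T * q) := by
    rw [abs_mul, abs_mul, abs_of_nonneg hw]
    refine mul_le_mul (mul_le_mul_of_nonneg_left ?_ hw) h1 (abs_nonneg _) (by positivity)
    refine (abs_add_le _ _).trans ?_
    rw [abs_one]
    linarith
  have b3 : |τ * τ * (s * w * c)| ≤ T * T * (2 * K * w * (2 * K * q)) := by
    rw [abs_mul, abs_mul, hT, abs_mul, abs_mul, abs_of_nonneg hw]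
    refine mul_le_mul_of_nonneg_left ?_ (by positivity)
    exact mul_le_mul (mul_le_mul_of_nonneg_right hs hw) hc (abs_nonneg _) (by positivity)
  rw [e1]
  have b4 := abs_sub ((w' - w - τ * (s * w)) * p + (w * (1 + τ * s)) * (p - q + τ * c))
    (τ * τ * (s * w * c))
  have b5 := abs_add_le ((w' - w - τ * (s * w)) * p) ((w * (1 + τ * s)) * (p - q + τ * c))
  have e2 : (4 * ε + 4 * K ^ 2 * T) * T * (w * q) = (ε * T * w) * (2 * q) + (w * 2) * (ε * T * q) +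
      T * T * (2 * K * w * (2 * K * q)) := by ring
  rw [e2]
  linarith

theorem Fam.wrf_der (h : Fam D μ A A' w σ K) (t : ℝ) {ε : ℝ} (hε : 0 < ε) :
    ∃ δ : ℝ, 0 < δ ∧ ∀ τ : ℝ, |τ| < δ → ∀ x g,
      |w (t + τ) x * ‖rf D A (t + τ) x g‖ ^ 2 - w t x * ‖rf D A t x g‖ ^ 2 +
        τ * (w t x * (2 * inner ℝ (rf D A t x g) (sf D (A t) (A' t) x (rf D A t x g))) -
          σ t x * w t x * ‖rf D A t x g‖ ^ 2)| ≤
        ε * |τ| * (w t x * ‖rf D A t x g‖ ^ 2) := by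
  have hK := h.K0
  obtain ⟨δ1, hδ1, h1⟩ := h.rf_der t (ε := ε / 8) (by positivity)
  obtain ⟨δ2, hδ2, h2⟩ := h.wd t (ε / 8) (by positivity)
  refine ⟨min (min δ1 δ2) (min (1 / (2 * K + ε / 8)) (ε / (8 * K ^ 2 + 1))), by positivity,
    fun τ hτ x g => ?_⟩
  have ht := abs_nonneg τ
  have a1 := h1 τ (lt_of_lt_of_le hτ ((min_le_left _ _).trans (min_le_left _ _))) x g
  have a2 := h2 τ (lt_of_lt_of_le hτ ((min_le_left _ _).trans (min_le_right _ _))) x
  have a3 := (lt_of_lt_of_le hτ ((min_le_right _ _).trans (min_le_left _ _))).le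
  have a4 := (lt_of_lt_of_le hτ ((min_le_right _ _).trans (min_le_right _ _))).le
  rw [le_div_iff₀ (by positivity)] at a3 a4
  have e1 : 2 * τ * inner ℝ (rf D A t x g) (sf D (A t) (A' t) x (rf D A t x g)) =
      τ * (2 * inner ℝ (rf D A t x g) (sf D (A t) (A' t) x (rf D A t x g))) := by ring
  rw [e1] at a1
  have hc : |2 * inner ℝ (rf D A t x g) (sf D (A t) (A' t) x (rf D A t x g))| ≤
      2 * K * ‖rf D A t x g‖ ^ 2 := by
    rw [abs_mul, abs_of_pos (by norm_num : (0 : ℝ) < 2), mul_assoc]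
    refine mul_le_mul_of_nonneg_left ?_ (by norm_num)
    refine (abs_real_inner_le_norm _ _).trans ?_
    calc _ ≤ ‖rf D A t x g‖ * (K * ‖rf D A t x g‖) :=
          mul_le_mul_of_nonneg_left (h.sf_le t x _) (norm_nonneg _)
      _ = _ := by ring
  have key := prod_der (τ := τ) rfl hK (by positivity : 0 ≤ ε / 8) (h.base.wp t x).le (sq_nonneg _) hc
    (h.sb t x) a1 a2 (by linarith)
  refine key.trans ?_
  refine mul_le_mul_of_nonneg_right (mul_le_mul_of_nonneg_right ?_ ht)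
    (mul_nonneg (h.base.wp t x).le (sq_nonneg _))
  nlinarith

end fam

end Pool.Agent.Helper34.QJ
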