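import Pool.Agent.Helper34.QJ.Fam

/-!
# Stress and energy in the mean: the forms of a family of metrics
-/

set_option autoImplicit false
set_option linter.unusedSectionVars false

open Set Filter Topology MeasureTheory
open scoped Real ContDiff

noncomputable section

namespace Pool.Agent.Helper34.QJ

open Pool.Agent.Y262.QE Pool.Agent.Y264.QR Pool.Agent.Y708.QE

variable {M : Type} [MetricSpace M] [CompactSpace M] [MeasurableSpace M] [BorelSpace M]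
  {D : Data M} {μ : Measure M} {A A' : ℝ → Fin D.N → ℂ → ℂ →L[ℝ] ℂ} {w σ : ℝ → M → ℝ} {K : ℝ}
  {C : ℝ → ℝ → ℝ}

/-- the gradient and the inclusion in `L²` -/
structure OpG (D : Data M) (μ : Measure M) (A : ℝ → Fin D.N → ℂ → ℂ →L[ℝ] ℂ) (w : ℝ → M → ℝ)
    (G : ℝ → HF (chg D (A 0)) μ →L[ℝ] Lp ℂ 2 μ)
    (I : ℝ → HF (chg D (A 0)) μ →L[ℝ] Lp ℝ 2 μ) : Prop where
  hG : ∀ t (v : HF (chg D (A 0)) μ), (G t v : M → ℂ) =ᵐ[μ]
    fun x => Real.sqrt (w t x) • rf D A t x (v.1.snd x)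
  hI : ∀ t (v : HF (chg D (A 0)) μ), (I t v : M → ℝ) =ᵐ[μ]
    fun x => Real.sqrt (w t x) * v.1.fst x

/-- the multiplications with the strain and with the derivative of the area -/
structure OpS (D : Data M) (μ : Measure M) (A A' : ℝ → Fin D.N → ℂ → ℂ →L[ℝ] ℂ) (σ : ℝ → M → ℝ)
    (S : ℝ → Lp ℂ 2 μ →L[ℝ] Lp ℂ 2 μ) (N : ℝ → Lp ℝ 2 μ →L[ℝ] Lp ℝ 2 μ) : Prop where
  hS : ∀ t (f : Lp ℂ 2 μ), (S t f : M → ℂ) =ᵐ[μ]
    fun x => sf D (A t) (A' t) x (f x) - (σ t x / 2) • f x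
  hN : ∀ t (f : Lp ℝ 2 μ), (N t f : M → ℝ) =ᵐ[μ] fun x => σ t x * f x

theorem Fam0.ops (h : Fam0 D μ A w C) : ∃ G I, OpG D μ A w G I := by
  have h1 : ∀ t, ∃ m : Lp ℂ 2 μ →L[ℝ] Lp ℂ 2 μ, ∀ f : Lp ℂ 2 μ,
      (m f : M → ℂ) =ᵐ[μ] fun x => (Real.sqrt (w t x) • rf D A t x) (f x) := fun t =>
    mulop _ ((h.wme t).sqrt.aestronglyMeasurable.smul (h.rf_meas t))
      (C t 0 * C 0 t) fun x v => by
      have h2 := h.rf_le t 0 x v
      rw [h.rf_zero] at h2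
      show ‖Real.sqrt (w t x) • rf D A t x v‖ ≤ _
      rw [norm_smul, Real.norm_eq_abs, abs_of_nonneg (Real.sqrt_nonneg _), mul_assoc]
      exact mul_le_mul (h.sq_one t x) h2 (norm_nonneg _) (h.C0 _ _).le
  have h3 : ∀ t, ∃ m : Lp ℝ 2 μ →L[ℝ] Lp ℝ 2 μ, ∀ f : Lp ℝ 2 μ,
      (m f : M → ℝ) =ᵐ[μ] fun x => (Real.sqrt (w t x) • ContinuousLinearMap.id ℝ ℝ) (f x) :=
    fun t => mulop _ ((h.wme t).sqrt.aestronglyMeasurable.smul aestronglyMeasurable_const)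
      (C t 0) fun x v => by
      show ‖Real.sqrt (w t x) • v‖ ≤ _
      rw [norm_smul, Real.norm_eq_abs, abs_of_nonneg (Real.sqrt_nonneg _)]
      exact mul_le_mul_of_nonneg_right (h.sq_one t x) (norm_nonneg _)
  choose R hR using h1
  choose J hJ using h3
  exact ⟨fun t => (R t).comp (gg (chg D (A 0)) μ), fun t => (J t).comp (ii (chg D (A 0)) μ),
    ⟨fun t v => hR t _, fun t v => hJ t _⟩⟩

theorem Fam.opS (h : Fam D μ A A' w σ K) : ∃ S N, OpS D μ A A' σ S N := by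
  have h2 : ∀ t, ∃ m : Lp ℂ 2 μ →L[ℝ] Lp ℂ 2 μ, ∀ f : Lp ℂ 2 μ,
      (m f : M → ℂ) =ᵐ[μ] fun x => (sf D (A t) (A' t) x -
        (σ t x / 2) • ContinuousLinearMap.id ℝ ℂ) (f x) := fun t =>
    mulop _ ((h.sf_meas t).sub (((h.sm t).div_const 2).aestronglyMeasurable.smul
      aestronglyMeasurable_const)) (2 * K) fun x v => by
      show ‖sf D (A t) (A' t) x v - (σ t x / 2) • v‖ ≤ _
      refine (norm_sub_le _ _).trans ?_
      rw [norm_smul, Real.norm_eq_abs, abs_div, abs_of_pos (by norm_num : (0 : ℝ) < 2)]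
      have h3 : |σ t x| / 2 * ‖v‖ ≤ K * ‖v‖ :=
        mul_le_mul_of_nonneg_right (by linarith [h.sb t x]) (norm_nonneg _)
      have h4 := h.sf_le t x v
      linarith
  have h4 : ∀ t, ∃ m : Lp ℝ 2 μ →L[ℝ] Lp ℝ 2 μ, ∀ f : Lp ℝ 2 μ,
      (m f : M → ℝ) =ᵐ[μ] fun x => (σ t x • ContinuousLinearMap.id ℝ ℝ) (f x) :=
    fun t => mulop _ ((h.sm t).aestronglyMeasurable.smul aestronglyMeasurable_const)
      (2 * K) fun x v => by
      show ‖σ t x • v‖ ≤ _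
      rw [norm_smul, Real.norm_eq_abs]
      exact mul_le_mul_of_nonneg_right (h.sb t x) (norm_nonneg _)
  choose S hS using h2
  choose N hN using h4
  exact ⟨S, N, ⟨hS, hN⟩⟩

section

variable {G : ℝ → HF (chg D (A 0)) μ →L[ℝ] Lp ℂ 2 μ} {S : ℝ → Lp ℂ 2 μ →L[ℝ] Lp ℂ 2 μ}
  {I : ℝ → HF (chg D (A 0)) μ →L[ℝ] Lp ℝ 2 μ} {N : ℝ → Lp ℝ 2 μ →L[ℝ] Lp ℝ 2 μ}

/-- the Dirichlet form of the metric at `t` -/
def fa (G : ℝ → HF (chg D (A 0)) μ →L[ℝ] Lp ℂ 2 μ) (t : ℝ) :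
    HF (chg D (A 0)) μ →L[ℝ] HF (chg D (A 0)) μ →L[ℝ] ℝ :=
  (innerSL ℝ (E := Lp ℂ 2 μ)).bilinearComp (G t) (G t)

/-- its derivative -/
def fka (G : ℝ → HF (chg D (A 0)) μ →L[ℝ] Lp ℂ 2 μ) (S : ℝ → Lp ℂ 2 μ →L[ℝ] Lp ℂ 2 μ) (t : ℝ) :
    HF (chg D (A 0)) μ →L[ℝ] HF (chg D (A 0)) μ →L[ℝ] ℝ :=
  -((innerSL ℝ (E := Lp ℂ 2 μ)).bilinearComp (G t) ((S t).comp (G t)) +
    (innerSL ℝ (E := Lp ℂ 2 μ)).bilinearComp ((S t).comp (G t)) (G t))

/-- the inner product of the metric at `t` -/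
def fb (I : ℝ → HF (chg D (A 0)) μ →L[ℝ] Lp ℝ 2 μ) (t : ℝ) :
    HF (chg D (A 0)) μ →L[ℝ] HF (chg D (A 0)) μ →L[ℝ] ℝ :=
  (innerSL ℝ (E := Lp ℝ 2 μ)).bilinearComp (I t) (I t)

/-- its derivative -/
def fkb (I : ℝ → HF (chg D (A 0)) μ →L[ℝ] Lp ℝ 2 μ) (N : ℝ → Lp ℝ 2 μ →L[ℝ] Lp ℝ 2 μ) (t : ℝ) :
    HF (chg D (A 0)) μ →L[ℝ] HF (chg D (A 0)) μ →L[ℝ] ℝ :=
  (1 / 2 : ℝ) • ((innerSL ℝ (E := Lp ℝ 2 μ)).bilinearComp (I t) ((N t).comp (I t)) +
    (innerSL ℝ (E := Lp ℝ 2 μ)).bilinearComp ((N t).comp (I t)) (I t))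

theorem fa_apply (t : ℝ) (u v : HF (chg D (A 0)) μ) : fa G t u v = inner ℝ (G t u) (G t v) := rfl

theorem fb_apply (t : ℝ) (u v : HF (chg D (A 0)) μ) : fb I t u v = inner ℝ (I t u) (I t v) := rfl

theorem fka_apply (t : ℝ) (u v : HF (chg D (A 0)) μ) :
    fka G S t u v = -(inner ℝ (G t u) (S t (G t v)) + inner ℝ (S t (G t u)) (G t v)) := rfl

theorem fkb_apply (t : ℝ) (u v : HF (chg D (A 0)) μ) :
    fkb I N t u v = (1 / 2 : ℝ) * (inner ℝ (I t u) (N t (I t v)) + inner ℝ (N t (I t u)) (I t v)) :=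
  rfl

theorem fka_self (t : ℝ) (v : HF (chg D (A 0)) μ) :
    fka G S t v v = -(2 * inner ℝ (G t v) (S t (G t v))) := by
  rw [fka_apply, real_inner_comm (G t v) (S t (G t v))]
  ring

theorem fkb_self (t : ℝ) (v : HF (chg D (A 0)) μ) :
    fkb I N t v v = inner ℝ (I t v) (N t (I t v)) := by
  rw [fkb_apply, real_inner_comm (I t v) (N t (I t v))]
  ring

theorem fka_symm (t : ℝ) (u v : HF (chg D (A 0)) μ) : fka G S t u v = fka G S t v u := by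
  rw [fka_apply, fka_apply, real_inner_comm (G t u), real_inner_comm (S t (G t u)),
    add_comm]

theorem fkb_symm (t : ℝ) (u v : HF (chg D (A 0)) μ) : fkb I N t u v = fkb I N t v u := by
  rw [fkb_apply, fkb_apply, real_inner_comm (I t u), real_inner_comm (N t (I t u)),
    add_comm]

theorem fa_self (t : ℝ) (v : HF (chg D (A 0)) μ) : fa G t v v = ‖G t v‖ ^ 2 := by
  rw [fa_apply, real_inner_self_eq_norm_sq]

theorem fb_self (t : ℝ) (v : HF (chg D (A 0)) μ) : fb I t v v = ‖I t v‖ ^ 2 := by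
  rw [fb_apply, real_inner_self_eq_norm_sq]

theorem G_zero (h : Fam0 D μ A w C) (hO : OpG D μ A w G I)
    (v : HF (chg D (A 0)) μ) : G 0 v = v.1.snd := by
  apply Lp.ext
  filter_upwards [hO.hG 0 v] with x hx
  rw [hx, h.rf_zero, h.w0, Real.sqrt_one, one_smul]

theorem I_zero (h : Fam0 D μ A w C) (hO : OpG D μ A w G I)
    (v : HF (chg D (A 0)) μ) : I 0 v = v.1.fst := by
  apply Lp.ext
  filter_upwards [hO.hI 0 v] with x hx
  rw [hx, h.w0, Real.sqrt_one, one_mul]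

theorem G_le (h : Fam0 D μ A w C) (hO : OpG D μ A w G I) (s t : ℝ)
    (v : HF (chg D (A 0)) μ) : ‖G s v‖ ≤ (C s t * C t s) * ‖G t v‖ := by
  apply Lp.norm_le_mul_norm_of_ae_le_mul
  filter_upwards [hO.hG s v, hO.hG t v] with x h1 h2
  rw [h1, h2, norm_smul, norm_smul, Real.norm_eq_abs, Real.norm_eq_abs,
    abs_of_nonneg (Real.sqrt_nonneg _), abs_of_nonneg (Real.sqrt_nonneg _)]
  have h3 := mul_le_mul (h.sq_le s t x) (h.rf_le s t x (v.1.snd x)) (norm_nonneg _)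
    (mul_nonneg (h.C0 _ _).le (Real.sqrt_nonneg _))
  refine h3.trans (le_of_eq ?_)
  ring

theorem I_le (h : Fam0 D μ A w C) (hO : OpG D μ A w G I) (s t : ℝ)
    (v : HF (chg D (A 0)) μ) : ‖I s v‖ ≤ C s t * ‖I t v‖ := by
  apply Lp.norm_le_mul_norm_of_ae_le_mul
  filter_upwards [hO.hI s v, hO.hI t v] with x h1 h2
  rw [h1, h2, norm_mul, norm_mul, Real.norm_of_nonneg (Real.sqrt_nonneg (w s x)),
    Real.norm_of_nonneg (Real.sqrt_nonneg (w t x)), ← mul_assoc]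
  exact mul_le_mul_of_nonneg_right (h.sq_le s t x) (norm_nonneg _)

theorem fa_le (h : Fam0 D μ A w C) (hO : OpG D μ A w G I) (s t : ℝ)
    (v : HF (chg D (A 0)) μ) : fa G s v v ≤ (C s t * C t s) ^ 2 * fa G t v v := by
  rw [fa_self, fa_self]
  have h1 := pow_le_pow_left₀ (norm_nonneg _) (G_le h hO s t v) 2
  rwa [mul_pow] at h1

theorem fb_le (h : Fam0 D μ A w C) (hO : OpG D μ A w G I) (s t : ℝ)
    (v : HF (chg D (A 0)) μ) : fb I s v v ≤ C s t ^ 2 * fb I t v v := by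
  rw [fb_self, fb_self]
  have h1 := pow_le_pow_left₀ (norm_nonneg _) (I_le h hO s t v) 2
  rwa [mul_pow] at h1

theorem S_le (h : Fam D μ A A' w σ K) (hO : OpS D μ A A' σ S N) (t : ℝ)
    (f : Lp ℂ 2 μ) : ‖S t f‖ ≤ 2 * K * ‖f‖ := by
  apply Lp.norm_le_mul_norm_of_ae_le_mul
  filter_upwards [hO.hS t f] with x h1
  rw [h1]
  refine (norm_sub_le _ _).trans ?_
  rw [norm_smul, Real.norm_eq_abs, abs_div, abs_of_pos (by norm_num : (0 : ℝ) < 2)]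
  have h3 : |σ t x| / 2 * ‖f x‖ ≤ K * ‖f x‖ :=
    mul_le_mul_of_nonneg_right (by linarith [h.sb t x]) (norm_nonneg _)
  have h4 := h.sf_le t x (f x)
  linarith

theorem N_le (h : Fam D μ A A' w σ K) (hO : OpS D μ A A' σ S N) (t : ℝ)
    (f : Lp ℝ 2 μ) : ‖N t f‖ ≤ 2 * K * ‖f‖ := by
  apply Lp.norm_le_mul_norm_of_ae_le_mul
  filter_upwards [hO.hN t f] with x h1
  rw [h1, norm_mul, Real.norm_eq_abs]
  exact mul_le_mul_of_nonneg_right (h.sb t x) (norm_nonneg _)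

theorem fka_le (h : Fam D μ A A' w σ K) (hO : OpS D μ A A' σ S N) (t : ℝ)
    (v : HF (chg D (A 0)) μ) : |fka G S t v v| ≤ 4 * K * fa G t v v := by
  rw [fka_self, fa_self, abs_neg, abs_mul, abs_of_pos (by norm_num : (0 : ℝ) < 2)]
  have h1 : |inner ℝ (G t v) (S t (G t v))| ≤ 2 * K * ‖G t v‖ ^ 2 := by
    refine (abs_real_inner_le_norm _ _).trans ?_
    calc ‖G t v‖ * ‖S t (G t v)‖ ≤ ‖G t v‖ * (2 * K * ‖G t v‖) :=
          mul_le_mul_of_nonneg_left (S_le h hO t _) (norm_nonneg _)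
      _ = 2 * K * ‖G t v‖ ^ 2 := by ring
  linarith

theorem fkb_le (h : Fam D μ A A' w σ K) (hO : OpS D μ A A' σ S N) (t : ℝ)
    (v : HF (chg D (A 0)) μ) : |fkb I N t v v| ≤ 4 * K * fb I t v v := by
  rw [fkb_self, fb_self]
  have hK := h.K0
  refine (abs_real_inner_le_norm _ _).trans ?_
  calc ‖I t v‖ * ‖N t (I t v)‖ ≤ ‖I t v‖ * (2 * K * ‖I t v‖) :=
        mul_le_mul_of_nonneg_left (N_le h hO t _) (norm_nonneg _)
    _ = 2 * K * ‖I t v‖ ^ 2 := by ring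
    _ ≤ _ := mul_le_mul_of_nonneg_right (by linarith) (sq_nonneg _)

theorem fa_der (h : Fam D μ A A' w σ K) (hO : OpG D μ A w G I) (hS : OpS D μ A A' σ S N) (t : ℝ)
    {ε : ℝ} (hε : 0 < ε) : ∃ δ : ℝ, 0 < δ ∧ ∀ τ : ℝ, |τ| < δ → ∀ v : HF (chg D (A 0)) μ,
      fa G (t + τ) v v ≤ fa G t v v + τ * fka G S t v v + ε * |τ| * fa G t v v := by
  obtain ⟨δ, hδ, h1⟩ := h.wrf_der t hε
  refine ⟨δ, hδ, fun τ hτ v => ?_⟩
  rw [fka_self, fa_apply, fa_apply]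
  have e1 : inner ℝ (G t v) (G t v) + τ * -(2 * inner ℝ (G t v) (S t (G t v))) +
      ε * |τ| * inner ℝ (G t v) (G t v) =
      ∫ x, ((1 + ε * |τ|) * inner ℝ (G t v x) (G t v x) -
        2 * τ * inner ℝ (G t v x) (S t (G t v) x)) ∂μ := by
    rw [integral_sub ((L2.integrable_inner (𝕜 := ℝ) _ _).const_mul _)
      ((L2.integrable_inner (𝕜 := ℝ) _ _).const_mul _), integral_const_mul, integral_const_mul,
      ← L2.inner_def, ← L2.inner_def]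
    ring
  rw [e1, L2.inner_def]
  refine integral_mono_ae (L2.integrable_inner (𝕜 := ℝ) _ _)
    (((L2.integrable_inner (𝕜 := ℝ) _ _).const_mul _).sub
      ((L2.integrable_inner (𝕜 := ℝ) _ _).const_mul _)) ?_
  filter_upwards [hO.hG t v, hO.hG (t + τ) v, hS.hS t (G t v)] with x h2 h3 h4
  rw [h4, h3, h2]
  have h5 := (abs_le.1 (h1 τ hτ x (v.1.snd x))).2
  have hw := (h.base.wp t x).le
  have hw' := (h.base.wp (t + τ) x).le
  have e2 : ∀ (r : ℝ) (a b : ℂ), 0 ≤ r → inner ℝ (Real.sqrt r • a) (Real.sqrt r • b) =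
      r * inner ℝ a b := by
    intro r a b hr
    rw [real_inner_smul_left, real_inner_smul_right, ← mul_assoc, Real.mul_self_sqrt hr]
  have e3 : sf D (A t) (A' t) x (Real.sqrt (w t x) • rf D A t x (v.1.snd x)) -
      (σ t x / 2) • Real.sqrt (w t x) • rf D A t x (v.1.snd x) =
      Real.sqrt (w t x) • (sf D (A t) (A' t) x (rf D A t x (v.1.snd x)) -
        (σ t x / 2) • rf D A t x (v.1.snd x)) := by
    rw [map_smul, smul_sub, smul_comm (σ t x / 2)]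
  rw [e3, e2 _ _ _ hw, e2 _ _ _ hw', e2 _ _ _ hw, inner_sub_right, real_inner_smul_right,
    real_inner_self_eq_norm_sq, real_inner_self_eq_norm_sq]
  nlinarith [h5]

theorem fb_der (h : Fam D μ A A' w σ K) (hO : OpG D μ A w G I) (hS : OpS D μ A A' σ S N) (t : ℝ)
    {ε : ℝ} (hε : 0 < ε) : ∃ δ : ℝ, 0 < δ ∧ ∀ τ : ℝ, |τ| < δ → ∀ v : HF (chg D (A 0)) μ,
      fb I t v v + τ * fkb I N t v v - ε * |τ| * fb I t v v ≤ fb I (t + τ) v v := by
  obtain ⟨δ, hδ, h1⟩ := h.wd t ε hε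
  refine ⟨δ, hδ, fun τ hτ v => ?_⟩
  rw [fkb_self, fb_apply, fb_apply]
  have e1 : inner ℝ (I t v) (I t v) + τ * inner ℝ (I t v) (N t (I t v)) -
      ε * |τ| * inner ℝ (I t v) (I t v) =
      ∫ x, ((1 - ε * |τ|) * inner ℝ (I t v x) (I t v x) +
        τ * inner ℝ (I t v x) (N t (I t v) x)) ∂μ := by
    rw [integral_add ((L2.integrable_inner (𝕜 := ℝ) _ _).const_mul _)
      ((L2.integrable_inner (𝕜 := ℝ) _ _).const_mul _), integral_const_mul, integral_const_mul,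
      ← L2.inner_def, ← L2.inner_def]
    ring
  rw [e1, L2.inner_def]
  refine integral_mono_ae (((L2.integrable_inner (𝕜 := ℝ) _ _).const_mul _).add
      ((L2.integrable_inner (𝕜 := ℝ) _ _).const_mul _)) (L2.integrable_inner (𝕜 := ℝ) _ _) ?_
  filter_upwards [hO.hI t v, hO.hI (t + τ) v, hS.hN t (I t v)] with x h2 h3 h4
  rw [h4, h3, h2]
  have h5 := (abs_le.1 (h1 τ hτ x)).1
  have hw := (h.base.wp t x).le
  have hw' := (h.base.wp (t + τ) x).le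
  have e2 : ∀ a b : ℝ, inner ℝ a b = a * b := fun a b => by
    simp [mul_comm]
  set g := v.1.fst x with hg
  rw [e2, e2, e2]
  have e3 : (1 - ε * |τ|) * (Real.sqrt (w t x) * g * (Real.sqrt (w t x) * g)) +
      τ * (Real.sqrt (w t x) * g * (σ t x * (Real.sqrt (w t x) * g))) =
      (Real.sqrt (w t x) * Real.sqrt (w t x)) * (1 - ε * |τ| + τ * σ t x) * g ^ 2 := by ring
  have e4 : Real.sqrt (w (t + τ) x) * g * (Real.sqrt (w (t + τ) x) * g) =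
      (Real.sqrt (w (t + τ) x) * Real.sqrt (w (t + τ) x)) * g ^ 2 := by ring
  rw [e3, e4, Real.mul_self_sqrt hw, Real.mul_self_sqrt hw']
  refine mul_le_mul_of_nonneg_right ?_ (sq_nonneg _)
  linarith

end

end Pool.Agent.Helper34.QJ
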