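import Pool.Agent.Helper34.QJ.Many

/-!
# Infinitesimal perturbations: integrals along segments of the orbits
-/

set_option autoImplicit false
set_option linter.unusedSectionVars false

open Set Filter Topology MeasureTheory
open scoped Real ContDiff

noncomputable section

namespace Pool.Agent.Helper34.QJ

open Pool.Agent.Y262.QE Pool.Agent.Y264.QR Pool.Agent.Y708.QE

section fa

variable {M : Type} [MetricSpace M] [CompactSpace M] [MeasurableSpace M] [BorelSpace M]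
  {D : Data M} {m : ℝ → Measure M} {A A' : ℝ → Fin D.N → ℂ → ℂ →L[ℝ] ℂ} {K : ℝ}

/-- the derivative of the area of a family -/
theorem Fa.area_t [Nonempty M] (h : Fa D m A A' K) (t : ℝ) :
    HasDerivAt (fun t => (m t).real univ) (∫ x, ts D (A t) (A' t) x ∂(m t)) t := by
  have hf := h.fam
  obtain ⟨hfin, -⟩ := tFin M _ _ (h.surf 0)
  have := hfin
  have h1 := hf.area t
  have hm : ∀ t, wm (m 0) (dr D (A 0) (A t)) = m t := fun t => (h.m_eq t).symm
  have hAr : ∀ t, ∫ x, dr D (A 0) (A t) x ∂(m 0) = (m t).real univ := by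
    intro t
    have h5 : (m t).real univ = ∫ x, (1 : ℝ) ∂(m t) := by simp
    rw [h5, ← hm t, hf.base.int]
    simp only [mul_one]
  have h6 : ∫ x, ts D (A t) (A' t) x ∂(m t) =
      ∫ x, ts D (A t) (A' t) x * dr D (A 0) (A t) x ∂(m 0) := by
    have h7 : ∫ x, ts D (A t) (A' t) x ∂(m t) =
        ∫ x, ts D (A t) (A' t) x ∂(wm (m 0) (dr D (A 0) (A t))) := by rw [hm]
    rw [h7, hf.base.int]
    exact integral_congr_ae (Eventually.of_forall fun x => mul_comm _ _)
  simp only [hAr] at h1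
  rw [h6]
  exact h1

theorem Fa.area_lip [Nonempty M] (h : Fa D m A A' K) (s t : ℝ) :
    (m s).real univ ≤ Real.exp (2 * K * |s - t|) * (m t).real univ := by
  have h1 := area_le (h.surf t) (h.surf s) (c := Real.exp (K * |s - t|))
    (fun i z hz v => h.lip hz s t v)
  rw [← Real.exp_nat_mul] at h1
  have e : ((2 : ℕ) : ℝ) * (K * |s - t|) = 2 * K * |s - t| := by
    push_cast
    ring
  rwa [e] at h1

theorem Fa.ftcA [Nonempty M] (h : Fa D m A A' K) :
    (∀ᵐ t : ℝ, |mts D (m t) (A t) (A' t)| ≤ 2 * K) ∧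
    AEMeasurable (fun t => mts D (m t) (A t) (A' t)) volume ∧
    ∀ α β : ℝ, α ≤ β → ∫ t in α..β, mts D (m t) (A t) (A' t) =
      Real.log ((m β).real univ) - Real.log ((m α).real univ) := by
  have hp : ∀ t, 0 < (m t).real univ := fun t => area_pos (h.surf t)
  obtain ⟨h1, h2, h3⟩ := Pool.Agent.Y147.QR.stFTC (fun t => ((m t).real univ)⁻¹)
    (fun t => mts D (m t) (A t) (A' t)) (2 * K) (fun t => inv_pos.2 (hp t)) (fun s t => by
      have h4 := h.area_lip t s
      rw [abs_sub_comm] at h4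
      rw [inv_le_iff_one_le_mul₀ (hp s)]
      have h5 : 1 = ((m t).real univ)⁻¹ * (m t).real univ := (inv_mul_cancel₀ (hp t).ne').symm
      rw [h5]
      have h6 := mul_le_mul_of_nonneg_left h4 (inv_pos.2 (hp t)).le
      linarith) (Eventually.of_forall fun t => by
      have h4 := (h.area_t t).inv (hp t).ne'
      refine h4.congr_deriv ?_
      have := (hp t).ne'
      unfold mts
      field_simp)
  refine ⟨h1, h2, fun α β hαβ => ?_⟩
  rw [h3 α β hαβ, Real.log_inv, Real.log_inv]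
  ring

end fa

variable {M Ω : Type} [MetricSpace M] [CompactSpace M] [MeasurableSpace M] [BorelSpace M]
  [TopologicalSpace Ω] {D : Data M} {m : Ω → Measure M} {A A' : Ω → Fin D.N → ℂ → ℂ →L[ℝ] ℂ}
  {θ : ℝ → Ω → Ω} {K : Ω → ℝ}

/-- the deviation from Weyl's law -/
def WW (m : Ω → Measure M) (lam : Ω → ℕ → ℝ) (j : ℕ) (o : Ω) : ℝ :=
  Real.log (lam o j / (j + 1)) - Real.log (4 * π / (m o).real univ)

/-- integrals along a segment of an orbit -/
theorem ftc [Nonempty M] (hR : Rm D m A) (hV : Ve D A A' θ K) {u : Ω → ℕ → M → ℝ}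
    {lam r : Ω → ℕ → ℝ} (hu : ∀ o, EigBasis (chg D (A o)) (m o) (u o) (lam o))
    (hr : ∀ o j, Rate D (m o) (A o) (A' o) (ts D (A o) (A' o)) (lam o j) (u o j) (r o j))
    (o : Ω) {R : ℝ} (hR0 : 0 < R) {j : ℕ} (hj : ∀ o, 0 < lam o j) :
    ∃ κ : ℝ → ℝ, AEMeasurable κ volume ∧ (∃ B, ∀ᵐ t : ℝ, |κ t| ≤ B) ∧
      (∀ t, |t| < R → κ t = quo (m (θ t o)) (ts D (A (θ t o)) (A' (θ t o)))
        (lam (θ t o) j) (u (θ t o) j) (r (θ t o) j) -
        mts D (m (θ t o)) (A (θ t o)) (A' (θ t o))) ∧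
      ∀ α β, |α| < R → |β| < R → α ≤ β →
        ∫ t in α..β, κ t = WW m lam j (θ α o) - WW m lam j (θ β o) := by
  obtain ⟨c, c', L, T, h1, h2, h3, h4⟩ := cut hR0
  obtain ⟨K₁, hF⟩ := orb hR hV o h1 h2 h3
  obtain ⟨k1, -, -, k4, -⟩ := lineF hF (fun t => u (θ (c t) o)) (fun t => lam (θ (c t) o))
    (fun t j => c' t * r (θ (c t) o) j) (fun t => hu _) (fun t j => rate_smul (c' t) (hr _ j))
  obtain ⟨a1, a2, a3⟩ := hF.ftcA
  obtain ⟨b1, b2, b3⟩ := Pool.Agent.Y147.QR.stFTC (fun t => lam (θ (c t) o) j)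
    (fun t => quo (m (θ (c t) o)) (ts D (A (θ (c t) o)) fun i z => c' t • A' (θ (c t) o) i z)
      (lam (θ (c t) o) j) (u (θ (c t) o) j) (c' t * r (θ (c t) o) j)) (8 * K₁)
    (fun t => hj _) (fun s t => k1 s t j) (k4.mono fun t ht => ht j)
  refine ⟨fun t => quo (m (θ (c t) o)) (ts D (A (θ (c t) o)) fun i z => c' t • A' (θ (c t) o) i z)
      (lam (θ (c t) o) j) (u (θ (c t) o) j) (c' t * r (θ (c t) o) j) -
      mts D (m (θ (c t) o)) (A (θ (c t) o)) (fun i z => c' t • A' (θ (c t) o) i z),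
    b2.sub a2, ⟨8 * K₁ + 2 * K₁, ?_⟩, fun t ht => ?_, fun α β hα hβ hαβ => ?_⟩
  · filter_upwards [a1, b1] with t ha hb
    exact (abs_sub _ _).trans (by linarith)
  · beta_reduce
    rw [quo_smul, mts_smul, (h4 t ht).1, (h4 t ht).2, one_mul, one_mul]
  · have i1 : ∀ (κ : ℝ → ℝ) (B : ℝ), AEMeasurable κ volume → (∀ᵐ t : ℝ, |κ t| ≤ B) →
        IntervalIntegrable κ volume α β := by
      intro κ B hκ hB
      rw [intervalIntegrable_iff]
      refine Measure.integrableOn_of_bounded (M := B) ?_ hκ.aestronglyMeasurable ?_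
      · rw [Real.volume_uIoc]
        exact ENNReal.ofReal_ne_top
      · exact ae_restrict_of_ae hB
    rw [intervalIntegral.integral_sub (i1 _ _ b2 b1) (i1 _ _ a2 a1), a3 α β hαβ, b3 α β hαβ,
      (h4 α hα).1, (h4 β hβ).1]
    have hp : ∀ o, (m o).real univ ≠ 0 := fun o => (area_pos (hR.surf o)).ne'
    have hjn : ((j : ℝ) + 1) ≠ 0 := by positivity
    unfold WW
    rw [Real.log_div (hj _).ne' hjn, Real.log_div (hj _).ne' hjn,
      Real.log_div (by positivity) (hp _), Real.log_div (by positivity) (hp _)]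
    ring

/-- Weyl's law -/
theorem WW_tendsto [Nonempty M] (hR : Rm D m A) {u : Ω → ℕ → M → ℝ} {lam : Ω → ℕ → ℝ}
    (hu : ∀ o, EigBasis (chg D (A o)) (m o) (u o) (lam o)) (o : Ω) :
    Tendsto (fun j => WW m lam j o) atTop (𝓝 0) := by
  have hL : 0 < 4 * π / (m o).real univ := div_pos (by positivity) (area_pos (hR.surf o))
  have h1 := ((weyl (hR.surf o) (hu o)).log hL.ne').sub_const (Real.log (4 * π / (m o).real univ))
  rwa [sub_self] at h1

/-- equicontinuity of the deviations -/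
theorem WW_equi [Nonempty M] (hR : Rm D m A) {u : Ω → ℕ → M → ℝ} {lam : Ω → ℕ → ℝ}
    (hu : ∀ o, EigBasis (chg D (A o)) (m o) (u o) (lam o)) {J₀ : ℕ}
    (hJ₀ : ∀ j, J₀ ≤ j → ∀ o, 0 < lam o j) (o : Ω) {δ : ℝ} (hδ : 0 < δ) :
    ∀ᶠ o' in 𝓝 o, ∀ j, J₀ ≤ j → |WW m lam j o' - WW m lam j o| ≤ δ := by
  filter_upwards [hR.near o (δ / 8) (by positivity)] with o' ho' j hj
  have hc : 1 ≤ 1 + δ / 8 := by linarith
  have hc0 : 0 < 1 + δ / 8 := by linarith
  have a1 := cmp (hR.surf o) (hR.surf o') hc (fun i z hz v => (ho' i z hz v).1)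
    (fun i z hz v => (ho' i z hz v).2) (hu o) (hu o') j
  have a2 := cmp (hR.surf o') (hR.surf o) hc (fun i z hz v => (ho' i z hz v).2)
    (fun i z hz v => (ho' i z hz v).1) (hu o') (hu o) j
  have a3 := area_le (hR.surf o) (hR.surf o') (fun i z hz v => (ho' i z hz v).1)
  have a4 := area_le (hR.surf o') (hR.surf o) (fun i z hz v => (ho' i z hz v).2)
  have hp := area_pos (hR.surf o)
  have hp' := area_pos (hR.surf o')
  have hl := hJ₀ j hj o
  have hl' := hJ₀ j hj o'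
  have hlog : ∀ {x y : ℝ} {n : ℕ}, 0 < x → 0 < y → x ≤ (1 + δ / 8) ^ n * y →
      Real.log x ≤ n * (δ / 8) + Real.log y := by
    intro x y n hx hy hxy
    have g1 := Real.log_le_log hx hxy
    rw [Real.log_mul (by positivity) hy.ne', Real.log_pow] at g1
    have g2 : Real.log (1 + δ / 8) ≤ δ / 8 := by
      have := Real.log_le_sub_one_of_pos hc0
      linarith
    have g3 : (n : ℝ) * Real.log (1 + δ / 8) ≤ n * (δ / 8) :=
      mul_le_mul_of_nonneg_left g2 (Nat.cast_nonneg n)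
    linarith
  have b1 := hlog hl' hl a1
  have b2 := hlog hl hl' a2
  have b3 := hlog hp' hp a3
  have b4 := hlog hp hp' a4
  have hjn : ((j : ℝ) + 1) ≠ 0 := by positivity
  unfold WW
  rw [Real.log_div hl.ne' hjn, Real.log_div hl'.ne' hjn, Real.log_div (by positivity) hp.ne',
    Real.log_div (by positivity) hp'.ne', abs_le]
  push_cast at b1 b2 b3 b4
  constructor <;> linarith

theorem WW_cont [Nonempty M] (hR : Rm D m A) {u : Ω → ℕ → M → ℝ} {lam : Ω → ℕ → ℝ}
    (hu : ∀ o, EigBasis (chg D (A o)) (m o) (u o) (lam o)) {J₀ : ℕ}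
    (hJ₀ : ∀ j, J₀ ≤ j → ∀ o, 0 < lam o j) {j : ℕ} (hj : J₀ ≤ j) : Continuous (WW m lam j) := by
  rw [continuous_iff_continuousAt]
  intro o
  rw [ContinuousAt, Metric.tendsto_nhds]
  intro ε hε
  filter_upwards [WW_equi hR hu hJ₀ o (half_pos hε)] with o' ho'
  rw [Real.dist_eq]
  linarith [ho' j hj]

/-- uniform convergence on compact sets -/
theorem WW_unif [Nonempty M] (hR : Rm D m A) {u : Ω → ℕ → M → ℝ} {lam : Ω → ℕ → ℝ}
    (hu : ∀ o, EigBasis (chg D (A o)) (m o) (u o) (lam o)) {J₀ : ℕ}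
    (hJ₀ : ∀ j, J₀ ≤ j → ∀ o, 0 < lam o j) {C : Set Ω} (hC : IsCompact C) {δ : ℝ} (hδ : 0 < δ) :
    ∃ J, ∀ j, J ≤ j → ∀ o ∈ C, |WW m lam j o| ≤ δ := by
  refine hC.induction_on (p := fun s => ∃ J, ∀ j, J ≤ j → ∀ o ∈ s, |WW m lam j o| ≤ δ)
    ⟨0, fun j _ o ho => absurd ho (notMem_empty o)⟩
    (fun s t hst ⟨J, hJ⟩ => ⟨J, fun j hj o ho => hJ j hj o (hst ho)⟩) ?_ ?_
  · rintro s t ⟨J, hJ⟩ ⟨J', hJ'⟩
    refine ⟨max J J', fun j hj o ho => ?_⟩
    rcases ho with ho | ho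
    · exact hJ j ((le_max_left _ _).trans hj) o ho
    · exact hJ' j ((le_max_right _ _).trans hj) o ho
  · intro o _
    have h1 := WW_equi hR hu hJ₀ o (half_pos hδ)
    obtain ⟨J, hJ⟩ := Metric.tendsto_atTop.1 (WW_tendsto hR hu o) (δ / 2) (half_pos hδ)
    refine ⟨_, mem_nhdsWithin_of_mem_nhds h1, max J J₀, fun j hj o' ho' => ?_⟩
    have h2 : |WW m lam j o' - WW m lam j o| ≤ δ / 2 := ho' j ((le_max_right _ _).trans hj)
    have h3 := hJ j ((le_max_left _ _).trans hj)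
    rw [Real.dist_eq, sub_zero] at h3
    have e : WW m lam j o' = (WW m lam j o' - WW m lam j o) + WW m lam j o := by ring
    rw [e]
    exact (abs_add_le _ _).trans (by linarith)

end Pool.Agent.Helper34.QJ
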