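import Mathlib

/-!
# Stress and energy in the mean: local approximation of weakly convergent sequences
-/

set_option autoImplicit false

open Set Filter Topology MeasureTheory

noncomputable section

namespace Pool.Agent.Helper34.QJ

variable {Ω : Type} [TopologicalSpace Ω] [SecondCountableTopology Ω] [MeasurableSpace Ω]
  [BorelSpace Ω]

theorem glue1 [Nonempty Ω] (P : Measure Ω) [IsFiniteMeasure P] (X : ℕ → Ω → ℝ) (Y : Ω → ℝ) {C ε : ℝ}
    (hX : ∀ j o, |X j o| ≤ C) (hY : ∀ o, |Y o| ≤ C)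
    (h : ∀ o, ∃ U ∈ 𝓝 o, ∃ (g : ℕ → Ω → ℝ) (y : Ω → ℝ),
      (∀ j, AEStronglyMeasurable (g j) P) ∧ AEStronglyMeasurable y P ∧
      (∀ j, ∀ o' ∈ U, |X j o' - g j o'| ≤ ε) ∧ (∀ o' ∈ U, |Y o' - y o'| ≤ ε) ∧
      ∀ χ : Ω → ℝ, Integrable χ P →
        Tendsto (fun j => ∫ o, χ o * g j o ∂P) atTop (𝓝 (∫ o, χ o * y o ∂P))) :
    ∃ (g : ℕ → Ω → ℝ) (y : Ω → ℝ),
      (∀ j, AEStronglyMeasurable (g j) P) ∧ AEStronglyMeasurable y P ∧
      (∀ j o, |X j o - g j o| ≤ ε) ∧ (∀ o, |Y o - y o| ≤ ε) ∧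
      ∀ χ : Ω → ℝ, Integrable χ P →
        Tendsto (fun j => ∫ o, χ o * g j o ∂P) atTop (𝓝 (∫ o, χ o * y o ∂P)) := by
  choose U hU g y hgm hym hXg hYy hw using h
  obtain ⟨s, hs, hcov⟩ := TopologicalSpace.countable_cover_nhds (f := fun o => interior (U o))
    (fun o => interior_mem_nhds.2 (hU o))
  have hsne : s.Nonempty := by
    obtain ⟨o⟩ := ‹Nonempty Ω›
    have h1 : o ∈ ⋃ x ∈ s, interior (U x) := by rw [hcov]; trivial
    obtain ⟨x, hx, -⟩ := mem_iUnion₂.1 h1
    exact ⟨x, hx⟩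
  obtain ⟨a, ha⟩ := hs.exists_eq_range hsne
  set W : ℕ → Set Ω := fun k => interior (U (a k)) with hW
  have hWm : ∀ k, MeasurableSet (W k) := fun k => isOpen_interior.measurableSet
  set V : ℕ → Set Ω := disjointed W with hV
  have hVm : ∀ k, MeasurableSet (V k) := fun k => MeasurableSet.disjointed hWm k
  have hVd : Pairwise (Function.onFun Disjoint V) := disjoint_disjointed W
  have hVu : ⋃ k, V k = univ := by
    rw [hV, iUnion_disjointed]
    refine eq_univ_of_forall fun o => ?_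
    have h1 : o ∈ ⋃ x ∈ s, interior (U x) := by rw [hcov]; trivial
    obtain ⟨x, hx, hox⟩ := mem_iUnion₂.1 h1
    rw [ha] at hx
    obtain ⟨k, rfl⟩ := hx
    exact mem_iUnion.2 ⟨k, hox⟩
  have hex : ∀ o, ∃ k, o ∈ V k := fun o => by
    have h1 : o ∈ ⋃ k, V k := by rw [hVu]; trivial
    exact mem_iUnion.1 h1
  choose idx hidx using hex
  have hun : ∀ o k, o ∈ V k → idx o = k := by
    intro o k hk
    by_contra hne
    exact Set.disjoint_left.1 (hVd hne) (hidx o) hk
  have hVU : ∀ o, o ∈ U (a (idx o)) := fun o =>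
    interior_subset (disjointed_subset W (idx o) (hidx o))
  have hgl : ∀ (f : ℕ → Ω → ℝ), (∀ k, AEStronglyMeasurable (f k) P) →
      AEStronglyMeasurable (fun o => f (idx o) o) P := by
    intro f hf
    have h1 := aestronglyMeasurable_iUnion_iff (f := fun o => f (idx o) o) (μ := P) (s := V)
    rw [hVu, Measure.restrict_univ] at h1
    refine h1.2 fun k => (hf k).restrict.congr ?_
    refine ae_restrict_of_forall_mem (hVm k) fun o ho => ?_
    show f k o = f (idx o) o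
    rw [hun o k ho]
  have hsplit : ∀ (f : ℕ → Ω → ℝ) (χ : Ω → ℝ), Integrable (fun o => χ o * f (idx o) o) P →
      ∫ o, χ o * f (idx o) o ∂P = ∑' k, ∫ o, (V k).indicator χ o * f k o ∂P := by
    intro f χ hi
    have h1 := integral_iUnion (μ := P) hVm hVd (f := fun o => χ o * f (idx o) o)
      (by rw [hVu]; exact hi.integrableOn)
    rw [hVu, setIntegral_univ] at h1
    rw [h1]
    refine tsum_congr fun k => ?_
    rw [← integral_indicator (hVm k)]
    refine integral_congr_ae (Eventually.of_forall fun o => ?_)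
    by_cases ho : o ∈ V k
    · simp only [indicator_of_mem ho, hun o k ho]
    · simp only [indicator_of_notMem ho, zero_mul]
  refine ⟨fun j o => g (a (idx o)) j o, fun o => y (a (idx o)) o,
    fun j => hgl (fun k => g (a k) j) fun k => hgm (a k) j,
    hgl (fun k => y (a k)) fun k => hym (a k),
    fun j o => hXg _ j o (hVU o), fun o => hYy _ o (hVU o), ?_⟩
  intro χ hχ
  have hb : ∀ j o, |g (a (idx o)) j o| ≤ C + ε := by
    intro j o
    have h1 := hXg _ j o (hVU o)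
    have h2 := hX j o
    rw [abs_le] at h1 h2 ⊢
    constructor <;> linarith [h1.1, h1.2, h2.1, h2.2]
  have hb' : ∀ o, |y (a (idx o)) o| ≤ C + ε := by
    intro o
    have h1 := hYy _ o (hVU o)
    have h2 := hY o
    rw [abs_le] at h1 h2 ⊢
    constructor <;> linarith [h1.1, h1.2, h2.1, h2.2]
  have hig : ∀ j, Integrable (fun o => χ o * g (a (idx o)) j o) P := fun j =>
    hχ.mul_bdd (c := C + ε) (hgl (fun k => g (a k) j) fun k => hgm (a k) j)
      (Eventually.of_forall fun o => hb j o)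
  have hiy : Integrable (fun o => χ o * y (a (idx o)) o) P :=
    hχ.mul_bdd (c := C + ε) (hgl (fun k => y (a k)) fun k => hym (a k))
      (Eventually.of_forall fun o => hb' o)
  have e1 : ∀ j, ∫ o, χ o * g (a (idx o)) j o ∂P =
      ∑' k, ∫ o, (V k).indicator χ o * g (a k) j o ∂P := fun j =>
    hsplit (fun k => g (a k) j) χ (hig j)
  have e2 : ∫ o, χ o * y (a (idx o)) o ∂P = ∑' k, ∫ o, (V k).indicator χ o * y (a k) o ∂P :=
    hsplit (fun k => y (a k)) χ hiy
  rw [e2]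
  simp only [e1]
  have hsum : Summable fun k => (C + ε) * ∫ o in V k, |χ o| ∂P := by
    refine Summable.mul_left _ ?_
    exact (hasSum_integral_iUnion (μ := P) hVm hVd (f := fun o => |χ o|)
      (by rw [hVu]; exact hχ.abs.integrableOn)).summable
  refine tendsto_tsum_of_dominated_convergence hsum (fun k => hw (a k) _ (hχ.indicator (hVm k)))
    (Eventually.of_forall fun j k => ?_)
  rw [← integral_const_mul, ← integral_indicator (hVm k)]
  refine norm_integral_le_of_norm_le ?_ (Eventually.of_forall fun o => ?_)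
  · exact (hχ.abs.const_mul (C + ε)).indicator (hVm k)
  · by_cases ho : o ∈ V k
    · have h3 := hb j o
      rw [hun o k ho] at h3
      rw [indicator_of_mem ho, indicator_of_mem ho, norm_mul, Real.norm_eq_abs, Real.norm_eq_abs,
        mul_comm]
      exact mul_le_mul_of_nonneg_right h3 (abs_nonneg _)
    · rw [indicator_of_notMem ho, indicator_of_notMem ho, zero_mul, norm_zero]

/-- **Local approximation.** -/
theorem glue [Nonempty Ω] (P : Measure Ω) [IsFiniteMeasure P] (X : ℕ → Ω → ℝ) (Y : Ω → ℝ) {C : ℝ}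
    (hX : ∀ j o, |X j o| ≤ C) (hY : ∀ o, |Y o| ≤ C)
    (h : ∀ ε : ℝ, 0 < ε → ∀ o, ∃ U ∈ 𝓝 o, ∃ (g : ℕ → Ω → ℝ) (y : Ω → ℝ),
      (∀ j, AEStronglyMeasurable (g j) P) ∧ AEStronglyMeasurable y P ∧
      (∀ j, ∀ o' ∈ U, |X j o' - g j o'| ≤ ε) ∧ (∀ o' ∈ U, |Y o' - y o'| ≤ ε) ∧
      ∀ χ : Ω → ℝ, Integrable χ P →
        Tendsto (fun j => ∫ o, χ o * g j o ∂P) atTop (𝓝 (∫ o, χ o * y o ∂P))) :
    (∀ j, AEStronglyMeasurable (X j) P) ∧ AEStronglyMeasurable Y P ∧
      ∀ χ : Ω → ℝ, Integrable χ P →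
        Tendsto (fun j => ∫ o, χ o * X j o ∂P) atTop (𝓝 (∫ o, χ o * Y o ∂P)) := by
  have h1 : ∀ ε : ℝ, 0 < ε → _ := fun ε hε => glue1 P X Y hX hY (h ε hε)
  have hpos : ∀ n : ℕ, (0 : ℝ) < 1 / (n + 1) := fun n => Nat.one_div_pos_of_nat
  choose g y hg hy hXg hYy hw using fun n : ℕ => h1 (1 / (n + 1)) (hpos n)
  have hlim : ∀ (a : ℝ) (b : ℕ → ℝ), (∀ n : ℕ, |a - b n| ≤ 1 / (n + 1)) →
      Tendsto b atTop (𝓝 a) := by
    intro a b hab
    rw [tendsto_iff_dist_tendsto_zero]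
    refine squeeze_zero (fun n => dist_nonneg) (fun n => ?_)
      (tendsto_one_div_add_atTop_nhds_zero_nat (𝕜 := ℝ))
    rw [Real.dist_eq, abs_sub_comm]
    exact hab n
  have hXm : ∀ j, AEStronglyMeasurable (X j) P := fun j =>
    aestronglyMeasurable_of_tendsto_ae atTop (fun n => hg n j)
      (Eventually.of_forall fun o => hlim _ _ fun n => hXg n j o)
  have hYm : AEStronglyMeasurable Y P :=
    aestronglyMeasurable_of_tendsto_ae atTop (fun n => hy n)
      (Eventually.of_forall fun o => hlim _ _ fun n => hYy n o)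
  refine ⟨hXm, hYm, fun χ hχ => ?_⟩
  rw [Metric.tendsto_atTop]
  intro δ hδ
  have hI : 0 ≤ ∫ o, |χ o| ∂P := integral_nonneg fun o => abs_nonneg _
  obtain ⟨n, hn⟩ := exists_nat_one_div_lt (K := ℝ)
    (show 0 < δ / (3 * ((∫ o, |χ o| ∂P) + 1)) by positivity)
  have hn' : 1 / ((n : ℝ) + 1) * (∫ o, |χ o| ∂P) < δ / 3 := by
    have h2 : 1 / ((n : ℝ) + 1) * ((∫ o, |χ o| ∂P) + 1) < δ / 3 := by
      rw [lt_div_iff₀ (by positivity)] at hn
      linarith
    have := hpos n
    nlinarith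
  have hc : ∀ f g : Ω → ℝ, AEStronglyMeasurable f P → AEStronglyMeasurable g P →
      (∀ o, |f o| ≤ C) → (∀ o, |f o - g o| ≤ 1 / ((n : ℝ) + 1)) →
      |∫ o, χ o * f o ∂P - ∫ o, χ o * g o ∂P| < δ / 3 := by
    intro f g hf hg hfb hfg
    have hgb : ∀ o, |g o| ≤ C + 1 / ((n : ℝ) + 1) := by
      intro o
      have h3 := hfb o
      have h4 := hfg o
      rw [abs_le] at h3 h4 ⊢
      constructor <;> linarith [h3.1, h3.2, h4.1, h4.2]
    have i1 : Integrable (fun o => χ o * f o) P :=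
      hχ.mul_bdd (c := C) hf (Eventually.of_forall hfb)
    have i2 : Integrable (fun o => χ o * g o) P :=
      hχ.mul_bdd (c := C + 1 / ((n : ℝ) + 1)) hg (Eventually.of_forall hgb)
    rw [← integral_sub i1 i2]
    refine lt_of_le_of_lt ?_ hn'
    rw [← integral_const_mul, ← Real.norm_eq_abs]
    refine norm_integral_le_of_norm_le (hχ.abs.const_mul _) (Eventually.of_forall fun o => ?_)
    rw [← mul_sub, norm_mul, Real.norm_eq_abs, Real.norm_eq_abs, mul_comm]
    exact mul_le_mul_of_nonneg_right (hfg o) (abs_nonneg _)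
  obtain ⟨J, hJ⟩ := Metric.tendsto_atTop.1 (hw n χ hχ) (δ / 3) (by positivity)
  refine ⟨J, fun j hj => ?_⟩
  have a1 := hc (X j) (g n j) (hXm j) (hg n j) (hX j) (hXg n j)
  have a2 := hJ j hj
  have a3 := hc Y (y n) hYm (hy n) hY (hYy n)
  rw [Real.dist_eq] at a2 ⊢
  rw [abs_lt] at a1 a2 a3 ⊢
  constructor <;> linarith [a1.1, a1.2, a2.1, a2.2, a3.1, a3.2]

end Pool.Agent.Helper34.QJ
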