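import Pool.Agent.Helper34.QJ.Ftc

/-!
# Infinitesimal perturbations: measurable versions
-/

set_option autoImplicit false
set_option linter.unusedSectionVars false

open Set Filter Topology MeasureTheory
open scoped Real

noncomputable section

namespace Pool.Agent.Helper34.QJ

open Pool.Agent.Y262.QE Pool.Agent.Y264.QR Pool.Agent.Y708.QE

section qw

open Pool.Agent.Y941.QR

variable {Ω : Type} [MeasurableSpace Ω]

/-- weak convergence along the segments of almost all orbits -/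
theorem qw2 (P : Measure Ω) [IsProbabilityMeasure P] {θ : ℝ → Ω → Ω} (hθ : Flw P θ)
    (X : ℕ → Ω → ℝ) (Y : Ω → ℝ) (K : ℝ) (hX : ∀ j, Measurable (X j)) (hY : Measurable Y)
    (hXK : ∀ j o, |X j o| ≤ K) (hYK : ∀ o, |Y o| ≤ K)
    (hlim : ∀ᵐ o ∂P, ∀ χ : ℝ → ℝ, Integrable χ volume → (∀ t, t ∉ Icc (0 : ℝ) 1 → χ t = 0) →
      Tendsto (fun j => ∫ t, χ t * X j (θ t o)) atTop (𝓝 (∫ t, χ t * Y (θ t o))))
    (χ : Ω → ℝ) (hχ : Integrable χ P) :
    Tendsto (fun j => ∫ o, χ o * X j o ∂P) atTop (𝓝 (∫ o, χ o * Y o ∂P)) := by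
  obtain ⟨G, hG, hrep⟩ := rep P hθ χ hχ
  have hl : ∀ j, ∫ o, χ o * X j o ∂P = ∫ o, ∫ t, G (θ t o) * X j (θ t o) ∂lam ∂P := fun j =>
    (hrep (X j) K (hX j) (hXK j)).2
  rw [(hrep Y K hY hYK).2]
  simp_rw [hl]
  have hGn : Integrable (fun o => ∫ t, ‖G (θ t o)‖ ∂lam) P := hG.norm.integral_prod_right
  refine tendsto_integral_of_dominated_convergence (fun o => K * ∫ t, ‖G (θ t o)‖ ∂lam)
    (fun j => ((hrep (X j) K (hX j) (hXK j)).1.integral_prod_right).1) (hGn.const_mul K) ?_ ?_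
  · intro j
    filter_upwards [hG.prod_left_ae] with o ho
    calc ‖∫ t, G (θ t o) * X j (θ t o) ∂lam‖ ≤ ∫ t, K * ‖G (θ t o)‖ ∂lam := by
          apply norm_integral_le_of_norm_le (ho.norm.const_mul K)
          refine Eventually.of_forall fun t => ?_
          rw [norm_mul, mul_comm]
          exact mul_le_mul_of_nonneg_right (hXK j _) (norm_nonneg _)
      _ = K * ∫ t, ‖G (θ t o)‖ ∂lam := integral_const_mul _ _
  · filter_upwards [hG.prod_left_ae, hlim] with o ho hl2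
    have h1 : Integrable ((Icc (0:ℝ) 1).indicator fun t => G (θ t o)) volume :=
      (integrable_indicator_iff measurableSet_Icc).mpr ho
    have h2 := hl2 _ h1 (fun t ht => indicator_of_notMem ht _)
    have h3 : ∀ Z : Ω → ℝ, ∫ t, (Icc (0:ℝ) 1).indicator (fun t => G (θ t o)) t * Z (θ t o) =
        ∫ t, G (θ t o) * Z (θ t o) ∂lam := by
      intro Z
      have : (fun t => (Icc (0:ℝ) 1).indicator (fun t => G (θ t o)) t * Z (θ t o)) =
          (Icc (0:ℝ) 1).indicator fun t => G (θ t o) * Z (θ t o) := by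
        funext t
        by_cases ht : t ∈ Icc (0:ℝ) 1
        · rw [indicator_of_mem ht, indicator_of_mem ht]
        · rw [indicator_of_notMem ht, indicator_of_notMem ht, zero_mul]
      rw [this, integral_indicator measurableSet_Icc]
      rfl
    rw [← h3 Y]
    simp_rw [← h3 (X _)]
    exact h2

end qw

variable {M Ω : Type} [MetricSpace M] [CompactSpace M] [MeasurableSpace M] [BorelSpace M]
  [TopologicalSpace Ω] {D : Data M} {m : Ω → Measure M} {A A' : Ω → Fin D.N → ℂ → ℂ →L[ℝ] ℂ}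
  {θ : ℝ → Ω → Ω} {K : Ω → ℝ} [MeasurableSpace Ω] [BorelSpace Ω]

theorem mts_meas [Nonempty M] (hR : Rm D m A) (hV : Ve D A A' θ K) {u : Ω → ℕ → M → ℝ}
    {lam r : Ω → ℕ → ℝ} (hu : ∀ o, EigBasis (chg D (A o)) (m o) (u o) (lam o))
    (hr : ∀ o j, Rate D (m o) (A o) (A' o) (ts D (A o) (A' o)) (lam o j) (u o j) (r o j)) :
    Measurable fun o => mts D (m o) (A o) (A' o) := by
  have hYe : (fun o => mts D (m o) (A o) (A' o)) =
      fun o => deriv (fun t : ℝ => (m (θ t o)).real univ) 0 / (m o).real univ := by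
    funext o
    rw [(orbs hR hV hu hr o one_pos).2.2.1.deriv]
    rfl
  rw [hYe]
  exact (der_meas hR.area_cont hV.flow).1.div hR.area_cont.measurable

theorem mts_le [Nonempty M] (hR : Rm D m A) (hV : Ve D A A' θ K) (o : Ω) :
    |mts D (m o) (A o) (A' o)| ≤ 2 * K o :=
  mT_close (S := sf D (A o) (A' o)) (hR.surf o) fun x w => by
    refine (abs_real_inner_le_norm _ _).trans ?_
    have := mul_le_mul_of_nonneg_right
      ((sf_bf (hR.surf o) (hV.cont o) (hV.bdd o)).bd x w) (norm_nonneg w)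
    rw [sq]
    linarith

theorem quo_le' [Nonempty M] (hR : Rm D m A) (hV : Ve D A A' θ K) {u : Ω → ℕ → M → ℝ}
    {lam r : Ω → ℕ → ℝ} (hu : ∀ o, EigBasis (chg D (A o)) (m o) (u o) (lam o))
    (hr : ∀ o j, Rate D (m o) (A o) (A' o) (ts D (A o) (A' o)) (lam o j) (u o j) (r o j))
    (o : Ω) {j : ℕ} (hj : 0 < lam o j) :
    |quo (m o) (ts D (A o) (A' o)) (lam o j) (u o j) (r o j)| ≤ 6 * K o :=
  quo_le (hR.surf o) (hu o) hj (sf_bf (hR.surf o) (hV.cont o) (hV.bdd o)) (rate_iff.1 (hr o j))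

/-- measurable versions -/
theorem ver [Nonempty M] (hR : Rm D m A) (hV : Ve D A A' θ K) {P : Measure Ω}
    [IsProbabilityMeasure P] (hP : ∀ t, P.map (θ t) ≪ P) {u : Ω → ℕ → M → ℝ}
    {lam r : Ω → ℕ → ℝ} (hu : ∀ o, EigBasis (chg D (A o)) (m o) (u o) (lam o))
    (hr : ∀ o j, Rate D (m o) (A o) (A' o) (ts D (A o) (A' o)) (lam o j) (u o j) (r o j))
    {J₀ : ℕ} (hJ₀ : ∀ j, J₀ ≤ j → ∀ o, 0 < lam o j) (N : ℝ) :
    ∃ X : ℕ → Ω → ℝ, (∀ j, Measurable (X j)) ∧ (∀ j o, |X j o| ≤ 6 * |N|) ∧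
      (∀ j, J₀ ≤ j → ∀ᵐ o ∂P, X j o = {o | K o ≤ N}.indicator (fun o =>
        quo (m o) (ts D (A o) (A' o)) (lam o j) (u o j) (r o j)) o) ∧
      ∀ o, ∀ᵐ t : ℝ, ∀ j, J₀ ≤ j → X j (θ t o) = {o | K o ≤ N}.indicator (fun o =>
        quo (m o) (ts D (A o) (A' o)) (lam o j) (u o j) (r o j)) (θ t o) := by
  classical
  set Q : ℕ → Ω → ℝ := fun j o => quo (m o) (ts D (A o) (A' o)) (lam o j) (u o j) (r o j) with hQ
  have hflw : Flw P θ := ⟨hV.flow.measurable, hV.zero, hV.add, hP⟩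
  have hE : ∀ j, Continuous fun o => lam o j := hR.lam_cont hu
  have hQb : ∀ j, J₀ ≤ j → ∀ o, |Q j o| ≤ 6 * K o := fun j hj o =>
    quo_le' hR hV hu hr o (hJ₀ j hj o)
  have hsN : MeasurableSet {o | K o ≤ N} := measurableSet_le hV.Kc.measurable measurable_const
  have hder : ∀ o (R : ℝ), 0 < R → ∀ᵐ t : ℝ, |t| < R → ∀ j,
      HasDerivAt (fun τ => lam (θ τ (θ t o)) j) (-(Q j (θ t o) * lam (θ t o) j)) 0 := by
    intro o R hR0
    filter_upwards [(orbs hR hV hu hr o hR0).2.1] with t ht htR j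
    have h1 := shift (ht htR j)
    simp only [hV.add] at h1
    exact h1
  have hder2 : ∀ o, ∀ᵐ t : ℝ, ∀ j,
      HasDerivAt (fun τ => lam (θ τ (θ t o)) j) (-(Q j (θ t o) * lam (θ t o) j)) 0 := by
    intro o
    have h1 : ∀ᵐ t : ℝ, ∀ n : ℕ, |t| < (n : ℝ) + 1 → ∀ j,
        HasDerivAt (fun τ => lam (θ τ (θ t o)) j) (-(Q j (θ t o) * lam (θ t o) j)) 0 :=
      ae_all_iff.2 fun n => hder o _ (by positivity)
    filter_upwards [h1] with t ht
    obtain ⟨n, hn⟩ := exists_nat_gt |t|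
    exact ht n (by linarith)
  have hnull : ∀ᵐ o ∂P, ∀ j, DifferentiableAt ℝ (fun t : ℝ => lam (θ t o) j) 0 := by
    rw [ae_all_iff]
    intro j
    have h1 : MeasurableSet {o : Ω | ¬ DifferentiableAt ℝ (fun t : ℝ => lam (θ t o) j) 0} :=
      (der_meas (hE j) hV.flow).2.compl
    exact Pool.Agent.Y941.QR.qn Ω P θ hflw _ h1 (fun o => by
      filter_upwards [hder2 o] with t ht
      exact fun hn => hn (ht j).differentiableAt)
  have hae : ∀ᵐ o ∂P, ∀ j, HasDerivAt (fun t : ℝ => lam (θ t o) j) (-(Q j o * lam o j)) 0 := by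
    filter_upwards [hnull] with o ho j
    have h1 := (orbs hR hV hu hr o one_pos).1 0 (by rw [abs_zero]; exact one_pos) ho j
    simpa only [hV.zero] using h1
  set X : ℕ → Ω → ℝ := fun j => {o | K o ≤ N}.indicator (XX (fun o => lam o j) θ (6 * |N|)) with hX
  have hXQ : ∀ j, J₀ ≤ j → ∀ o, HasDerivAt (fun t : ℝ => lam (θ t o) j) (-(Q j o * lam o j)) 0 →
      X j o = {o | K o ≤ N}.indicator (Q j) o := by
    intro j hj o ho
    simp only [hX]
    by_cases hK : K o ≤ N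
    · rw [indicator_of_mem (show o ∈ {o | K o ≤ N} from hK),
        indicator_of_mem (show o ∈ {o | K o ≤ N} from hK)]
      refine XX_eq (f := fun o => lam o j) ho (hJ₀ j hj o) ((hQb j hj o).trans ?_)
      have := le_abs_self N
      linarith
    · rw [indicator_of_notMem (show o ∉ {o | K o ≤ N} from hK),
        indicator_of_notMem (show o ∉ {o | K o ≤ N} from hK)]
  refine ⟨X, fun j => (XX_meas (hE j) hV.flow _).indicator hsN, fun j o => ?_, fun j hj => ?_,
    fun o => ?_⟩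
  · simp only [hX]
    by_cases hK : K o ≤ N
    · rw [indicator_of_mem (show o ∈ {o | K o ≤ N} from hK)]
      exact XX_bd (by positivity) o
    · rw [indicator_of_notMem (show o ∉ {o | K o ≤ N} from hK), abs_zero]
      positivity
  · filter_upwards [hae] with o ho
    exact hXQ j hj o (ho j)
  · filter_upwards [hder2 o] with t ht j hj
    exact hXQ j hj _ (ht j)

end Pool.Agent.Helper34.QJ
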