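import Pool.Agent.Helper34.QJ.Scale
import Pool.Agent.Helper34.QJ.Ver

/-!
# Infinitesimal perturbations: one direction
-/

set_option autoImplicit false
set_option linter.unusedSectionVars false

open Set Filter Topology MeasureTheory
open scoped Real

noncomputable section

namespace Pool.Agent.Helper34.QJ

open Pool.Agent.Y262.QE Pool.Agent.Y264.QR Pool.Agent.Y708.QE

section real

variable {k : ℕ → ℝ → ℝ} {B : ℝ}

theorem int01 (hm : ∀ j, AEMeasurable (k j) volume) (hb : ∀ j, ∀ t ∈ Icc (0 : ℝ) 1, |k j t| ≤ B)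
    (j : ℕ) {a b : ℝ} (ha : a ∈ Icc (0 : ℝ) 1) (hab : b ∈ Icc (0 : ℝ) 1) :
    IntervalIntegrable (k j) volume a b := by
  rw [intervalIntegrable_iff]
  refine Measure.integrableOn_of_bounded (M := B) ?_ (hm j).aestronglyMeasurable ?_
  · rw [Real.volume_uIoc]
    exact ENNReal.ofReal_ne_top
  · refine (ae_restrict_iff' measurableSet_uIoc).2 (Eventually.of_forall fun t ht => hb j t ?_)
    exact (uIoc_subset_uIcc.trans (uIcc_subset_Icc ha hab)) ht

theorem rat_ext (hm : ∀ j, AEMeasurable (k j) volume)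
    (hb : ∀ j, ∀ t ∈ Icc (0 : ℝ) 1, |k j t| ≤ B)
    (hq : ∀ q : ℚ, (q : ℝ) ∈ Icc (0 : ℝ) 1 →
      Tendsto (fun j => ∫ t in (0 : ℝ)..q, k j t) atTop (𝓝 0))
    {T : ℝ} (hT : T ∈ Icc (0 : ℝ) 1) : Tendsto (fun j => ∫ t in (0 : ℝ)..T, k j t) atTop (𝓝 0) := by
  have hB : 0 ≤ B := (abs_nonneg _).trans (hb 0 0 ⟨le_rfl, zero_le_one⟩)
  rcases hT.1.eq_or_lt with h0 | h0
  · rw [← h0]
    simp only [intervalIntegral.integral_same]
    exact tendsto_const_nhds
  · rw [Metric.tendsto_atTop]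
    intro ε hε
    obtain ⟨q, hq1, hq2⟩ := exists_rat_btwn
      (show max 0 (T - ε / (2 * (B + 1))) < T from max_lt h0 (by
        have : 0 < ε / (2 * (B + 1)) := by positivity
        linarith))
    have hq0 : (0 : ℝ) ≤ q := ((le_max_left _ _).trans_lt hq1).le
    have hqm : (q : ℝ) ∈ Icc (0 : ℝ) 1 := ⟨hq0, hq2.le.trans hT.2⟩
    have hq3 : T - q < ε / (2 * (B + 1)) := by
      have := (le_max_right _ _).trans_lt hq1
      linarith
    obtain ⟨J, hJ⟩ := Metric.tendsto_atTop.1 (hq q hqm) (ε / 2) (half_pos hε)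
    refine ⟨J, fun j hj => ?_⟩
    have h1 := hJ j hj
    rw [Real.dist_eq, sub_zero] at h1 ⊢
    have h2 : ∫ t in (0 : ℝ)..T, k j t =
        (∫ t in (0 : ℝ)..q, k j t) + ∫ t in (q : ℝ)..T, k j t :=
      (intervalIntegral.integral_add_adjacent_intervals
        (int01 hm hb j ⟨le_rfl, zero_le_one⟩ hqm) (int01 hm hb j hqm hT)).symm
    have h3 : |∫ t in (q : ℝ)..T, k j t| ≤ B * |T - q| := by
      have h6 := intervalIntegral.norm_integral_le_of_norm_le_const (a := (q : ℝ)) (b := T)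
        (f := k j) (C := B) (fun t ht => by
          rw [Real.norm_eq_abs]
          exact hb j t ((uIoc_subset_uIcc.trans (uIcc_subset_Icc hqm hT)) ht))
      rwa [Real.norm_eq_abs] at h6
    have h4 : B * |T - q| < ε / 2 := by
      rw [abs_of_pos (by linarith)]
      have h5 : B * (T - q) ≤ B * (ε / (2 * (B + 1))) := mul_le_mul_of_nonneg_left hq3.le hB
      refine lt_of_le_of_lt h5 ?_
      rw [mul_div_assoc', div_lt_div_iff₀ (by positivity) two_pos]
      nlinarith
    rw [h2]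
    exact (abs_add_le _ _).trans_lt (by linarith)

/-- from integrals over segments to integrable functions -/
theorem dens01 (hm : ∀ j, AEMeasurable (k j) volume)
    (hb : ∀ j, ∀ t ∈ Icc (0 : ℝ) 1, |k j t| ≤ B)
    (hq : ∀ q : ℚ, (q : ℝ) ∈ Icc (0 : ℝ) 1 →
      Tendsto (fun j => ∫ t in (0 : ℝ)..q, k j t) atTop (𝓝 0))
    {χ : ℝ → ℝ} (hχ : Integrable χ volume) (h0 : ∀ t, t ∉ Icc (0 : ℝ) 1 → χ t = 0) :
    Tendsto (fun j => ∫ t, χ t * k j t) atTop (𝓝 0) := by
  have hB : 0 ≤ B := (abs_nonneg _).trans (hb 0 0 ⟨le_rfl, zero_le_one⟩)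
  have h00 : (0 : ℝ) ∈ Icc (0 : ℝ) 1 := ⟨le_rfl, zero_le_one⟩
  have h11 : (1 : ℝ) ∈ Icc (0 : ℝ) 1 := ⟨zero_le_one, le_rfl⟩
  set κ : ℕ → ℝ → ℝ := fun j => (Ioc (0 : ℝ) 1).indicator (k j) with hκ
  have hκm : ∀ j, AEMeasurable (κ j) volume := fun j => (hm j).indicator measurableSet_Ioc
  have hκb : ∀ j t, |κ j t| ≤ B := by
    intro j t
    by_cases ht : t ∈ Ioc (0 : ℝ) 1
    · simp only [hκ]
      rw [indicator_of_mem ht]
      exact hb j t ⟨ht.1.le, ht.2⟩
    · simp only [hκ]
      rw [indicator_of_notMem ht, abs_zero]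
      exact hB
  have hii : ∀ j (a b : ℝ), IntervalIntegrable (κ j) volume a b := by
    intro j a b
    rw [intervalIntegrable_iff]
    refine Measure.integrableOn_of_bounded (M := B) ?_ (hκm j).aestronglyMeasurable
      (Eventually.of_forall fun t => hκb j t)
    rw [Real.volume_uIoc]
    exact ENNReal.ofReal_ne_top
  have hz : ∀ j (a b : ℝ), a ≤ b → (∀ t ∈ Ioc a b, t ∉ Ioc (0 : ℝ) 1) →
      ∫ t in a..b, κ j t = 0 := by
    intro j a b hab hh
    have h1 : ∫ t in a..b, κ j t = ∫ t in a..b, (0 : ℝ) := by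
      refine intervalIntegral.integral_congr_ae (Eventually.of_forall fun t ht => ?_)
      rw [uIoc_of_le hab] at ht
      exact indicator_of_notMem (hh t ht) _
    rw [h1]
    simp
  have h01 : ∀ j, ∀ T ∈ Icc (0 : ℝ) 1, ∫ t in (0 : ℝ)..T, κ j t = ∫ t in (0 : ℝ)..T, k j t := by
    intro j T hT
    refine intervalIntegral.integral_congr_ae (Eventually.of_forall fun t ht => ?_)
    rw [uIoc_of_le hT.1] at ht
    exact indicator_of_mem (show t ∈ Ioc (0 : ℝ) 1 from ⟨ht.1, ht.2.trans hT.2⟩) _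
  have hT : ∀ T : ℝ, Tendsto (fun j => ∫ t in (0 : ℝ)..T, κ j t) atTop (𝓝 0) := by
    intro T
    rcases le_or_gt T 0 with h1 | h1
    · have e : ∀ j, ∫ t in (0 : ℝ)..T, κ j t = 0 := by
        intro j
        rw [intervalIntegral.integral_symm, hz j T 0 h1 (fun t ht h => absurd h.1 (not_lt.2 ht.2)),
          neg_zero]
      simp only [e]
      exact tendsto_const_nhds
    · rcases le_or_gt T 1 with h2 | h2
      · simp only [h01 _ T ⟨h1.le, h2⟩]
        exact rat_ext hm hb hq ⟨h1.le, h2⟩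
      · have e : ∀ j, ∫ t in (0 : ℝ)..T, κ j t = ∫ t in (0 : ℝ)..1, k j t := by
          intro j
          rw [← intervalIntegral.integral_add_adjacent_intervals (hii j 0 1) (hii j 1 T),
            h01 j 1 h11, hz j 1 T h2.le (fun t ht h => absurd h.2 (not_le.2 ht.1)), add_zero]
        simp only [e]
        exact rat_ext hm hb hq h11
  have h1 := Pool.Agent.Y401.QR.t_Dens κ (fun _ => 0) B hκm aemeasurable_const
    (fun j => Eventually.of_forall fun t => hκb j t)
    (Eventually.of_forall fun t => by rw [abs_zero]; exact hB) (fun α β _ => by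
      have e : ∀ j, ∫ t in α..β, κ j t =
          (∫ t in (0 : ℝ)..β, κ j t) - ∫ t in (0 : ℝ)..α, κ j t := fun j =>
        (intervalIntegral.integral_interval_sub_left (hii j 0 β) (hii j 0 α)).symm
      simp only [e, intervalIntegral.integral_zero]
      have := (hT β).sub (hT α)
      rwa [sub_zero] at this) χ hχ
  simp only [mul_zero, integral_zero] at h1
  refine h1.congr fun j => ?_
  refine integral_congr_ae ?_
  have hne : ∀ᵐ t : ℝ, t ≠ 0 := by
    rw [ae_iff]
    simp
  filter_upwards [hne] with t ht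
  by_cases htI : t ∈ Icc (0 : ℝ) 1
  · have : t ∈ Ioc (0 : ℝ) 1 := ⟨lt_of_le_of_ne htI.1 (Ne.symm ht), htI.2⟩
    simp only [hκ]
    rw [indicator_of_mem this]
  · rw [h0 t htI, zero_mul, zero_mul]

end real

variable {M E : Type} [MetricSpace M] [CompactSpace M] [MeasurableSpace M] [BorelSpace M]
  [AddCommGroup E] [Module ℝ E] [TopologicalSpace E] [IsTopologicalAddGroup E]
  [ContinuousSMul ℝ E] {D : Data M} {m : E → Measure M} {A A' : E → Fin D.N → ℂ → ℂ →L[ℝ] ℂ}
  {h : E} {K : E → ℝ}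

theorem near0 {K : E → ℝ} (hK : Continuous K) {N : ℝ} (hN : K 0 < N) {η : ℕ → ℝ}
    (hη : Tendsto η atTop (𝓝 0)) (φ : E) :
    ∀ᶠ j in atTop, ∀ t ∈ Icc (0 : ℝ) 1, K (η j • trs h t φ) ≤ N := by
  have h1 : ∀ᶠ e : ℝ in 𝓝 0, ∀ t ∈ Icc (0 : ℝ) 1, K (e • trs h t φ) ≤ N := by
    refine isCompact_Icc.eventually_forall_of_forall_eventually fun t _ => ?_
    have hc : Continuous fun p : ℝ × ℝ => K (p.1 • trs h p.2 φ) := by
      unfold trs
      exact hK.comp (continuous_fst.smul (continuous_const.add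
        (continuous_snd.smul continuous_const)))
    have h2 := hc.tendsto (0, t)
    have h3 : K ((0 : ℝ) • trs h t φ) < N := by rwa [zero_smul]
    exact (h2.eventually (gt_mem_nhds h3)).mono fun p hp => hp.le
  exact hη.eventually h1

variable [MeasurableSpace E] [BorelSpace E]

/-- one direction -/
theorem inf1 [Nonempty M] (hR : Rm D m A) (hV : Ve D A A' (trs h) K) (P : Measure E)
    [IsProbabilityMeasure P] (hP : ∀ t, P.map (trs h t) ≪ P) {u : E → ℕ → M → ℝ}
    {lam r : E → ℕ → ℝ} (hu : ∀ o, EigBasis (chg D (A o)) (m o) (u o) (lam o))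
    (hr : ∀ o j, Rate D (m o) (A o) (A' o) (ts D (A o) (A' o)) (lam o j) (u o j) (r o j))
    {J₀ : ℕ} (hJ₀ : ∀ j, J₀ ≤ j → ∀ o, 0 < lam o j) {N : ℝ} (hN : K 0 < N) {η : ℕ → ℝ}
    (hη0 : ∀ j, 0 < η j) (hηt : Tendsto η atTop (𝓝 0))
    (hW : ∀ᵐ φ ∂P, Tendsto (fun j => |WW m lam j (η j • φ)| / η j) atTop (𝓝 0)) :
    (∀ j, J₀ ≤ j → AEStronglyMeasurable ({φ | K (η j • φ) ≤ N}.indicator (fun φ =>
      quo (m (η j • φ)) (ts D (A (η j • φ)) (A' (η j • φ))) (lam (η j • φ) j) (u (η j • φ) j)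
        (r (η j • φ) j) - mts D (m (η j • φ)) (A (η j • φ)) (A' (η j • φ)))) P) ∧
    (∀ j, J₀ ≤ j → ∀ φ, |{φ | K (η j • φ) ≤ N}.indicator (fun φ =>
      quo (m (η j • φ)) (ts D (A (η j • φ)) (A' (η j • φ))) (lam (η j • φ) j) (u (η j • φ) j)
        (r (η j • φ) j) - mts D (m (η j • φ)) (A (η j • φ)) (A' (η j • φ))) φ| ≤ 8 * |N|) ∧
    ∀ χ : E → ℝ, Integrable χ P → Tendsto (fun j => ∫ φ, χ φ *
      {φ | K (η j • φ) ≤ N}.indicator (fun φ =>
      quo (m (η j • φ)) (ts D (A (η j • φ)) (A' (η j • φ))) (lam (η j • φ) j) (u (η j • φ) j)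
        (r (η j • φ) j) - mts D (m (η j • φ)) (A (η j • φ)) (A' (η j • φ))) φ ∂P) atTop (𝓝 0) := by
  classical
  set Q : ℕ → E → ℝ := fun j o => quo (m o) (ts D (A o) (A' o)) (lam o j) (u o j) (r o j) with hQ
  set Y : E → ℝ := fun o => mts D (m o) (A o) (A' o) with hY
  have hK0 : ∀ o, 0 ≤ K o := fun o => K_nonneg (hR.surf o) (hV.bdd o)
  have hN0 : 0 < N := (hK0 0).trans_lt hN
  have hQb : ∀ j, J₀ ≤ j → ∀ o, |Q j o| ≤ 6 * K o := fun j hj o =>
    quo_le' hR hV hu hr o (hJ₀ j hj o)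
  have hYb : ∀ o, |Y o| ≤ 2 * K o := mts_le hR hV
  have hYm : Measurable Y := mts_meas hR hV hu hr
  -- scaled families
  have hRs := fun j => hR.scale (η j)
  have hVs := fun j => hV.scale (η j)
  have hrs : ∀ i (o : E) j, Rate D (m (η i • o)) (A (η i • o)) (fun k z => η i • A' (η i • o) k z)
      (ts D (A (η i • o)) fun k z => η i • A' (η i • o) k z) (lam (η i • o) j) (u (η i • o) j)
      (η i * r (η i • o) j) := fun i o j => rate_smul (η i) (hr _ j)
  have hver := fun i => ver (hRs i) (hVs i) (P := P) hP (fun o => hu (η i • o)) (hrs i)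
    (J₀ := J₀) (fun j hj o => hJ₀ j hj _) (η i * N)
  choose X hXm hXb hXP hXo using hver
  have hset : ∀ i, {φ : E | |η i| * K (η i • φ) ≤ η i * N} = {φ | K (η i • φ) ≤ N} := by
    intro i
    ext φ
    simp only [mem_ofPred_eq, abs_of_pos (hη0 i)]
    exact mul_le_mul_iff_right₀ (hη0 i)
  have hind : ∀ i j φ, {φ : E | |η i| * K (η i • φ) ≤ η i * N}.indicator (fun o =>
      quo (m (η i • o)) (ts D (A (η i • o)) fun k z => η i • A' (η i • o) k z) (lam (η i • o) j)
      (u (η i • o) j) (η i * r (η i • o) j)) φ =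
      η i * {φ | K (η i • φ) ≤ N}.indicator (fun φ => Q j (η i • φ)) φ := by
    intro i j φ
    rw [hset]
    by_cases hφ : φ ∈ {φ | K (η i • φ) ≤ N}
    · rw [indicator_of_mem hφ, indicator_of_mem hφ, quo_smul]
    · rw [indicator_of_notMem hφ, indicator_of_notMem hφ, mul_zero]
  simp only [hind] at hXP hXo
  -- the functions on the space of parameters
  set Z : ℕ → E → ℝ := fun j φ => {φ | K (η j • φ) ≤ N}.indicator
    (fun φ => Q j (η j • φ) - Y (η j • φ)) φ with hZ
  have hsN : ∀ j, MeasurableSet {φ | K (η j • φ) ≤ N} := fun j =>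
    measurableSet_le (hV.Kc.comp (continuous_const_smul (η j))).measurable measurable_const
  set Z' : ℕ → E → ℝ := fun j φ => (η j)⁻¹ * X j j φ -
    {φ | K (η j • φ) ≤ N}.indicator (fun φ => Y (η j • φ)) φ with hZ'
  have hZZ : ∀ j φ, X j j φ = η j * {φ | K (η j • φ) ≤ N}.indicator (fun φ => Q j (η j • φ)) φ →
      Z' j φ = Z j φ := by
    intro j φ hφ
    simp only [hZ', hZ]
    rw [hφ, ← mul_assoc, inv_mul_cancel₀ (hη0 j).ne', one_mul]
    by_cases hφ : φ ∈ {φ | K (η j • φ) ≤ N}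
    · rw [indicator_of_mem hφ, indicator_of_mem hφ, indicator_of_mem hφ]
    · rw [indicator_of_notMem hφ, indicator_of_notMem hφ, indicator_of_notMem hφ, sub_zero]
  have hYN : ∀ j φ, |{φ | K (η j • φ) ≤ N}.indicator (fun φ => Y (η j • φ)) φ| ≤ 2 * |N| := by
    intro j φ
    by_cases hφ : φ ∈ {φ | K (η j • φ) ≤ N}
    · rw [indicator_of_mem hφ]
      refine (hYb _).trans ?_
      have h1 : K (η j • φ) ≤ N := hφ
      have := le_abs_self N
      linarith
    · rw [indicator_of_notMem hφ, abs_zero]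
      positivity
  have hZ'm : ∀ j, Measurable (Z' j) := fun j =>
    ((hXm j j).const_mul _).sub ((hYm.comp (continuous_const_smul (η j)).measurable).indicator
      (hsN j))
  have hZ'b : ∀ j φ, |Z' j φ| ≤ 8 * |N| := by
    intro j φ
    refine (abs_sub _ _).trans ?_
    have h1 : |(η j)⁻¹ * X j j φ| ≤ 6 * |N| := by
      rw [abs_mul, abs_of_pos (inv_pos.2 (hη0 j)), inv_mul_le_iff₀ (hη0 j)]
      refine (hXb j j φ).trans (le_of_eq ?_)
      rw [abs_mul, abs_of_pos (hη0 j)]
      ring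
    linarith [hYN j φ]
  have hZb : ∀ j, J₀ ≤ j → ∀ φ, |Z j φ| ≤ 8 * |N| := by
    intro j hj φ
    simp only [hZ]
    by_cases hφ : φ ∈ {φ | K (η j • φ) ≤ N}
    · rw [indicator_of_mem hφ]
      have h1 : K (η j • φ) ≤ N := hφ
      have h2 := hQb j hj (η j • φ)
      have h3 := hYb (η j • φ)
      have h4 := le_abs_self N
      refine (abs_sub _ _).trans ?_
      linarith
    · rw [indicator_of_notMem hφ, abs_zero]
      positivity
  have hZae : ∀ j, J₀ ≤ j → Z' j =ᵐ[P] Z j := by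
    intro j hj
    filter_upwards [hXP j j hj] with φ hφ
    exact hZZ j φ hφ
  refine ⟨fun j hj => (hZ'm j).aestronglyMeasurable.congr (hZae j hj), hZb, fun χ hχ => ?_⟩
  -- the orbits
  have hflw : Flw P (trs h) := ⟨hV.flow.measurable, hV.zero, hV.add, hP⟩
  have hWq : ∀ᵐ φ ∂P, ∀ q : ℚ,
      Tendsto (fun j => |WW m lam j (η j • trs h q φ)| / η j) atTop (𝓝 0) := by
    rw [ae_all_iff]
    intro q
    have h1 : Measurable (trs h q) := by
      have : Continuous (trs h (q : ℝ)) := by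
        unfold trs
        exact continuous_id.add continuous_const
      exact this.measurable
    exact ae_of_ae_map h1.aemeasurable ((hP q).ae_le hW)
  have hmain := qw2 P hflw Z' (fun _ => 0) (8 * |N|) hZ'm measurable_const hZ'b
    (fun _ => by rw [abs_zero]; positivity) (by
      filter_upwards [hWq] with φ hφ χ' hχ' h0
      simp only [mul_zero, integral_zero]
      obtain ⟨j₁, hj₁⟩ := eventually_atTop.1 (near0 (h := h) hV.Kc hN hηt φ)
      have hftc : ∀ j, J₀ ≤ j → ∃ κ : ℝ → ℝ, AEMeasurable κ volume ∧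
          (∀ t, |t| < 2 → κ t = η j * (Q j (η j • trs h t φ) - Y (η j • trs h t φ))) ∧
          ∀ α β, |α| < 2 → |β| < 2 → α ≤ β → ∫ t in α..β, κ t =
            WW m lam j (η j • trs h α φ) - WW m lam j (η j • trs h β φ) := by
        intro j hj
        obtain ⟨κ, k1, -, k3, k4⟩ := ftc (hRs j) (hVs j) (fun o => hu (η j • o)) (hrs j) φ
          two_pos (j := j) (fun o => hJ₀ j hj _)
        refine ⟨κ, k1, fun t ht => ?_, k4⟩
        rw [k3 t ht, quo_smul, mts_smul, mul_sub]
      choose! κ k1 k3 k4 using hftc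
      set j₂ : ℕ := max j₁ J₀ with hj₂
      set k : ℕ → ℝ → ℝ := fun j => if j₂ ≤ j then fun t => (η j)⁻¹ * κ j t else fun _ => 0
        with hk
      have hkj : ∀ j, j₂ ≤ j → k j = fun t => (η j)⁻¹ * κ j t := fun j hj => if_pos hj
      have hkm : ∀ j, AEMeasurable (k j) volume := by
        intro j
        by_cases hj : j₂ ≤ j
        · rw [hkj j hj]
          exact (k1 j ((le_max_right _ _).trans hj)).const_mul _
        · have : k j = fun _ => 0 := if_neg hj
          rw [this]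
          exact aemeasurable_const
      have hkt : ∀ j, j₂ ≤ j → ∀ t ∈ Icc (0 : ℝ) 1, k j t = Z j (trs h t φ) := by
        intro j hj t ht
        have ht2 : |t| < 2 := by
          rw [abs_of_nonneg ht.1]
          linarith [ht.2]
        have h2 : trs h t φ ∈ {φ | K (η j • φ) ≤ N} := hj₁ j ((le_max_left _ _).trans hj) t ht
        rw [hkj j hj]
        simp only [hZ]
        rw [indicator_of_mem h2, k3 j ((le_max_right _ _).trans hj) t ht2, ← mul_assoc,
          inv_mul_cancel₀ (hη0 j).ne', one_mul]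
      have hkb : ∀ j, ∀ t ∈ Icc (0 : ℝ) 1, |k j t| ≤ 8 * |N| := by
        intro j t ht
        by_cases hj : j₂ ≤ j
        · rw [hkt j hj t ht]
          exact hZb j ((le_max_right _ _).trans hj) _
        · have : k j = fun _ => 0 := if_neg hj
          rw [this, abs_zero]
          positivity
      have hkq : ∀ q : ℚ, (q : ℝ) ∈ Icc (0 : ℝ) 1 →
          Tendsto (fun j => ∫ t in (0 : ℝ)..q, k j t) atTop (𝓝 0) := by
        intro q hq
        have h1 := hφ q
        have h2 := hφ 0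
        rw [tendsto_zero_iff_abs_tendsto_zero]
        have h3 := h2.add h1
        rw [add_zero] at h3
        refine squeeze_zero' (Eventually.of_forall fun j => abs_nonneg _) ?_ h3
        filter_upwards [eventually_ge_atTop j₂] with j hj
        rw [Function.comp_apply, hkj j hj, intervalIntegral.integral_const_mul,
          k4 j ((le_max_right _ _).trans hj) 0 q (by rw [abs_zero]; exact two_pos)
            (by rw [abs_of_nonneg hq.1]; linarith [hq.2]) hq.1, abs_mul,
          abs_of_pos (inv_pos.2 (hη0 j)), inv_mul_eq_div, ← add_div]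
        rw [Rat.cast_zero]
        exact div_le_div_of_nonneg_right (abs_sub _ _) (hη0 j).le
      have hd := dens01 hkm hkb hkq hχ' h0
      refine hd.congr' ?_
      filter_upwards [eventually_ge_atTop j₂] with j hj
      refine integral_congr_ae ?_
      filter_upwards [hXo j φ] with t ht
      by_cases htI : t ∈ Icc (0 : ℝ) 1
      · rw [hkt j hj t htI, hZZ j _ (ht j ((le_max_right _ _).trans hj))]
      · rw [h0 t htI, zero_mul, zero_mul]) χ hχ
  simp only [mul_zero, integral_zero] at hmain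
  refine hmain.congr' ?_
  filter_upwards [eventually_ge_atTop J₀] with j hj
  refine integral_congr_ae ?_
  filter_upwards [hZae j hj] with φ hφ
  rw [hφ]

end Pool.Agent.Helper34.QJ
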