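import Pool.Agent.Helper34.QJ.Inf

/-!
# Infinitesimal perturbations: the theorem
-/

set_option autoImplicit false
set_option linter.unusedSectionVars false

open Set Filter Topology MeasureTheory
open scoped Real

noncomputable section

namespace Pool.Agent.Helper34.QJ

open Pool.Agent.Y262.QE Pool.Agent.Y264.QR Pool.Agent.Y708.QE

section cont

variable {M Ω : Type} [MetricSpace M] [CompactSpace M] [MeasurableSpace M] [BorelSpace M]
  [TopologicalSpace Ω] {D : Data M} {m : Ω → Measure M} {A : Ω → Fin D.N → ℂ → ℂ →L[ℝ] ℂ}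

theorem dr_near {μ ν : Measure M} {A B : Fin D.N → ℂ → ℂ →L[ℝ] ℂ} (hA : (chg D A).IsSurf μ)
    (hB : (chg D B).IsSurf ν) {ε : ℝ} (hε : 0 < ε) (hε1 : ε ≤ 1)
    (h : ∀ i, ∀ z ∈ D.T i, ∀ v, ‖B i z v‖ ≤ (1 + ε) * ‖A i z v‖ ∧
      ‖A i z v‖ ≤ (1 + ε) * ‖B i z v‖) (x : M) : |dr D A B x - 1| ≤ 3 * ε := by
  obtain ⟨i, hi, hz⟩ := pcx hA x
  have hdA : 0 < |(A i (D.φ i x)).det| := abs_pos.2 (hA.det i _ hz)
  have hdB : 0 < |(B i (D.φ i x)).det| := abs_pos.2 (hB.det i _ hz)
  have h1 := det_le (hA.det i _ hz) (fun v => (h i _ hz v).1)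
  have h2 := det_le (hB.det i _ hz) (fun v => (h i _ hz v).2)
  rw [dr_eq hi]
  have h3 : |(B i (D.φ i x)).det| / |(A i (D.φ i x)).det| ≤ 1 + 3 * ε := by
    rw [div_le_iff₀ hdA]
    refine h1.trans (mul_le_mul_of_nonneg_right ?_ hdA.le)
    nlinarith
  have h4 : 1 - 3 * ε ≤ |(B i (D.φ i x)).det| / |(A i (D.φ i x)).det| := by
    rw [le_div_iff₀ hdA]
    have h5 : (1 - 3 * ε) * (1 + ε) ^ 2 ≤ 1 := by nlinarith [sq_nonneg ε, mul_pos hε hε]
    rcases le_or_gt (1 - 3 * ε) 0 with h6 | h6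
    · exact (mul_nonpos_of_nonpos_of_nonneg h6 hdA.le).trans hdB.le
    · calc (1 - 3 * ε) * |(A i (D.φ i x)).det| ≤
          (1 - 3 * ε) * ((1 + ε) ^ 2 * |(B i (D.φ i x)).det|) :=
            mul_le_mul_of_nonneg_left h2 h6.le
        _ = ((1 - 3 * ε) * (1 + ε) ^ 2) * |(B i (D.φ i x)).det| := by ring
        _ ≤ 1 * |(B i (D.φ i x)).det| := mul_le_mul_of_nonneg_right h5 hdB.le
        _ = _ := one_mul _
  rw [abs_le]
  constructor <;> linarith

/-- the mean value of the trace is continuous -/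
theorem mT_cont [Nonempty M] (hR : Rm D m A) {S : Ω → M → ℂ →L[ℝ] ℂ} {C : ℝ}
    (hS : ∀ o, Bf (m o) (S o) C) (o₀ : Ω)
    (h0 : ∀ ε : ℝ, 0 < ε → ∀ᶠ o in 𝓝 o₀, ∀ x, |tr (S o x) - tr (S o₀ x)| ≤ ε) :
    Tendsto (fun o => mT (m o) (S o)) (𝓝 o₀) (𝓝 (mT (m o₀) (S o₀))) := by
  have hC0 : 0 ≤ C := by
    obtain ⟨x⟩ := ‹Nonempty M›
    have h1 := (hS o₀).bd x 1
    rw [norm_one, mul_one] at h1
    exact (norm_nonneg _).trans h1
  have hp : 0 < (m o₀).real univ := area_pos (hR.surf o₀)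
  refine Tendsto.div ?_ (hR.area_cont.tendsto o₀) hp.ne'
  obtain ⟨hfin, -⟩ := tFin M _ _ (hR.surf o₀)
  have := hfin
  rw [Metric.tendsto_nhds]
  intro δ hδ
  set ε : ℝ := min 1 (δ / (2 * ((6 * C + 1) * (m o₀).real univ + 1))) with hε
  have hden : 0 < 2 * ((6 * C + 1) * (m o₀).real univ + 1) := by positivity
  have hε0 : 0 < ε := lt_min one_pos (by positivity)
  filter_upwards [hR.near o₀ ε hε0, h0 ε hε0] with o h1 h2
  have hdr : ∀ x, |dr D (A o₀) (A o) x - 1| ≤ 3 * ε :=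
    dr_near (hR.surf o₀) (hR.surf o) hε0 (min_le_left _ _) h1
  have e1 : ∫ x, tr (S o x) ∂(m o) = ∫ x, dr D (A o₀) (A o) x * tr (S o x) ∂(m o₀) := by
    have h3 : ∫ x, tr (S o x) ∂(m o) = ∫ x, tr (S o x) ∂(wm (m o₀) (dr D (A o₀) (A o))) := by
      rw [← dens (hR.surf o₀) (hR.surf o)]
    rw [h3, Pool.Agent.Y262.QE.integral_wm _ _ (dr_meas (hR.surf o₀) (hR.surf o))
      (fun x => (dr_pos (hR.surf o₀) (hR.surf o) x).le)]
  have hac : (m o₀) ≪ (m o) := by
    have e2 : m o₀ = wm (m o) (dr D (A o) (A o₀)) := dens (hR.surf o) (hR.surf o₀)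
    rw [e2]
    exact withDensity_absolutelyContinuous _ _
  have hmS : AEStronglyMeasurable (fun x => tr (S o x)) (m o₀) :=
    (tr_cont.comp_aestronglyMeasurable (hS o).meas).mono_ac hac
  have hb : ∀ x, |tr (S o x)| ≤ 2 * C := fun x => abs_tr_le ((hS o).bd x)
  have i1 : Integrable (fun x => dr D (A o₀) (A o) x * tr (S o x)) (m o₀) := by
    refine Integrable.of_bound ((dr_meas (hR.surf o₀) (hR.surf o)).aestronglyMeasurable.mul hmS)
      ((1 + 3 * ε) * (2 * C)) (Eventually.of_forall fun x => ?_)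
    rw [norm_mul]
    refine mul_le_mul ?_ (hb x) (norm_nonneg _) (by positivity)
    have h3 := hdr x
    rw [Real.norm_eq_abs]
    rw [abs_le] at h3 ⊢
    constructor <;> linarith [h3.1, h3.2]
  have i2 : Integrable (fun x => tr (S o₀ x)) (m o₀) := tr_int1 (hS o₀)
  rw [Real.dist_eq, e1, ← integral_sub i1 i2]
  have h4 : ∀ x, |dr D (A o₀) (A o) x * tr (S o x) - tr (S o₀ x)| ≤ (6 * C + 1) * ε := by
    intro x
    have e3 : dr D (A o₀) (A o) x * tr (S o x) - tr (S o₀ x) =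
        (dr D (A o₀) (A o) x - 1) * tr (S o x) + (tr (S o x) - tr (S o₀ x)) := by ring
    rw [e3]
    refine (abs_add_le _ _).trans ?_
    rw [abs_mul]
    have h5 := mul_le_mul (hdr x) (hb x) (abs_nonneg _) (by positivity)
    have h6 := h2 x
    linarith
  have h5 : |∫ x, (dr D (A o₀) (A o) x * tr (S o x) - tr (S o₀ x)) ∂(m o₀)| ≤
      (6 * C + 1) * ε * (m o₀).real univ := by
    have h6 := norm_integral_le_of_norm_le_const (μ := m o₀)
      (f := fun x => dr D (A o₀) (A o) x * tr (S o x) - tr (S o₀ x)) (C := (6 * C + 1) * ε)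
      (Eventually.of_forall fun x => h4 x)
    exact h6
  refine lt_of_le_of_lt h5 ?_
  have h6 : ε ≤ δ / (2 * ((6 * C + 1) * (m o₀).real univ + 1)) := min_le_right _ _
  rw [le_div_iff₀ hden] at h6
  nlinarith

end cont

variable {M E : Type} [MetricSpace M] [CompactSpace M] [MeasurableSpace M] [BorelSpace M]
  [AddCommGroup E] [Module ℝ E] [TopologicalSpace E] [IsTopologicalAddGroup E]
  [ContinuousSMul ℝ E] [MeasurableSpace E] [BorelSpace E] {D : Data M} {m : E → Measure M}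
  {A : E → Fin D.N → ℂ → ℂ →L[ℝ] ℂ}

/-- scaled test fields -/
theorem Tf.scale {ι : Type} {A' : ι → E → Fin D.N → ℂ → ℂ →L[ℝ] ℂ} {S : E → M → ℂ →L[ℝ] ℂ} {C : ℝ}
    (hS : Tf D m A A' S C) {η : ℝ} (hη : 0 < η) :
    Tf D (fun φ => m (η • φ)) (fun φ => A (η • φ)) (fun i φ k z => η • A' i (η • φ) k z)
      (fun φ => S (η • φ)) C := by
  refine ⟨fun φ => hS.bf _, fun ε hε φ => ?_⟩
  obtain ⟨s, c, h⟩ := hS.app ε hε (η • φ)
  refine ⟨s, fun i => c i * η⁻¹, ?_⟩
  filter_upwards [((continuous_const_smul η).tendsto φ).eventually h] with φ' h1 x w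
  have e : ∑ i ∈ s, c i * η⁻¹ *
      inner ℝ (sf D (A (η • φ')) (fun k z => η • A' i (η • φ') k z) x w) w =
      ∑ i ∈ s, c i * inner ℝ (sf D (A (η • φ')) (A' i (η • φ')) x w) w := by
    refine Finset.sum_congr rfl fun i _ => ?_
    rw [sf_smul, smul_apply, real_inner_smul_left]
    field_simp
  rw [e]
  exact h1 x w

/-- **Infinitesimal perturbations.** -/
theorem infm [Nonempty M] [SecondCountableTopology E] (hR : Rm D m A) {ι : Type} {h : ι → E}
    {A' : ι → E → Fin D.N → ℂ → ℂ →L[ℝ] ℂ} {K : ι → E → ℝ}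
    (hV : ∀ i, Ve D A (A' i) (trs (h i)) (K i)) {S : E → M → ℂ →L[ℝ] ℂ} {C : ℝ}
    (hS : Tf D m A A' S C)
    (hS0 : ∀ ε : ℝ, 0 < ε → ∀ᶠ o in 𝓝 (0 : E), ∀ x, |tr (S o x) - tr (S 0 x)| ≤ ε)
    (P : Measure E) [IsProbabilityMeasure P]
    (hP : ∀ i t, P.map (trs (h i) t) ≪ P) {u : E → ℕ → M → ℝ}
    {lam r : E → ℕ → ℝ} (hu : ∀ o, EigBasis (chg D (A o)) (m o) (u o) (lam o))
    (hr : ∀ o j, St D (m o) (A o) (S o) (lam o j) (u o j) (r o j)) {η : ℕ → ℝ}
    (hη0 : ∀ j, 0 < η j) (hηt : Tendsto η atTop (𝓝 0))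
    (hW : ∀ᵐ φ ∂P, Tendsto (fun j => |WW m lam j (η j • φ)| / η j) atTop (𝓝 0)) :
    (∃ J : ℕ, ∀ j, J ≤ j → AEStronglyMeasurable
      (fun φ => quo (m (η j • φ)) (fun x => tr (S (η j • φ) x)) (lam (η j • φ) j) (u (η j • φ) j)
        (r (η j • φ) j)) P) ∧
    (∀ χ : E → ℝ, Integrable χ P → Tendsto
      (fun j => ∫ φ, χ φ * quo (m (η j • φ)) (fun x => tr (S (η j • φ) x)) (lam (η j • φ) j)
        (u (η j • φ) j) (r (η j • φ) j) ∂P) atTop
      (𝓝 (mT (m 0) (S 0) * ∫ φ, χ φ ∂P))) ∧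
    ∀ J : ℕ → ℕ, Tendsto J atTop atTop → ∀ᵐ φ ∂P, ∀ L : ℝ,
      Tendsto (fun k => quo (m (η (J k) • φ)) (fun x => tr (S (η (J k) • φ) x))
        (lam (η (J k) • φ) (J k)) (u (η (J k) • φ) (J k)) (r (η (J k) • φ) (J k))) atTop (𝓝 L) →
      L = mT (m 0) (S 0) := by
  classical
  have hne : Nonempty E := ⟨0⟩
  have hC0 : 0 ≤ C := by
    obtain ⟨x⟩ := ‹Nonempty M›
    have h1 := (hS.bf 0).bd x 1
    rw [norm_one, mul_one] at h1
    exact (norm_nonneg _).trans h1
  obtain ⟨J₀, hJ₀⟩ := hR.pos hu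
  have hbf : ∀ i o, Bf (m o) (sf D (A o) (A' i o)) (K i o) := fun i o =>
    sf_bf (hR.surf o) ((hV i).cont o) ((hV i).bdd o)
  choose r' hr' using fun (i : ι) (o : E) (j : ℕ) =>
    (st_ex (hR.surf o) ((hu o).eig j) (hbf i o)).exists
  set X : ℕ → E → ℝ := fun j o =>
    quo (m o) (fun x => tr (S o x)) (lam o j) (u o j) (r o j) with hX
  set Y : E → ℝ := fun o => mT (m o) (S o) with hY
  set N : ι → ℝ := fun i => K i 0 + 1 with hN
  have hinf := fun i => inf1 hR (hV i) P (hP i) hu (fun o j => rate_iff.2 (hr' i o j)) hJ₀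
    (N := N i) (by simp only [hN]; linarith) hη0 hηt hW
  set Z : ι → ℕ → E → ℝ := fun i j => {φ | K i (η j • φ) ≤ N i}.indicator (fun φ =>
      quo (m (η j • φ)) (ts D (A (η j • φ)) (A' i (η j • φ))) (lam (η j • φ) j) (u (η j • φ) j)
        (r' i (η j • φ) j) - mts D (m (η j • φ)) (A (η j • φ)) (A' i (η j • φ))) with hZ
  have hXb : ∀ j, J₀ ≤ j → ∀ o, |X j o| ≤ 6 * C := fun j hj o =>
    quo_le (hR.surf o) (hu o) (hJ₀ j hj o) (hS.bf o) (hr o j)
  have hYb : ∀ o, |Y o| ≤ 2 * C := fun o => by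
    refine mT_close (ε := C) (hR.surf o) fun x w => ?_
    refine (abs_real_inner_le_norm _ _).trans ?_
    have := mul_le_mul_of_nonneg_right ((hS.bf o).bd x w) (norm_nonneg w)
    rw [sq]
    linarith
  -- measurability, by the theorem for the scaled families
  have hsc := fun j => many0 (hR.scale (η j)) (fun i => (hV i).scale (η j)) (hS.scale (hη0 j)) P hP
    (fun o => hu (η j • o)) (fun o k => hr (η j • o) k) (J₀ := J₀) (fun k hk o => hJ₀ k hk _)
  have hXm : ∀ j, J₀ ≤ j → AEStronglyMeasurable (fun φ => X j (η j • φ)) P := fun j hj =>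
    (hsc j).1 j hj
  have hYm : ∀ j, AEStronglyMeasurable (fun φ => Y (η j • φ)) P := fun j => (hsc j).2.1
  -- comparison near zero
  have hcmp : ∀ ε : ℝ, 0 < ε → ∃ (s : Finset ι) (c : ι → ℝ), ∀ᶠ o in 𝓝 (0 : E),
      (∀ i ∈ s, K i o ≤ N i) ∧ ∀ j, J₀ ≤ j → |X j o - Y o - ∑ i ∈ s, c i *
        (quo (m o) (ts D (A o) (A' i o)) (lam o j) (u o j) (r' i o j) -
          mts D (m o) (A o) (A' i o))| ≤ ε := by
    intro ε hε
    obtain ⟨s, c, hs⟩ := hS.app (ε / 8) (by positivity) 0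
    have hKn : ∀ᶠ o' in 𝓝 (0 : E), ∀ i ∈ s, K i o' ≤ N i := by
      rw [eventually_all_finset]
      intro i _
      filter_upwards [((hV i).Kc.tendsto 0).eventually (gt_mem_nhds (lt_add_one (K i 0)))]
        with o' ho'
      exact ho'.le
    refine ⟨s, c, ?_⟩
    filter_upwards [hs, hKn] with o h1 h2
    refine ⟨h2, fun j hj => ?_⟩
    obtain ⟨e, he, hq⟩ := quo_eq (hR.surf o) (hu o) j
    obtain ⟨hfin, -⟩ := tFin M _ _ (hR.surf o)
    have := hfin
    have e1 : ∑ i ∈ s, c i * quo (m o) (ts D (A o) (A' i o)) (lam o j) (u o j) (r' i o j) =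
        qS (m o) e (lam o j) (u o j) (fun x => ∑ i ∈ s, c i • sf D (A o) (A' i o) x) := by
      rw [qS_sum s c (fun i => hbf i o) e _ (usq (hu o) j).1]
      refine Finset.sum_congr rfl fun i hi => ?_
      congr 1
      exact hq _ _ (hbf i o) _ (hr' i o j)
    have e2 : X j o = qS (m o) e (lam o j) (u o j) (S o) := hq _ _ (hS.bf o) _ (hr o j)
    have e3 : ∑ i ∈ s, c i * mts D (m o) (A o) (A' i o) =
        mT (m o) (fun x => ∑ i ∈ s, c i • sf D (A o) (A' i o) x) := by
      rw [mT_sum s c fun i => hbf i o]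
      rfl
    have e4 : X j o - Y o - ∑ i ∈ s, c i *
        (quo (m o) (ts D (A o) (A' i o)) (lam o j) (u o j) (r' i o j) -
          mts D (m o) (A o) (A' i o)) =
        qS (m o) e (lam o j) (u o j) (fun x => S o x - ∑ i ∈ s, c i • sf D (A o) (A' i o) x) -
        mT (m o) (fun x => S o x - ∑ i ∈ s, c i • sf D (A o) (A' i o) x) := by
      rw [qS_sub (hS.bf o) (Bf.sum s c fun i => hbf i o) e _ (usq (hu o) j).1,
        mT_sub (hS.bf o) (Bf.sum s c fun i => hbf i o), ← e1, ← e2, ← e3]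
      simp only [mul_sub, Finset.sum_sub_distrib, hY]
      ring
    rw [e4]
    have hcl : ∀ x w, |inner ℝ ((S o x - ∑ i ∈ s, c i • sf D (A o) (A' i o) x) w) w| ≤
        ε / 8 * ‖w‖ ^ 2 := fun x w => by
      rw [inner_comb]
      exact h1 x w
    have h3 := qS_close (ε := ε / 8) (hJ₀ _ hj o) (usq (hu o) j).1 (usq (hu o) j).2 he
      (S := fun x => S o x - ∑ i ∈ s, c i • sf D (A o) (A' i o) x) hcl
    have h4 := mT_close (ε := ε / 8) (hR.surf o)
      (S := fun x => S o x - ∑ i ∈ s, c i • sf D (A o) (A' i o) x) hcl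
    exact (abs_sub _ _).trans (by linarith)
  -- the limit of the differences
  have hdiff : ∀ χ : E → ℝ, Integrable χ P →
      Tendsto (fun j => ∫ φ, χ φ * (X j (η j • φ) - Y (η j • φ)) ∂P) atTop (𝓝 0) := by
    intro χ hχ
    rw [Metric.tendsto_atTop]
    intro δ hδ
    have hI : 0 ≤ ∫ φ, |χ φ| ∂P := integral_nonneg fun o => abs_nonneg _
    set ε : ℝ := δ / (4 * ((∫ φ, |χ φ| ∂P) + 1)) with hε
    have hε0 : 0 < ε := by positivity
    obtain ⟨s, c, hsc'⟩ := hcmp ε hε0
    obtain ⟨U, hU, hUo, hU0⟩ := mem_nhds_iff.1 hsc'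
    set G : ℕ → E → ℝ := fun j φ => ∑ i ∈ s, c i * Z i j φ with hG
    have hZm : ∀ i j, J₀ ≤ j → AEStronglyMeasurable (Z i j) P := fun i j hj => (hinf i).1 j hj
    have hZb : ∀ i j, J₀ ≤ j → ∀ φ, |Z i j φ| ≤ 8 * |N i| := fun i j hj => (hinf i).2.1 j hj
    have hGlim : Tendsto (fun j => ∫ φ, χ φ * G j φ ∂P) atTop (𝓝 0) := by
      have h1 : Tendsto (fun j => ∑ i ∈ s, c i * ∫ φ, χ φ * Z i j φ ∂P) atTop
          (𝓝 (∑ i ∈ s, c i * 0)) :=
        tendsto_finsetSum s fun i _ => ((hinf i).2.2 χ hχ).const_mul (c i)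
      simp only [mul_zero, Finset.sum_const_zero] at h1
      refine h1.congr' ?_
      filter_upwards [eventually_ge_atTop J₀] with j hj
      have e2 : ∀ φ, χ φ * G j φ = ∑ i ∈ s, c i * (χ φ * Z i j φ) := by
        intro φ
        simp only [hG]
        rw [Finset.mul_sum]
        exact Finset.sum_congr rfl fun i _ => by ring
      simp only [e2]
      rw [integral_finsetSum _ fun i _ => (hχ.mul_bdd (c := 8 * |N i|) (hZm i j hj)
        (Eventually.of_forall fun o => hZb i j hj o)).const_mul (c i)]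
      exact Finset.sum_congr rfl fun i _ => (integral_const_mul _ _).symm
    set B : ℝ := 8 * C + ∑ i ∈ s, |c i| * (8 * |N i|) with hB
    have hB0 : 0 ≤ B := by
      have : 0 ≤ ∑ i ∈ s, |c i| * (8 * |N i|) := Finset.sum_nonneg fun i _ => by positivity
      linarith
    set b : ℕ → E → ℝ := fun j φ => {φ | η j • φ ∉ U}.indicator (fun _ => (1 : ℝ)) φ with hb
    have hbm : ∀ j, Measurable (b j) := fun j => by
      have h1 : MeasurableSet {φ : E | η j • φ ∉ U} :=
        ((hUo.preimage (continuous_const_smul (η j))).measurableSet).compl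
      exact measurable_const.indicator h1
    have hb01 : ∀ j φ, 0 ≤ b j φ ∧ b j φ ≤ 1 := by
      intro j φ
      simp only [hb]
      by_cases hφ : φ ∈ {φ | η j • φ ∉ U}
      · rw [indicator_of_mem hφ]
        exact ⟨zero_le_one, le_rfl⟩
      · rw [indicator_of_notMem hφ]
        exact ⟨le_rfl, zero_le_one⟩
    have hblim : Tendsto (fun j => ∫ φ, |χ φ| * b j φ ∂P) atTop (𝓝 0) := by
      have h1 : Tendsto (fun j => ∫ φ, |χ φ| * b j φ ∂P) atTop (𝓝 (∫ _ : E, (0 : ℝ) ∂P)) := by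
        refine tendsto_integral_of_dominated_convergence (fun φ => |χ φ|)
          (fun j => hχ.abs.aestronglyMeasurable.mul (hbm j).aestronglyMeasurable) hχ.abs ?_ ?_
        · intro j
          refine Eventually.of_forall fun φ => ?_
          rw [norm_mul, Real.norm_eq_abs, abs_abs, Real.norm_eq_abs, abs_of_nonneg (hb01 j φ).1]
          exact mul_le_of_le_one_right (abs_nonneg _) (hb01 j φ).2
        · refine Eventually.of_forall fun φ => ?_
          have h2 : Tendsto (fun j => η j • φ) atTop (𝓝 0) := by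
            have := hηt.smul_const φ
            rwa [zero_smul] at this
          refine tendsto_const_nhds.congr' ?_
          filter_upwards [h2.eventually (hUo.mem_nhds hU0)] with j hj
          simp only [hb]
          have hn : φ ∉ {φ | η j • φ ∉ U} := fun hn => (show η j • φ ∉ U from hn) hj
          rw [indicator_of_notMem hn, mul_zero]
      rwa [integral_zero] at h1
    obtain ⟨J₁, hJ₁⟩ := Metric.tendsto_atTop.1 hGlim (δ / 4) (by positivity)
    obtain ⟨J₂, hJ₂⟩ := Metric.tendsto_atTop.1 hblim (δ / (4 * (B + 1))) (by positivity)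
    refine ⟨max J₀ (max J₁ J₂), fun j hj => ?_⟩
    have hj0 : J₀ ≤ j := (le_max_left _ _).trans hj
    have a1 := hJ₁ j ((le_max_left _ _).trans ((le_max_right _ _).trans hj))
    have a2 := hJ₂ j ((le_max_right _ _).trans ((le_max_right _ _).trans hj))
    rw [Real.dist_eq, sub_zero] at a1 a2 ⊢
    have hGb : ∀ φ, |G j φ| ≤ ∑ i ∈ s, |c i| * (8 * |N i|) := by
      intro φ
      refine (Finset.abs_sum_le_sum_abs _ _).trans (Finset.sum_le_sum fun i _ => ?_)
      rw [abs_mul]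
      exact mul_le_mul_of_nonneg_left (hZb i j hj0 φ) (abs_nonneg _)
    have hXYb : ∀ φ, |X j (η j • φ) - Y (η j • φ)| ≤ 8 * C := fun φ =>
      (abs_sub _ _).trans (by linarith [hXb j hj0 (η j • φ), hYb (η j • φ)])
    have hGm : AEStronglyMeasurable (G j) P :=
      Finset.aestronglyMeasurable_fun_sum s fun i _ => (hZm i j hj0).const_mul (c i)
    have hd : ∀ φ, |χ φ * (X j (η j • φ) - Y (η j • φ)) - χ φ * G j φ| ≤
        ε * |χ φ| + B * (|χ φ| * b j φ) := by
      intro φ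
      rw [← mul_sub, abs_mul]
      by_cases hφ : η j • φ ∈ U
      · obtain ⟨g1, g2⟩ := hU hφ
        have g3 := g2 j hj0
        have g4 : G j φ = ∑ i ∈ s, c i *
            (quo (m (η j • φ)) (ts D (A (η j • φ)) (A' i (η j • φ))) (lam (η j • φ) j)
              (u (η j • φ) j) (r' i (η j • φ) j) -
            mts D (m (η j • φ)) (A (η j • φ)) (A' i (η j • φ))) := by
          simp only [hG, hZ]
          refine Finset.sum_congr rfl fun i hi => ?_
          rw [indicator_of_mem (show φ ∈ {φ | K i (η j • φ) ≤ N i} from g1 i hi)]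
        rw [g4]
        have g5 := mul_le_mul_of_nonneg_left g3 (abs_nonneg (χ φ))
        have g6 : 0 ≤ B * (|χ φ| * b j φ) :=
          mul_nonneg hB0 (mul_nonneg (abs_nonneg _) (hb01 j φ).1)
        linarith
      · have g1 : b j φ = 1 := by
          simp only [hb]
          exact indicator_of_mem (show φ ∈ {φ | η j • φ ∉ U} from hφ) _
        rw [g1, mul_one]
        have g2 : |X j (η j • φ) - Y (η j • φ) - G j φ| ≤ B :=
          (abs_sub _ _).trans (by
            have := hXYb φ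
            have := hGb φ
            linarith)
        have g3 := mul_le_mul_of_nonneg_left g2 (abs_nonneg (χ φ))
        have g4 : 0 ≤ ε * |χ φ| := by positivity
        linarith
    have i1 : Integrable (fun φ => χ φ * (X j (η j • φ) - Y (η j • φ))) P :=
      hχ.mul_bdd (c := 8 * C) ((hXm j hj0).sub (hYm j)) (Eventually.of_forall hXYb)
    have i2 : Integrable (fun φ => χ φ * G j φ) P :=
      hχ.mul_bdd (c := ∑ i ∈ s, |c i| * (8 * |N i|)) hGm (Eventually.of_forall hGb)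
    have i3 : Integrable (fun φ => |χ φ| * b j φ) P :=
      hχ.abs.mul_bdd (c := 1) (hbm j).aestronglyMeasurable
        (Eventually.of_forall fun φ => by
          rw [Real.norm_eq_abs, abs_of_nonneg (hb01 j φ).1]
          exact (hb01 j φ).2)
    have g1 : |∫ φ, χ φ * (X j (η j • φ) - Y (η j • φ)) ∂P - ∫ φ, χ φ * G j φ ∂P| ≤
        ε * (∫ φ, |χ φ| ∂P) + B * ∫ φ, |χ φ| * b j φ ∂P := by
      rw [← integral_sub i1 i2, ← integral_const_mul, ← integral_const_mul,
        ← integral_add (hχ.abs.const_mul ε) (i3.const_mul B), ← Real.norm_eq_abs]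
      exact norm_integral_le_of_norm_le ((hχ.abs.const_mul ε).add (i3.const_mul B))
        (Eventually.of_forall fun φ => hd φ)
    have g2 : ε * (∫ φ, |χ φ| ∂P) ≤ δ / 4 := by
      rw [hε, div_mul_eq_mul_div, div_le_div_iff₀ (by positivity) (by norm_num)]
      nlinarith
    have g3 : B * ∫ φ, |χ φ| * b j φ ∂P ≤ δ / 4 := by
      have g4 : ∫ φ, |χ φ| * b j φ ∂P < δ / (4 * (B + 1)) := (le_abs_self _).trans_lt a2
      rw [lt_div_iff₀ (by positivity)] at g4
      have g5 : 0 ≤ ∫ φ, |χ φ| * b j φ ∂P :=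
        integral_nonneg fun φ => mul_nonneg (abs_nonneg _) (hb01 j φ).1
      nlinarith
    have g4 := abs_add_le (∫ φ, χ φ * (X j (η j • φ) - Y (η j • φ)) ∂P - ∫ φ, χ φ * G j φ ∂P)
      (∫ φ, χ φ * G j φ ∂P)
    rw [sub_add_cancel] at g4
    linarith
  -- the limit of the mean values
  have hYlim : ∀ φ, Tendsto (fun j => Y (η j • φ)) atTop (𝓝 (Y 0)) := by
    intro φ
    have h2 : Tendsto (fun j => η j • φ) atTop (𝓝 0) := by
      have := hηt.smul_const φ
      rwa [zero_smul] at this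
    exact (mT_cont hR hS.bf 0 hS0).comp h2
  have hconv : ∀ χ : E → ℝ, Integrable χ P → Tendsto (fun j => ∫ φ, χ φ * X j (η j • φ) ∂P) atTop
      (𝓝 (∫ φ, χ φ * Y 0 ∂P)) := by
    intro χ hχ
    have h1 : Tendsto (fun j => ∫ φ, χ φ * Y (η j • φ) ∂P) atTop (𝓝 (∫ φ, χ φ * Y 0 ∂P)) := by
      refine tendsto_integral_of_dominated_convergence (fun φ => 2 * C * |χ φ|)
        (fun j => hχ.aestronglyMeasurable.mul (hYm j)) (hχ.abs.const_mul _) ?_ ?_
      · intro j
        refine Eventually.of_forall fun φ => ?_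
        rw [norm_mul, Real.norm_eq_abs, Real.norm_eq_abs, mul_comm]
        exact mul_le_mul_of_nonneg_right (hYb _) (abs_nonneg _)
      · exact Eventually.of_forall fun φ => (hYlim φ).const_mul (χ φ)
    have h2 := (hdiff χ hχ).add h1
    rw [zero_add] at h2
    refine h2.congr' ?_
    filter_upwards [eventually_ge_atTop J₀] with j hj
    have i1 : Integrable (fun φ => χ φ * (X j (η j • φ) - Y (η j • φ))) P :=
      hχ.mul_bdd (c := 8 * C) ((hXm j hj).sub (hYm j)) (Eventually.of_forall fun φ => by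
        refine (abs_sub _ _).trans ?_
        linarith [hXb j hj (η j • φ), hYb (η j • φ)])
    have i2 : Integrable (fun φ => χ φ * Y (η j • φ)) P :=
      hχ.mul_bdd (c := 2 * C) (hYm j) (Eventually.of_forall fun φ => hYb _)
    rw [← integral_add i1 i2]
    refine integral_congr_ae (Eventually.of_forall fun φ => ?_)
    beta_reduce
    ring
  refine ⟨⟨J₀, hXm⟩, fun χ hχ => ?_, ?_⟩
  · have h1 := hconv χ hχ
    rw [integral_mul_const, mul_comm] at h1
    exact h1
  · intro J hJ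
    have hql := Pool.Agent.Y401.QR.t_QL E P
      (fun j => if J₀ ≤ j then fun φ => X j (η j • φ) else fun _ => 0) (fun _ => Y 0) (6 * C)
      (fun j => by
        split_ifs with hj
        · exact hXm j hj
        · exact aestronglyMeasurable_const) aestronglyMeasurable_const
      (fun j => Eventually.of_forall fun o => by
        split_ifs with hj
        · exact hXb j hj _
        · rw [abs_zero]
          positivity) (Eventually.of_forall fun _ => by linarith [hYb 0]) (fun χ hχ => by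
        refine (hconv χ hχ).congr' ?_
        filter_upwards [eventually_ge_atTop J₀] with j hj
        rw [if_pos hj]) J hJ
    filter_upwards [hql] with o ho L hL
    refine ho L (hL.congr' ?_)
    filter_upwards [hJ.eventually (eventually_ge_atTop J₀)] with k hk
    rw [if_pos hk]

end Pool.Agent.Helper34.QJ
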