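import Pool.Agent.Helper34.QJ.Trans
import Pool.Agent.Helper34.QJ.Dens

/-!
# Stress and energy in the mean: one parameter
-/

set_option autoImplicit false
set_option linter.unusedSectionVars false

open Set Filter Topology MeasureTheory
open scoped Real ContDiff

noncomputable section

namespace Pool.Agent.Helper34.QJ

open Pool.Agent.Y262.QE Pool.Agent.Y264.QR Pool.Agent.Y708.QE

variable {M : Type} [MetricSpace M] [CompactSpace M] [MeasurableSpace M] [BorelSpace M]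
  {D : Data M} {μ : Measure M} {A A' : ℝ → Fin D.N → ℂ → ℂ →L[ℝ] ℂ} {w σ : ℝ → M → ℝ} {K : ℝ}
  {G : ℝ → HF (chg D (A 0)) μ →L[ℝ] Lp ℂ 2 μ} {S : ℝ → Lp ℂ 2 μ →L[ℝ] Lp ℂ 2 μ}
  {I : ℝ → HF (chg D (A 0)) μ →L[ℝ] Lp ℝ 2 μ} {N : ℝ → Lp ℝ 2 μ →L[ℝ] Lp ℝ 2 μ}

theorem fkb_eq (h : Fam D μ A A' w σ K) (hO : OpG D μ A w G I) (hS : OpS D μ A A' σ S N) {t : ℝ}
    {v : HF (chg D (A 0)) μ} {u : M → ℝ} (hv : (v.1.fst : M → ℝ) =ᵐ[μ] u) :
    fkb I N t v v = ∫ x, σ t x * (u x) ^ 2 ∂(wm μ (w t)) := by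
  rw [fkb_self, inn, h.base.int]
  refine integral_congr_ae ?_
  filter_upwards [hO.hI t v, hS.hN t (I t v), hv] with x h1 h2 h3
  rw [h2, h1, h3]
  have := Real.mul_self_sqrt (h.base.wp t x).le
  calc Real.sqrt (w t x) * u x * (σ t x * (Real.sqrt (w t x) * u x)) =
      (Real.sqrt (w t x) * Real.sqrt (w t x)) * (σ t x * u x ^ 2) := by ring
    _ = _ := by rw [this]

/-- the density of the stress: `⟨(2 S - s) ∇F, ∇F⟩` with the strain `S = B' B⁻¹` -/
def sd {M : Type} (D : Data M) (B B' : Fin D.N → ℂ → ℂ →L[ℝ] ℂ) (s : M → ℝ) (F : M → ℝ)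
    (x : M) : ℝ :=
  2 * inner ℝ (sf D B B' x ((chg D B).gr F x)) ((chg D B).gr F x) -
    s x * ‖(chg D B).gr F x‖ ^ 2

theorem fka_vec (h : Fam D μ A A' w σ K) (hS : OpS D μ A A' σ S N) {t : ℝ}
    {f : HF (chg D (A 0)) μ} {F : M → ℝ}
    (hf : (G t f : M → ℂ) =ᵐ[μ] fun x => Real.sqrt (w t x) • (chg D (A t)).gr F x) :
    fka G S t f f = -∫ x, sd D (A t) (A' t) (σ t) F x ∂(wm μ (w t)) := by
  rw [fka_self, L2.inner_def, h.base.int, ← integral_const_mul]
  congr 1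
  refine integral_congr_ae ?_
  filter_upwards [hf, hS.hS t (G t f)] with x h1 h2
  rw [h2, h1]
  set y := (chg D (A t)).gr F x with hy
  have e3 : sf D (A t) (A' t) x (Real.sqrt (w t x) • y) - (σ t x / 2) • Real.sqrt (w t x) • y =
      Real.sqrt (w t x) • (sf D (A t) (A' t) x y - (σ t x / 2) • y) := by
    rw [map_smul, smul_sub, smul_comm (σ t x / 2)]
  have e4 : sd D (A t) (A' t) (σ t) F x = 2 * inner ℝ (sf D (A t) (A' t) x y) y -
    σ t x * ‖y‖ ^ 2 := rfl
  rw [e3, sq_smul (h.base.wp t x).le, inner_sub_right, real_inner_smul_right,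
    real_inner_self_eq_norm_sq, e4, real_inner_comm y]
  ring

/-- the vector of an eigenfunction, and the derivative of its energy -/
theorem evec2 (h : Fam D μ A A' w σ K) (hO : OpG D μ A w G I)
    (hS : OpS D μ A A' σ S N) {t lam : ℝ} {u : M → ℝ} (hu : MemLp u 2 (wm μ (w t)))
    {F : ℕ → M → ℝ} (hF : ES D (wm μ (w t)) (A t) lam u F) :
    ∃ v : HF (chg D (A 0)) μ, (v.1.fst : M → ℝ) =ᵐ[μ] u ∧ (∀ y, fa G t v y = lam * fb I t v y) ∧
      Tendsto (fun k => ∫ x, sd D (A t) (A' t) (σ t) (F k) x ∂(wm μ (w t))) atTop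
        (𝓝 (-fka G S t v v)) := by
  obtain ⟨v, f, hv, ev, hf, hlim⟩ := evec h.base hO hu hF
  refine ⟨v, hv, ev, ?_⟩
  have hcn : Continuous fun x => -fka G S t x x := by fun_prop
  have h1 : Tendsto (fun k => -fka G S t (f k) (f k)) atTop (𝓝 (-fka G S t v v)) :=
    (hcn.tendsto v).comp hlim
  refine h1.congr fun k => ?_
  rw [fka_vec h hS (hf k), neg_neg]

theorem Fam.path [Nonempty M] (h : Fam D μ A A' w σ K) (hO : OpG D μ A w G I)
    (hS : OpS D μ A A' σ S N) : Path (fa G) (fb I) (fka G S) (fkb I N) (4 * K) where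
  K0 := mul_nonneg (by norm_num) h.K0
  F := h.base.fm hO
  sa := fka_symm
  sb := fkb_symm
  ba := fka_le h hS
  bb := fkb_le h hS
  da := fun t _ hε => fa_der h hO hS t hε
  db := fun t _ hε => fb_der h hO hS t hε
  la := fun s t v => by
    have h1 := fa_le h.base hO s t v
    have e : (Real.exp (K * |s - t|) * Real.exp (K * |t - s|)) ^ 2 =
        Real.exp (4 * K * |s - t|) := by
      rw [abs_sub_comm t s, ← Real.exp_add, ← Real.exp_nat_mul]
      congr 1
      push_cast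
      ring
    rwa [e] at h1
  lb := fun s t v => by
    have h1 := fb_le h.base hO s t v
    have h2 : 0 ≤ fb I t v v := by rw [fb_self]; exact sq_nonneg _
    refine h1.trans (mul_le_mul_of_nonneg_right ?_ h2)
    rw [← Real.exp_nat_mul]
    refine Real.exp_le_exp.2 ?_
    have h3 : 0 ≤ K * |s - t| := mul_nonneg h.K0 (abs_nonneg _)
    push_cast
    linarith

/-- `r` is the stress of the eigenfunction `u` -/
def Rate {M : Type} [MeasurableSpace M] (D : Data M) (ν : Measure M)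
    (B B' : Fin D.N → ℂ → ℂ →L[ℝ] ℂ) (s : M → ℝ) (lam : ℝ) (u : M → ℝ) (r : ℝ) : Prop :=
  ∃ F : ℕ → M → ℝ, ES D ν B lam u F ∧
    Tendsto (fun k => ∫ x, sd D B B' s (F k) x ∂ν) atTop (𝓝 r)

theorem rate_ex [Nonempty M] (h : Fam D μ A A' w σ K) {t lam : ℝ} {u : M → ℝ}
    (hu : (chg D (A t)).IsEig (wm μ (w t)) lam u) :
    ∃! r, Rate D (wm μ (w t)) (A t) (A' t) (σ t) lam u r := by
  obtain ⟨G, I, hO⟩ := h.base.ops
  obtain ⟨S, N, hS⟩ := h.opS
  have hFm := h.base.fm hO t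
  obtain ⟨hmem, F, h1, h2, h3, h4⟩ := hu
  have hF : ES D (wm μ (w t)) (A t) lam u F := ⟨h1, h2, h3, h4⟩
  obtain ⟨v, hv, ev, hr⟩ := evec2 h hO hS hmem hF
  refine ⟨-fka G S t v v, ⟨F, hF, hr⟩, ?_⟩
  rintro r ⟨F', hF', hr'⟩
  obtain ⟨v', hv', ev', hs⟩ := evec2 h hO hS hmem hF'
  rw [tendsto_nhds_unique hr' hs, evec_unique h.base hO hFm hv hv' ev ev']

/-! ### The area -/

theorem Fam0.wint {C : ℝ → ℝ → ℝ} (h : Fam0 D μ A w C) [IsFiniteMeasure μ] (t : ℝ) :
    Integrable (w t) μ := by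
  refine Integrable.of_bound (h.wme t).aestronglyMeasurable (C t 0 ^ 2)
    (Eventually.of_forall fun x => ?_)
  rw [Real.norm_of_nonneg (h.wp t x).le]
  exact h.w_le t x

theorem Fam.swint (h : Fam D μ A A' w σ K) [IsFiniteMeasure μ] (t : ℝ) :
    Integrable (fun x => σ t x * w t x) μ :=
  (h.base.wint t).bdd_mul (c := 2 * K) (h.sm t).aestronglyMeasurable
    (Eventually.of_forall fun x => by rw [Real.norm_eq_abs]; exact h.sb t x)

theorem Fam.area (h : Fam D μ A A' w σ K) [IsFiniteMeasure μ] (t : ℝ) :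
    HasDerivAt (fun s => ∫ x, w s x ∂μ) (∫ x, σ t x * w t x ∂μ) t := by
  rw [hasDerivAt_iff_isLittleO_nhds_zero, Asymptotics.isLittleO_iff]
  intro c hc
  have hw0 : 0 ≤ ∫ x, w t x ∂μ := integral_nonneg fun x => (h.base.wp t x).le
  obtain ⟨δ, hδ, h1⟩ := h.wd t (c / ((∫ x, w t x ∂μ) + 1)) (by positivity)
  filter_upwards [Metric.ball_mem_nhds (0 : ℝ) hδ] with τ hτ
  have h2 : |τ| < δ := by
    rwa [Metric.mem_ball, dist_zero_right, Real.norm_eq_abs] at hτ
  have h3 := h1 τ h2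
  have e1 : (∫ x, w (t + τ) x ∂μ) - (∫ x, w t x ∂μ) - τ • ∫ x, σ t x * w t x ∂μ =
      ∫ x, (w (t + τ) x - w t x - τ * (σ t x * w t x)) ∂μ := by
    have g1 : Integrable (fun x => w (t + τ) x - w t x) μ :=
      (h.base.wint _).sub (h.base.wint _)
    have g2 : Integrable (fun x => τ * (σ t x * w t x)) μ := (h.swint t).const_mul τ
    rw [integral_sub g1 g2, integral_sub (h.base.wint _) (h.base.wint _), integral_const_mul,
      smul_eq_mul]
  rw [e1]
  have h4 : ‖∫ x, (w (t + τ) x - w t x - τ * (σ t x * w t x)) ∂μ‖ ≤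
      ∫ x, c / ((∫ x, w t x ∂μ) + 1) * |τ| * w t x ∂μ :=
    norm_integral_le_of_norm_le ((h.base.wint t).const_mul _)
      (Eventually.of_forall fun x => by rw [Real.norm_eq_abs]; exact h3 x)
  refine h4.trans ?_
  rw [integral_const_mul, Real.norm_eq_abs]
  have h5 : c / ((∫ x, w t x ∂μ) + 1) * (∫ x, w t x ∂μ) ≤ c := by
    rw [div_mul_eq_mul_div, div_le_iff₀ (by positivity)]
    nlinarith
  calc c / ((∫ x, w t x ∂μ) + 1) * |τ| * ∫ x, w t x ∂μ =
      (c / ((∫ x, w t x ∂μ) + 1) * ∫ x, w t x ∂μ) * |τ| := by ring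
    _ ≤ c * |τ| := mul_le_mul_of_nonneg_right h5 (abs_nonneg _)

/-- the quantity which tends to a constant in the mean -/
def quo {M : Type} [MeasurableSpace M] (ν : Measure M) (s : M → ℝ) (lam : ℝ) (u : M → ℝ)
    (r : ℝ) : ℝ :=
  r / lam + ∫ x, s x * (u x) ^ 2 ∂ν

/-- the one-parameter theorem, with the derivatives of the eigenvalues -/
theorem line [Nonempty M] (h : Fam D μ A A' w σ K) (u : ℝ → ℕ → M → ℝ) (lam r : ℝ → ℕ → ℝ)
    (hu : ∀ t, EigBasis (chg D (A t)) (wm μ (w t)) (u t) (lam t))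
    (hr : ∀ t j, Rate D (wm μ (w t)) (A t) (A' t) (σ t) (lam t j) (u t j) (r t j)) :
    (∀ s t j, lam s j ≤ Real.exp (8 * K * |s - t|) * lam t j) ∧
    (∀ t j, |quo (wm μ (w t)) (σ t) (lam t j) (u t j) (r t j)| ≤ 8 * K) ∧
    (∀ t, (∀ l, DifferentiableAt ℝ (fun s => lam s l) t) → ∀ j, HasDerivAt (fun s => lam s j)
      (-(quo (wm μ (w t)) (σ t) (lam t j) (u t j) (r t j) * lam t j)) t) ∧
    (∀ᵐ t : ℝ, ∀ j, HasDerivAt (fun s => lam s j)
      (-(quo (wm μ (w t)) (σ t) (lam t j) (u t j) (r t j) * lam t j)) t) ∧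
    ∀ χ : ℝ → ℝ, Integrable χ volume →
      Tendsto (fun j => ∫ t, χ t * quo (wm μ (w t)) (σ t) (lam t j) (u t j) (r t j)) atTop
        (𝓝 (∫ t, χ t * ((∫ x, σ t x ∂(wm μ (w t))) / (wm μ (w t)).real univ))) := by
  obtain ⟨hfin, hpos⟩ := tFin M μ _ h.base.surf0
  have := hfin
  have hK := h.K0
  obtain ⟨G, I, hO⟩ := h.base.ops
  obtain ⟨S, N, hS⟩ := h.opS
  have hP := h.path hO hS
  have h1 : ∀ t j, ∃ v : HF (chg D (A 0)) μ, (v.1.fst : M → ℝ) =ᵐ[μ] u t j ∧
      (∀ y, fa G t v y = lam t j * fb I t v y) ∧ -fka G S t v v = r t j := by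
    intro t j
    obtain ⟨F, hF, hF2⟩ := hr t j
    obtain ⟨v, hv, ev, hs⟩ := evec2 h hO hS ((hu t).eig j).mem hF
    exact ⟨v, hv, ev, tendsto_nhds_unique hs hF2⟩
  choose e he1 he2 he3 using h1
  have hE : ∀ t, Eg (fa G t) (fb I t) (e t) (lam t) := fun t =>
    h.base.eg hO (hu t) (he1 t) (he2 t)
  have hkap : ∀ t j, kap (fka G S t) (fkb I N t) (e t j) (lam t j) =
      quo (wm μ (w t)) (σ t) (lam t j) (u t j) (r t j) := by
    intro t j
    unfold kap quo
    rw [fkb_eq h hO hS (he1 t j), ← he3 t j]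
    ring
  have e8 : 2 * (4 * K) = 8 * K := by ring
  refine ⟨fun s t j => ?_, fun t j => ?_, fun t ht j => ?_, ?_, ?_⟩
  · have := hP.E_le hE s t j
    rwa [e8] at this
  · have := hP.kap_le hE t j
    rwa [e8, hkap] at this
  · have := hP.point hE ht j
    rwa [hkap] at this
  · filter_upwards [hP.ae hE] with t ht j
    have := ht j
    rwa [hkap] at this
  · have hA0 : ∀ t, 0 < ∫ x, w t x ∂μ := by
      intro t
      rw [integral_pos_iff_support_of_nonneg (fun x => (h.base.wp t x).le) (h.base.wint t)]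
      have : Function.support (w t) = univ := by
        ext x
        simp [(h.base.wp t x).ne']
      rw [this]
      exact hpos univ isOpen_univ univ_nonempty
    have hAr : ∀ t, (wm μ (w t)).real univ = ∫ x, w t x ∂μ := by
      intro t
      have h5 : (wm μ (w t)).real univ = ∫ x, (1 : ℝ) ∂(wm μ (w t)) := by simp
      rw [h5, h.base.int]
      simp only [mul_one]
    have hsA : ∀ t, ∫ x, σ t x ∂(wm μ (w t)) = ∫ x, σ t x * w t x ∂μ := by
      intro t
      rw [h.base.int]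
      exact integral_congr_ae (Eventually.of_forall fun x => mul_comm _ _)
    have key := hP.weak hE (L := fun t => 4 * π / ∫ x, w t x ∂μ)
      (κ' := fun t => (∫ x, σ t x ∂(wm μ (w t))) / (wm μ (w t)).real univ)
      (fun t => div_pos (by positivity) (hA0 t)) (fun s t => by
        rw [e8]
        have h2 : ∫ x, w t x ∂μ ≤ Real.exp (8 * K * |s - t|) * ∫ x, w s x ∂μ := by
          rw [← integral_const_mul]
          refine integral_mono (h.base.wint t) ((h.base.wint s).const_mul _) fun x => ?_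
          refine (h.base.wl t s x).trans (mul_le_mul_of_nonneg_right ?_ (h.base.wp s x).le)
          rw [abs_sub_comm, ← Real.exp_nat_mul]
          refine Real.exp_le_exp.2 ?_
          have h3 : 0 ≤ K * |s - t| := mul_nonneg hK (abs_nonneg _)
          push_cast
          linarith
        rw [← mul_div_assoc, div_le_div_iff₀ (hA0 s) (hA0 t)]
        have h3 := Real.pi_pos
        calc 4 * π * ∫ x, w t x ∂μ ≤ 4 * π * (Real.exp (8 * K * |s - t|) * ∫ x, w s x ∂μ) :=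
              mul_le_mul_of_nonneg_left h2 (by positivity)
          _ = _ := by ring) (fun t => by
        have h2 := (h.area t).inv (hA0 t).ne'
        have h3 := h2.const_mul (4 * π)
        have e1 : (fun s => 4 * π / ∫ x, w s x ∂μ) =
            fun s => 4 * π * (fun s => ∫ x, w s x ∂μ)⁻¹ s := by
          funext s
          rw [div_eq_mul_inv]
          rfl
        rw [e1]
        refine h3.congr_deriv ?_
        rw [hAr, hsA]
        have := (hA0 t).ne'
        field_simp) (fun t => by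
        have h2 := weyl (h.base.surf t) (hu t)
        rwa [hAr] at h2)
    intro χ hχ
    have h2 := key χ hχ
    simpa only [hkap] using h2

/-! ### Families of metrics with their areas -/

/-- a differentiable family of metrics with bounded speed -/
structure Fa (D : Data M) (m : ℝ → Measure M) (A A' : ℝ → Fin D.N → ℂ → ℂ →L[ℝ] ℂ)
    (K : ℝ) : Prop where
  surf : ∀ t, (chg D (A t)).IsSurf (m t)
  cont : ∀ t i, ContinuousOn (A' t i) (D.T i)
  bdd : ∀ t i, ∀ z ∈ D.T i, ∀ v, ‖A' t i z v‖ ≤ K * ‖A t i z v‖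
  der : ∀ t ε : ℝ, 0 < ε → ∃ δ : ℝ, 0 < δ ∧ ∀ τ : ℝ, |τ| < δ → ∀ i, ∀ z ∈ D.T i, ∀ v,
    ‖A (t + τ) i z v - A t i z v - τ • A' t i z v‖ ≤ ε * |τ| * ‖A t i z v‖

/-- the trace of the strain -/
def ts {M : Type} (D : Data M) (B B' : Fin D.N → ℂ → ℂ →L[ℝ] ℂ) (x : M) : ℝ := tr (sf D B B' x)

theorem Fa.K0 [Nonempty M] {m : ℝ → Measure M} (h : Fa D m A A' K) : 0 ≤ K := by
  obtain ⟨x⟩ := ‹Nonempty M›
  obtain ⟨i, hi⟩ := (h.surf 0).cover x
  have hz : D.φ i x ∈ D.T i := ⟨x, hi, rfl⟩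
  have h1 := h.bdd 0 i _ hz ((A 0 i (D.φ i x)).inverse 1)
  have h2 : A 0 i (D.φ i x) ((A 0 i (D.φ i x)).inverse 1) = 1 :=
    inv_apply ((h.surf 0).det i _ hz) 1
  rw [h2, norm_one, mul_one] at h1
  exact (norm_nonneg _).trans h1

theorem Fa.lip {m : ℝ → Measure M} (h : Fa D m A A' K) {i : Fin D.N} {z : ℂ} (hz : z ∈ D.T i)
    (s t : ℝ) (v : ℂ) : ‖A s i z v‖ ≤ Real.exp (K * |s - t|) * ‖A t i z v‖ := by
  refine gron' (f := fun s => A s i z v) (f' := fun s => A' s i z v) (fun t => ?_)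
    (fun t => h.bdd t i z hz v) s t
  refine hdA (f := fun s => A s i z v) (f' := fun s => A' s i z v) (fun t ε hε => ?_) t
  obtain ⟨δ, hδ, h1⟩ := h.der t ε hε
  exact ⟨δ, hδ, fun τ hτ => h1 τ hτ i z hz v⟩

theorem Fa.m_eq {m : ℝ → Measure M} (h : Fa D m A A' K) (t : ℝ) :
    m t = wm (m 0) (dr D (A 0) (A t)) := dens (h.surf 0) (h.surf t)

theorem Fa.fam [Nonempty M] {m : ℝ → Measure M} (h : Fa D m A A' K) :
    Fam D (m 0) A A' (fun t => dr D (A 0) (A t)) (fun t => ts D (A t) (A' t)) K := by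
  have hS : ∀ t x v, ‖sf D (A t) (A' t) x v‖ ≤ K * ‖v‖ := by
    intro t x v
    obtain ⟨i, hi, hz⟩ := pcx (h.surf 0) x
    rw [sf, sum_pc _ hi]
    have h1 := h.bdd t i _ hz ((A t i (D.φ i x)).inverse v)
    have h2 : A t i (D.φ i x) ((A t i (D.φ i x)).inverse v) = v :=
      inv_apply ((h.surf t).det i _ hz) v
    rwa [h2] at h1
  refine ⟨⟨fun t => ?_, fun x => ?_, fun t x => dr_pos (h.surf 0) (h.surf t) x,
    fun t => dr_meas (h.surf 0) (h.surf t), fun s t => Real.exp_pos _,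
    fun s t i z hz v => h.lip hz s t v, fun s t x => ?_⟩, h.K0, h.cont, h.bdd, h.der,
    fun t => ?_, fun t x => abs_tr_le (hS t x), fun t ε hε => ?_⟩
  · rw [← h.m_eq t]
    exact h.surf t
  · obtain ⟨i, hi, hz⟩ := pcx (h.surf 0) x
    rw [dr_eq hi, div_self]
    exact (abs_pos.2 ((h.surf 0).det i _ hz)).ne'
  · obtain ⟨i, hi, hz⟩ := pcx (h.surf 0) x
    rw [dr_eq hi, dr_eq hi, ← mul_div_assoc]
    refine div_le_div_of_nonneg_right ?_ (abs_nonneg _)
    exact det_le ((h.surf t).det i _ hz) fun v => h.lip hz s t v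
  · have h1 : Measurable (sf D (A t) (A' t)) := by
      refine meas_field' (h.surf 0).openU _ fun i => ?_
      have hm : MapsTo (D.φ i) (D.U i) (D.T i) := fun x hx => ⟨x, hx, rfl⟩
      exact ((h.cont t i).comp ((h.surf 0).contφ i) hm).clm_comp
        (inv_cont (((h.surf t).contA i).comp ((h.surf 0).contφ i) hm)
          fun x hx => (h.surf t).det i _ (hm hx))
    have h2 : Continuous tr := by
      unfold tr
      fun_prop
    exact h2.measurable.comp h1
  · obtain ⟨η, δ, hη, hδ, h1⟩ := det_der' h.K0 hε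
    obtain ⟨δ', hδ', h2⟩ := h.der t η hη
    refine ⟨min δ δ', lt_min hδ hδ', fun τ hτ x => ?_⟩
    obtain ⟨i, hi, hz⟩ := pcx (h.surf 0) x
    have h3 := h1 τ (lt_of_lt_of_le hτ (min_le_left _ _)) ((h.surf t).det i _ hz)
      (fun v => h.bdd t i _ hz v)
      (fun v => h2 τ (lt_of_lt_of_le hτ (min_le_right _ _)) i _ hz v)
    have hd : 0 < |(A 0 i (D.φ i x)).det| := abs_pos.2 ((h.surf 0).det i _ hz)
    rw [dr_eq hi, dr_eq hi, ts, sf, sum_pc _ hi]
    have e1 : |(A (t + τ) i (D.φ i x)).det| / |(A 0 i (D.φ i x)).det| -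
        |(A t i (D.φ i x)).det| / |(A 0 i (D.φ i x)).det| -
        τ * (tr ((A' t i (D.φ i x)).comp (A t i (D.φ i x)).inverse) *
          (|(A t i (D.φ i x)).det| / |(A 0 i (D.φ i x)).det|)) =
        (|(A (t + τ) i (D.φ i x)).det| - |(A t i (D.φ i x)).det| -
          τ * (tr ((A' t i (D.φ i x)).comp (A t i (D.φ i x)).inverse) *
            |(A t i (D.φ i x)).det|)) / |(A 0 i (D.φ i x)).det| := by
      field_simp
    rw [e1, abs_div, abs_abs, ← mul_div_assoc]
    exact div_le_div_of_nonneg_right h3 (abs_nonneg _)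

/-- **One parameter.** -/
theorem lineF [Nonempty M] {m : ℝ → Measure M} (h : Fa D m A A' K) (u : ℝ → ℕ → M → ℝ)
    (lam r : ℝ → ℕ → ℝ) (hu : ∀ t, EigBasis (chg D (A t)) (m t) (u t) (lam t))
    (hr : ∀ t j, Rate D (m t) (A t) (A' t) (ts D (A t) (A' t)) (lam t j) (u t j) (r t j)) :
    (∀ s t j, lam s j ≤ Real.exp (8 * K * |s - t|) * lam t j) ∧
    (∀ t j, |quo (m t) (ts D (A t) (A' t)) (lam t j) (u t j) (r t j)| ≤ 8 * K) ∧
    (∀ t, (∀ l, DifferentiableAt ℝ (fun s => lam s l) t) → ∀ j, HasDerivAt (fun s => lam s j)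
      (-(quo (m t) (ts D (A t) (A' t)) (lam t j) (u t j) (r t j) * lam t j)) t) ∧
    (∀ᵐ t : ℝ, ∀ j, HasDerivAt (fun s => lam s j)
      (-(quo (m t) (ts D (A t) (A' t)) (lam t j) (u t j) (r t j) * lam t j)) t) ∧
    ∀ χ : ℝ → ℝ, Integrable χ volume →
      Tendsto (fun j => ∫ t, χ t * quo (m t) (ts D (A t) (A' t)) (lam t j) (u t j) (r t j)) atTop
        (𝓝 (∫ t, χ t * ((∫ x, ts D (A t) (A' t) x ∂(m t)) / (m t).real univ))) := by
  have hm : ∀ t, wm (m 0) (dr D (A 0) (A t)) = m t := fun t => (h.m_eq t).symm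
  have key := line h.fam u lam r (fun t => by rw [hm]; exact hu t)
    (fun t j => by rw [hm]; exact hr t j)
  simpa only [hm] using key

theorem rateF [Nonempty M] {m : ℝ → Measure M} (h : Fa D m A A' K) {t lam : ℝ} {u : M → ℝ}
    (hu : (chg D (A t)).IsEig (m t) lam u) :
    ∃! r, Rate D (m t) (A t) (A' t) (ts D (A t) (A' t)) lam u r := by
  have hm : ∀ t, wm (m 0) (dr D (A 0) (A t)) = m t := fun t => (h.m_eq t).symm
  have key := rate_ex h.fam (t := t) (lam := lam) (u := u) (by rw [hm]; exact hu)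
  simpa only [hm] using key

end Pool.Agent.Helper34.QJ
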