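import Pool.Agent.Helper34.QJ.Mean

/-!
# Stress and energy in the mean: many flows
-/

set_option autoImplicit false
set_option linter.unusedSectionVars false

open Set Filter Topology MeasureTheory
open scoped Real

noncomputable section

namespace Pool.Agent.Helper34.QJ

open Pool.Agent.Y262.QE Pool.Agent.Y264.QR Pool.Agent.Y708.QE

/-- test fields: limits, locally uniform in the parameter and uniform on the surface, of linear
combinations of the strains along the flows -/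
structure Tf {M Ω ι : Type} [TopologicalSpace Ω] [MeasurableSpace M] (D : Data M)
    (m : Ω → Measure M) (A : Ω → Fin D.N → ℂ → ℂ →L[ℝ] ℂ) (A' : ι → Ω → Fin D.N → ℂ → ℂ →L[ℝ] ℂ)
    (S : Ω → M → ℂ →L[ℝ] ℂ) (C : ℝ) : Prop where
  bf : ∀ o, Bf (m o) (S o) C
  app : ∀ ε : ℝ, 0 < ε → ∀ o, ∃ (s : Finset ι) (c : ι → ℝ), ∀ᶠ o' in 𝓝 o, ∀ x w,
    |inner ℝ (S o' x w) w - ∑ i ∈ s, c i * inner ℝ (sf D (A o') (A' i o') x w) w| ≤ ε * ‖w‖ ^ 2

section

variable {M : Type} [MetricSpace M] [CompactSpace M] [MeasurableSpace M] [BorelSpace M]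
  {D : Data M} {ν : Measure M} {A : Fin D.N → ℂ → ℂ →L[ℝ] ℂ}

theorem tr_int1 [IsFiniteMeasure ν] {S : M → ℂ →L[ℝ] ℂ} {C : ℝ} (hS : Bf ν S C) :
    Integrable (fun x => tr (S x)) ν :=
  Integrable.of_bound (tr_cont.comp_aestronglyMeasurable hS.meas) (2 * C)
    (Eventually.of_forall fun x => abs_tr_le (hS.bd x))

theorem mT_sum [IsFiniteMeasure ν] {ι : Type} (s : Finset ι) (c : ι → ℝ)
    {S : ι → M → ℂ →L[ℝ] ℂ} {C : ι → ℝ} (h : ∀ i, Bf ν (S i) (C i)) :
    mT ν (fun x => ∑ i ∈ s, c i • S i x) = ∑ i ∈ s, c i * mT ν (S i) := by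
  unfold mT
  simp only [tr_sum]
  rw [integral_finsetSum _ fun i _ => (tr_int1 (h i)).const_mul (c i), Finset.sum_div]
  refine Finset.sum_congr rfl fun i _ => ?_
  rw [integral_const_mul, mul_div_assoc]

theorem mT_sub [IsFiniteMeasure ν] {S T : M → ℂ →L[ℝ] ℂ} {C C' : ℝ} (h : Bf ν S C)
    (h' : Bf ν T C') : mT ν (fun x => S x - T x) = mT ν S - mT ν T := by
  unfold mT
  simp only [tr_sub]
  rw [integral_sub (tr_int1 h) (tr_int1 h'), sub_div]

theorem inner_comb {ι : Type} (s : Finset ι) (c : ι → ℝ) (S : ℂ →L[ℝ] ℂ) (T : ι → ℂ →L[ℝ] ℂ)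
    (w : ℂ) : inner ℝ ((S - ∑ i ∈ s, c i • T i) w) w =
      inner ℝ (S w) w - ∑ i ∈ s, c i * inner ℝ (T i w) w := by
  rw [sub_apply, inner_sub_left, sum_apply, sum_inner]
  congr 1
  refine Finset.sum_congr rfl fun i _ => ?_
  rw [smul_apply, real_inner_smul_left]

end

variable {M Ω : Type} [MetricSpace M] [CompactSpace M] [MeasurableSpace M] [BorelSpace M]
  [TopologicalSpace Ω] {D : Data M} {m : Ω → Measure M} {A : Ω → Fin D.N → ℂ → ℂ →L[ℝ] ℂ}

/-- the eigenvalues with large index are positive, for all metrics -/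
theorem Rm.pos [Nonempty M] [Nonempty Ω] (hR : Rm D m A) {u : Ω → ℕ → M → ℝ} {lam : Ω → ℕ → ℝ}
    (hu : ∀ o, EigBasis (chg D (A o)) (m o) (u o) (lam o)) :
    ∃ J : ℕ, ∀ j, J ≤ j → ∀ o, 0 < lam o j := by
  obtain ⟨o₀⟩ := ‹Nonempty Ω›
  have hL : 0 < 4 * π / (m o₀).real univ := div_pos (by positivity) (area_pos (hR.surf o₀))
  obtain ⟨J, hJ⟩ := eventually_atTop.1
    ((weyl (hR.surf o₀) (hu o₀)).eventually (lt_mem_nhds hL))
  refine ⟨J, fun j hj o => ?_⟩
  have h1 : 0 < lam o₀ j := by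
    have h2 := hJ j hj
    by_contra hcon
    exact absurd h2 (not_lt.2 (div_nonpos_of_nonpos_of_nonneg (not_lt.1 hcon) (by positivity)))
  obtain ⟨c, hc, hc1, hc2⟩ := comp_two (hR.surf o₀) (hR.surf o)
  have h3 := cmp (hR.surf o) (hR.surf o₀) hc hc2 hc1 (hu o) (hu o₀) j
  by_contra hcon
  have h4 : c ^ 6 * lam o j ≤ 0 := mul_nonpos_of_nonneg_of_nonpos (by positivity)
    (not_lt.1 hcon)
  linarith

variable [MeasurableSpace Ω] [BorelSpace Ω]

/-- stress and energy in the mean, for indices for which the eigenvalues are positive -/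
theorem many0 [Nonempty M] [SecondCountableTopology Ω] (hR : Rm D m A) {ι : Type}
    {θ : ι → ℝ → Ω → Ω} {A' : ι → Ω → Fin D.N → ℂ → ℂ →L[ℝ] ℂ} {K : ι → Ω → ℝ}
    (hV : ∀ i, Ve D A (A' i) (θ i) (K i)) {S : Ω → M → ℂ →L[ℝ] ℂ} {C : ℝ}
    (hS : Tf D m A A' S C) (P : Measure Ω) [IsProbabilityMeasure P]
    (hP : ∀ i t, P.map (θ i t) ≪ P) {u : Ω → ℕ → M → ℝ}
    {lam r : Ω → ℕ → ℝ} (hu : ∀ o, EigBasis (chg D (A o)) (m o) (u o) (lam o))
    (hr : ∀ o j, St D (m o) (A o) (S o) (lam o j) (u o j) (r o j))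
    {J₀ : ℕ} (hJ₀ : ∀ j, J₀ ≤ j → ∀ o, 0 < lam o j) :
    (∀ j, J₀ ≤ j → AEStronglyMeasurable
      (fun o => quo (m o) (fun x => tr (S o x)) (lam o j) (u o j) (r o j)) P) ∧
    AEStronglyMeasurable (fun o => mT (m o) (S o)) P ∧
    (∀ χ : Ω → ℝ, Integrable χ P → Tendsto
      (fun j => ∫ o, χ o * quo (m o) (fun x => tr (S o x)) (lam o j) (u o j) (r o j) ∂P) atTop
      (𝓝 (∫ o, χ o * mT (m o) (S o) ∂P))) ∧
    ∀ J : ℕ → ℕ, Tendsto J atTop atTop → ∀ᵐ o ∂P, ∀ L : ℝ,
      Tendsto (fun k => quo (m o) (fun x => tr (S o x)) (lam o (J k)) (u o (J k)) (r o (J k)))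
        atTop (𝓝 L) → L = mT (m o) (S o) := by
  classical
  have hne : Nonempty Ω := by
    by_contra hcon
    rw [not_nonempty_iff] at hcon
    have h1 : (univ : Set Ω) = ∅ := Set.univ_eq_empty_iff.2 hcon
    have h2 : P univ = 1 := measure_univ
    rw [h1, measure_empty] at h2
    exact zero_ne_one h2
  have hC0 : 0 ≤ C := by
    obtain ⟨o⟩ := hne
    obtain ⟨x⟩ := ‹Nonempty M›
    have h1 := (hS.bf o).bd x 1
    rw [norm_one, mul_one] at h1
    exact (norm_nonneg _).trans h1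
  have hbf : ∀ i o, Bf (m o) (sf D (A o) (A' i o)) (K i o) := fun i o =>
    sf_bf (hR.surf o) ((hV i).cont o) ((hV i).bdd o)
  choose r' hr' using fun (i : ι) (o : Ω) (j : ℕ) =>
    (st_ex (hR.surf o) ((hu o).eig j) (hbf i o)).exists
  have hone := fun (i : ι) (N : ℝ) => one hR (hV i) P (hP i) hu
    (fun o j => rate_iff.2 (hr' i o j)) hJ₀ N
  set X : ℕ → Ω → ℝ := fun j o =>
    quo (m o) (fun x => tr (S o x)) (lam o j) (u o j) (r o j) with hX
  set Y : Ω → ℝ := fun o => mT (m o) (S o) with hY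
  have hXb : ∀ j, J₀ ≤ j → ∀ o, |X j o| ≤ 6 * C := fun j hj o =>
    quo_le (hR.surf o) (hu o) (hJ₀ j hj o) (hS.bf o) (hr o j)
  have hYb : ∀ o, |Y o| ≤ 6 * C := fun o => by
    refine (mT_close (ε := C) (hR.surf o) fun x w => ?_).trans (by linarith)
    refine (abs_real_inner_le_norm _ _).trans ?_
    have := mul_le_mul_of_nonneg_right ((hS.bf o).bd x w) (norm_nonneg w)
    rw [sq]
    linarith
  obtain ⟨hXm, hYm, hXw⟩ := glue P (fun j => X (j + J₀)) Y (C := 6 * C)
    (fun j o => hXb _ (Nat.le_add_left _ _) o) hYb (by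
      intro ε hε o
      obtain ⟨s, c, hs⟩ := hS.app (ε / 6) (by positivity) o
      set N : ι → ℝ := fun i => K i o + 1 with hN
      have hKn : ∀ᶠ o' in 𝓝 o, ∀ i ∈ s, K i o' ≤ N i := by
        rw [eventually_all_finset]
        intro i _
        filter_upwards [((hV i).Kc.tendsto o).eventually (gt_mem_nhds (lt_add_one (K i o)))]
          with o' ho'
        exact ho'.le
      refine ⟨_, hs.and hKn, fun j o' => ∑ i ∈ s, c i * {o | K i o ≤ N i}.indicator
        (fun o => quo (m o) (ts D (A o) (A' i o)) (lam o (j + J₀)) (u o (j + J₀))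
          (r' i o (j + J₀))) o', fun o' => ∑ i ∈ s, c i * {o | K i o ≤ N i}.indicator
        (fun o => mts D (m o) (A o) (A' i o)) o', fun j => ?_, ?_, ?_, ?_, ?_⟩
      · exact Finset.aestronglyMeasurable_fun_sum s fun i _ =>
          ((hone i (N i)).1 (j + J₀) (Nat.le_add_left _ _)).const_mul (c i)
      · exact Finset.aestronglyMeasurable_fun_sum s fun i _ => (hone i (N i)).2.1.const_mul (c i)
      · rintro j o' ⟨h1, h2⟩
        have hjJ : J₀ ≤ j + J₀ := Nat.le_add_left _ _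
        obtain ⟨e, he, hq⟩ := quo_eq (hR.surf o') (hu o') (j + J₀)
        have e1 : ∑ i ∈ s, c i * {o | K i o ≤ N i}.indicator
            (fun o => quo (m o) (ts D (A o) (A' i o)) (lam o (j + J₀)) (u o (j + J₀))
            (r' i o (j + J₀))) o' = qS (m o') e (lam o' (j + J₀)) (u o' (j + J₀))
            (fun x => ∑ i ∈ s, c i • sf D (A o') (A' i o') x) := by
          rw [qS_sum s c (fun i => hbf i o') e _ (usq (hu o') (j + J₀)).1]
          refine Finset.sum_congr rfl fun i hi => ?_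
          rw [indicator_of_mem (show o' ∈ {o | K i o ≤ N i} from h2 i hi)]
          congr 1
          exact hq _ _ (hbf i o') _ (hr' i o' (j + J₀))
        have e2 : X (j + J₀) o' = qS (m o') e (lam o' (j + J₀)) (u o' (j + J₀)) (S o') :=
          hq _ _ (hS.bf o') _ (hr o' (j + J₀))
        beta_reduce
        rw [e1, e2, ← qS_sub (hS.bf o') (Bf.sum s c fun i => hbf i o') e _ (usq (hu o') (j + J₀)).1]
        have h3 := qS_close (ε := ε / 6) (hJ₀ _ hjJ o') (usq (hu o') (j + J₀)).1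
          (usq (hu o') (j + J₀)).2 he
          (S := fun x => S o' x - ∑ i ∈ s, c i • sf D (A o') (A' i o') x) (fun x w => by
            rw [inner_comb]
            exact h1 x w)
        linarith
      · rintro o' ⟨h1, h2⟩
        obtain ⟨hfin, -⟩ := tFin M _ _ (hR.surf o')
        have := hfin
        have e1 : ∑ i ∈ s, c i * {o | K i o ≤ N i}.indicator
            (fun o => mts D (m o) (A o) (A' i o)) o' =
            mT (m o') (fun x => ∑ i ∈ s, c i • sf D (A o') (A' i o') x) := by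
          rw [mT_sum s c fun i => hbf i o']
          refine Finset.sum_congr rfl fun i hi => ?_
          rw [indicator_of_mem (show o' ∈ {o | K i o ≤ N i} from h2 i hi)]
          rfl
        have e2 : Y o' = mT (m o') (S o') := rfl
        beta_reduce
        rw [e1, e2, ← mT_sub (hS.bf o') (Bf.sum s c fun i => hbf i o')]
        have h3 := mT_close (ε := ε / 6) (hR.surf o')
          (S := fun x => S o' x - ∑ i ∈ s, c i • sf D (A o') (A' i o') x) (fun x w => by
            rw [inner_comb]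
            exact h1 x w)
        linarith
      · intro χ hχ
        have e1 : ∀ f : ι → Ω → ℝ, (∀ i ∈ s, AEStronglyMeasurable (f i) P) →
            (∀ i ∈ s, ∀ o, |f i o| ≤ 6 * |N i|) →
            ∫ o, χ o * ∑ i ∈ s, c i * f i o ∂P = ∑ i ∈ s, c i * ∫ o, χ o * f i o ∂P := by
          intro f hf hfb
          have e2 : ∀ o, χ o * ∑ i ∈ s, c i * f i o = ∑ i ∈ s, c i * (χ o * f i o) := by
            intro o
            rw [Finset.mul_sum]
            exact Finset.sum_congr rfl fun i _ => by ring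
          simp only [e2]
          rw [integral_finsetSum _ fun i hi => (hχ.mul_bdd (c := 6 * |N i|) (hf i hi)
            (Eventually.of_forall fun o => hfb i hi o)).const_mul (c i)]
          exact Finset.sum_congr rfl fun i _ => integral_const_mul _ _
        have e3 := fun j => e1 (fun i => {o | K i o ≤ N i}.indicator
          (fun o => quo (m o) (ts D (A o) (A' i o)) (lam o (j + J₀)) (u o (j + J₀))
          (r' i o (j + J₀)))) (fun i _ => (hone i (N i)).1 (j + J₀) (Nat.le_add_left _ _))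
          (fun i _ => (hone i (N i)).2.2.1 (j + J₀) (Nat.le_add_left _ _))
        have e4 := e1 (fun i => {o | K i o ≤ N i}.indicator
          (fun o => mts D (m o) (A o) (A' i o))) (fun i _ => (hone i (N i)).2.1)
          (fun i _ => (hone i (N i)).2.2.2.1)
        simp only [e3, e4]
        exact tendsto_finsetSum s fun i _ => ((hone i (N i)).2.2.2.2 χ hχ).const_mul (c i))
  have hconv : ∀ χ : Ω → ℝ, Integrable χ P → Tendsto (fun j => ∫ o, χ o * X j o ∂P) atTop
      (𝓝 (∫ o, χ o * Y o ∂P)) := fun χ hχ => (tendsto_add_atTop_iff_nat J₀).1 (hXw χ hχ)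
  have hXm' : ∀ j, J₀ ≤ j → AEStronglyMeasurable (X j) P := by
    intro j hj
    have := hXm (j - J₀)
    rwa [Nat.sub_add_cancel hj] at this
  refine ⟨hXm', hYm, hconv, ?_⟩
  intro J hJ
  have hql := Pool.Agent.Y401.QR.t_QL Ω P (fun j => if J₀ ≤ j then X j else fun _ => 0) Y (6 * C)
    (fun j => by
      split_ifs with hj
      · exact hXm' j hj
      · exact aestronglyMeasurable_const) hYm
    (fun j => Eventually.of_forall fun o => by
      split_ifs with hj
      · exact hXb j hj o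
      · rw [abs_zero]
        positivity) (Eventually.of_forall hYb) (fun χ hχ => by
      refine (hconv χ hχ).congr' ?_
      filter_upwards [eventually_ge_atTop J₀] with j hj
      rw [if_pos hj]) J hJ
  filter_upwards [hql] with o ho L hL
  refine ho L (hL.congr' ?_)
  filter_upwards [hJ.eventually (eventually_ge_atTop J₀)] with k hk
  rw [if_pos hk]

/-- **Stress and energy in the mean.** -/
theorem many [Nonempty M] [SecondCountableTopology Ω] (hR : Rm D m A) {ι : Type}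
    {θ : ι → ℝ → Ω → Ω} {A' : ι → Ω → Fin D.N → ℂ → ℂ →L[ℝ] ℂ} {K : ι → Ω → ℝ}
    (hV : ∀ i, Ve D A (A' i) (θ i) (K i)) {S : Ω → M → ℂ →L[ℝ] ℂ} {C : ℝ}
    (hS : Tf D m A A' S C) (P : Measure Ω) [IsProbabilityMeasure P]
    (hP : ∀ i t, P.map (θ i t) ≪ P) {u : Ω → ℕ → M → ℝ}
    {lam r : Ω → ℕ → ℝ} (hu : ∀ o, EigBasis (chg D (A o)) (m o) (u o) (lam o))
    (hr : ∀ o j, St D (m o) (A o) (S o) (lam o j) (u o j) (r o j)) :
    (∃ J : ℕ, ∀ j, J ≤ j → AEStronglyMeasurable
      (fun o => quo (m o) (fun x => tr (S o x)) (lam o j) (u o j) (r o j)) P) ∧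
    (∀ χ : Ω → ℝ, Integrable χ P → Tendsto
      (fun j => ∫ o, χ o * quo (m o) (fun x => tr (S o x)) (lam o j) (u o j) (r o j) ∂P) atTop
      (𝓝 (∫ o, χ o * mT (m o) (S o) ∂P))) ∧
    ∀ J : ℕ → ℕ, Tendsto J atTop atTop → ∀ᵐ o ∂P, ∀ L : ℝ,
      Tendsto (fun k => quo (m o) (fun x => tr (S o x)) (lam o (J k)) (u o (J k)) (r o (J k)))
        atTop (𝓝 L) → L = mT (m o) (S o) := by
  have hne : Nonempty Ω := by
    by_contra hcon
    rw [not_nonempty_iff] at hcon
    have h1 : (univ : Set Ω) = ∅ := Set.univ_eq_empty_iff.2 hcon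
    have h2 : P univ = 1 := measure_univ
    rw [h1, measure_empty] at h2
    exact zero_ne_one h2
  obtain ⟨J₀, hJ₀⟩ := hR.pos hu
  obtain ⟨h1, -, h3, h4⟩ := many0 hR hV hS P hP hu hr hJ₀
  exact ⟨⟨J₀, h1⟩, h3, h4⟩

end Pool.Agent.Helper34.QJ
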