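import Pool.Agent.Helper34.QJ.Orb
import Pool.Agent.Helper34.QJ.Glue
import Pool.Agent.Y941.QR.Qi
import Pool.Agent.Y401.QR.Dens

/-!
# Stress and energy in the mean: one flow
-/

set_option autoImplicit false
set_option linter.unusedSectionVars false

open Set Filter Topology MeasureTheory
open scoped Real

noncomputable section

namespace Pool.Agent.Helper34.QJ

open Pool.Agent.Y262.QE Pool.Agent.Y264.QR Pool.Agent.Y708.QE

section qw

open Pool.Agent.Y941.QR

variable {Ω : Type} [MeasurableSpace Ω]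

/-- weak convergence along the segments of the orbits -/
theorem qw1 (P : Measure Ω) [IsProbabilityMeasure P] {θ : ℝ → Ω → Ω} (hθ : Flw P θ)
    (X : ℕ → Ω → ℝ) (Y : Ω → ℝ) (K : ℝ) (hX : ∀ j, Measurable (X j)) (hY : Measurable Y)
    (hXK : ∀ j o, |X j o| ≤ K) (hYK : ∀ o, |Y o| ≤ K)
    (hlim : ∀ o, ∀ χ : ℝ → ℝ, Integrable χ volume → (∀ t, 2 ≤ |t| → χ t = 0) →
      Tendsto (fun j => ∫ t, χ t * X j (θ t o)) atTop (𝓝 (∫ t, χ t * Y (θ t o))))
    (χ : Ω → ℝ) (hχ : Integrable χ P) :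
    Tendsto (fun j => ∫ o, χ o * X j o ∂P) atTop (𝓝 (∫ o, χ o * Y o ∂P)) := by
  obtain ⟨G, hG, hrep⟩ := rep P hθ χ hχ
  have hl : ∀ j, ∫ o, χ o * X j o ∂P = ∫ o, ∫ t, G (θ t o) * X j (θ t o) ∂lam ∂P := fun j =>
    (hrep (X j) K (hX j) (hXK j)).2
  rw [(hrep Y K hY hYK).2]
  simp_rw [hl]
  have hGn : Integrable (fun o => ∫ t, ‖G (θ t o)‖ ∂lam) P := hG.norm.integral_prod_right
  refine tendsto_integral_of_dominated_convergence (fun o => K * ∫ t, ‖G (θ t o)‖ ∂lam)
    (fun j => ((hrep (X j) K (hX j) (hXK j)).1.integral_prod_right).1) (hGn.const_mul K) ?_ ?_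
  · intro j
    filter_upwards [hG.prod_left_ae] with o ho
    calc ‖∫ t, G (θ t o) * X j (θ t o) ∂lam‖ ≤ ∫ t, K * ‖G (θ t o)‖ ∂lam := by
          apply norm_integral_le_of_norm_le (ho.norm.const_mul K)
          refine Eventually.of_forall fun t => ?_
          rw [norm_mul, mul_comm]
          exact mul_le_mul_of_nonneg_right (hXK j _) (norm_nonneg _)
      _ = K * ∫ t, ‖G (θ t o)‖ ∂lam := integral_const_mul _ _
  · filter_upwards [hG.prod_left_ae] with o ho
    have h1 : Integrable ((Icc (0:ℝ) 1).indicator fun t => G (θ t o)) volume :=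
      (integrable_indicator_iff measurableSet_Icc).mpr ho
    have h2 := hlim o _ h1 (fun t ht => by
      refine indicator_of_notMem (fun h => ?_) _
      have h4 : |t| ≤ 1 := abs_le.2 ⟨by linarith [h.1], h.2⟩
      linarith)
    have h3 : ∀ Z : Ω → ℝ, ∫ t, (Icc (0:ℝ) 1).indicator (fun t => G (θ t o)) t * Z (θ t o) =
        ∫ t, G (θ t o) * Z (θ t o) ∂lam := by
      intro Z
      have : (fun t => (Icc (0:ℝ) 1).indicator (fun t => G (θ t o)) t * Z (θ t o)) =
          (Icc (0:ℝ) 1).indicator fun t => G (θ t o) * Z (θ t o) := by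
        funext t
        by_cases ht : t ∈ Icc (0:ℝ) 1
        · rw [indicator_of_mem ht, indicator_of_mem ht]
        · rw [indicator_of_notMem ht, indicator_of_notMem ht, zero_mul]
      rw [this, integral_indicator measurableSet_Icc]
      rfl
    rw [← h3 Y]
    simp_rw [← h3 (X _)]
    exact h2

end qw

section point

variable {M : Type} [MetricSpace M] [CompactSpace M] [MeasurableSpace M] [BorelSpace M]
  {D : Data M} {ν : Measure M} {A A' : Fin D.N → ℂ → ℂ →L[ℝ] ℂ} {K : ℝ}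

/-- the strain is a bounded measurable field -/
theorem sf_bf (hD : (chg D A).IsSurf ν) (hc : ∀ i, ContinuousOn (A' i) (D.T i))
    (hb : ∀ i, ∀ z ∈ D.T i, ∀ v, ‖A' i z v‖ ≤ K * ‖A i z v‖) : Bf ν (sf D A A') K := by
  constructor
  · have h1 : Measurable (sf D A A') := by
      refine meas_field' hD.openU _ fun i => ?_
      have hm : MapsTo (D.φ i) (D.U i) (D.T i) := fun x hx => ⟨x, hx, rfl⟩
      exact ((hc i).comp (hD.contφ i) hm).clm_comp
        (inv_cont ((hD.contA i).comp (hD.contφ i) hm) fun x hx => hD.det i _ (hm hx))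
    exact h1.aestronglyMeasurable
  · intro x v
    obtain ⟨i, hi, hz⟩ := pcx hD x
    rw [sf, sum_pc _ hi]
    have h1 := hb i _ hz ((A i (D.φ i x)).inverse v)
    have h2 : A i (D.φ i x) ((A i (D.φ i x)).inverse v) = v := inv_apply (hD.det i _ hz) v
    rwa [h2] at h1

theorem usq {u : ℕ → M → ℝ} {lam : ℕ → ℝ} (hu : EigBasis (chg D A) ν u lam) (j : ℕ) :
    Integrable (fun x => (u j x) ^ 2) ν ∧ ∫ x, (u j x) ^ 2 ∂ν = 1 := by
  have h := hu.orth j j
  rw [if_pos rfl] at h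
  have h1 : ∫ x, (u j x) ^ 2 ∂ν = 1 := by
    rw [← h]
    exact integral_congr_ae (Eventually.of_forall fun x => sq _)
  refine ⟨?_, h1⟩
  by_contra hn
  rw [integral_undef hn] at h1
  exact zero_ne_one h1

/-- the pairing as a function of the weak gradient -/
theorem quo_eq [Nonempty M] (hD : (chg D A).IsSurf ν) {u : ℕ → M → ℝ} {lam : ℕ → ℝ}
    (hu : EigBasis (chg D A) ν u lam) (j : ℕ) : ∃ e : Lp ℂ 2 ν, ‖e‖ ^ 2 = lam j ∧
      ∀ (S : M → ℂ →L[ℝ] ℂ) (C : ℝ), Bf ν S C → ∀ r, St D ν A S (lam j) (u j) r →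
        quo ν (fun x => tr (S x)) (lam j) (u j) r = qS ν e (lam j) (u j) S := by
  obtain ⟨e, he, h⟩ := st_iff hD (hu.eig j)
  rw [(usq hu j).2, mul_one] at he
  refine ⟨e, he, fun S C hS r hr => ?_⟩
  rw [(h S C hS r).1 hr]
  rfl

theorem quo_le [Nonempty M] (hD : (chg D A).IsSurf ν) {u : ℕ → M → ℝ} {lam : ℕ → ℝ}
    (hu : EigBasis (chg D A) ν u lam) {j : ℕ} (hl : 0 < lam j) {S : M → ℂ →L[ℝ] ℂ} {C : ℝ}
    (hS : Bf ν S C) {r : ℝ} (hr : St D ν A S (lam j) (u j) r) :
    |quo ν (fun x => tr (S x)) (lam j) (u j) r| ≤ 6 * C := by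
  obtain ⟨e, he, h⟩ := quo_eq hD hu j
  rw [h S C hS r hr]
  refine qS_close hl (usq hu j).1 (usq hu j).2 he fun x w => ?_
  refine (abs_real_inner_le_norm _ _).trans ?_
  have := mul_le_mul_of_nonneg_right (hS.bd x w) (norm_nonneg w)
  rw [sq]
  linarith

/-- the mean value of the trace -/
def mT {M : Type} [MeasurableSpace M] (ν : Measure M) (S : M → ℂ →L[ℝ] ℂ) : ℝ :=
  (∫ x, tr (S x) ∂ν) / ν.real univ

theorem mT_close [Nonempty M] (hD : (chg D A).IsSurf ν) {S : M → ℂ →L[ℝ] ℂ} {ε : ℝ}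
    (h : ∀ x w, |inner ℝ (S x w) w| ≤ ε * ‖w‖ ^ 2) : |mT ν S| ≤ 2 * ε := by
  obtain ⟨hfin, -⟩ := tFin M _ _ hD
  have := hfin
  have hp := area_pos hD
  unfold mT
  rw [abs_div, abs_of_pos hp, div_le_iff₀ hp]
  exact norm_integral_le_of_norm_le_const (μ := ν) (f := fun x => tr (S x))
    (Eventually.of_forall fun x => tr_close (h x))

theorem K_nonneg [Nonempty M] (hD : (chg D A).IsSurf ν)
    (hb : ∀ i, ∀ z ∈ D.T i, ∀ v, ‖A' i z v‖ ≤ K * ‖A i z v‖) : 0 ≤ K := by
  obtain ⟨x⟩ := ‹Nonempty M›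
  obtain ⟨i, hi⟩ : ∃ i : Fin D.N, x ∈ D.U i := hD.cover x
  have hz : D.φ i x ∈ D.T i := ⟨x, hi, rfl⟩
  have h1 := hb i _ hz ((A i (D.φ i x)).inverse 1)
  have h2 : A i (D.φ i x) ((A i (D.φ i x)).inverse 1) = 1 := inv_apply (hD.det i _ hz) 1
  rw [h2, norm_one, mul_one] at h1
  exact (norm_nonneg _).trans h1

end point

variable {M Ω : Type} [MetricSpace M] [CompactSpace M] [MeasurableSpace M] [BorelSpace M]
  [TopologicalSpace Ω] {D : Data M} {m : Ω → Measure M} {A A' : Ω → Fin D.N → ℂ → ℂ →L[ℝ] ℂ}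
  {θ : ℝ → Ω → Ω} {K : Ω → ℝ}

/-- the clipped logarithmic derivative -/
def XX (f : Ω → ℝ) (θ : ℝ → Ω → Ω) (K : ℝ) (o : Ω) : ℝ :=
  max (-K) (min K (-(deriv (fun t : ℝ => f (θ t o)) 0) / f o))

theorem XX_eq {f : Ω → ℝ} {K κ : ℝ} {o : Ω}
    (hf : HasDerivAt (fun t : ℝ => f (θ t o)) (-(κ * f o)) 0) (hpos : 0 < f o)
    (hκ : |κ| ≤ K) : XX f θ K o = κ := by
  unfold XX
  rw [hf.deriv, neg_neg, mul_div_cancel_right₀ _ hpos.ne']
  obtain ⟨h1, h2⟩ := abs_le.mp hκ
  rw [min_eq_right h2, max_eq_right h1]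

theorem XX_bd {f : Ω → ℝ} {K : ℝ} (hK : 0 ≤ K) (o : Ω) : |XX f θ K o| ≤ K := by
  unfold XX
  rw [abs_le]
  constructor
  · exact le_max_left _ _
  · exact max_le (by linarith) (min_le_left _ _)

theorem shift {f : ℝ → ℝ} {t d : ℝ} (h : HasDerivAt f d t) :
    HasDerivAt (fun τ => f (τ + t)) d 0 := by
  have h1 : HasDerivAt (fun τ : ℝ => τ + t) 1 0 := (hasDerivAt_id (0 : ℝ)).add_const t
  have h2 : HasDerivAt f d (0 + t) := by rw [zero_add]; exact h
  have h3 := h2.comp (0 : ℝ) h1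
  rw [mul_one] at h3
  exact h3

variable [MeasurableSpace Ω] [BorelSpace Ω]

theorem der_meas {f : Ω → ℝ} (hf : Continuous f) (hθ : Continuous fun p : ℝ × Ω => θ p.1 p.2) :
    (Measurable fun o => deriv (fun t : ℝ => f (θ t o)) 0) ∧
      MeasurableSet {o | DifferentiableAt ℝ (fun t : ℝ => f (θ t o)) 0} := by
  have hc : Continuous (Function.uncurry fun (o : Ω) (t : ℝ) => f (θ t o)) := by
    have h1 : Continuous fun p : Ω × ℝ => θ p.2 p.1 := hθ.comp continuous_swap
    exact hf.comp h1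
  have hm : Measurable fun o : Ω => ((o, 0) : Ω × ℝ) := measurable_id.prodMk measurable_const
  constructor
  · exact (measurable_deriv_with_param hc).comp hm
  · exact hm (measurableSet_of_differentiableAt_with_param ℝ hc)

theorem XX_meas {f : Ω → ℝ} (hf : Continuous f) (hθ : Continuous fun p : ℝ × Ω => θ p.1 p.2)
    (K : ℝ) : Measurable (XX f θ K) :=
  measurable_const.max (measurable_const.min ((der_meas hf hθ).1.neg.div hf.measurable))

/-- one flow -/
theorem one [Nonempty M] (hR : Rm D m A) (hV : Ve D A A' θ K) (P : Measure Ω)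
    [IsProbabilityMeasure P] (hP : ∀ t, P.map (θ t) ≪ P) {u : Ω → ℕ → M → ℝ}
    {lam r : Ω → ℕ → ℝ} (hu : ∀ o, EigBasis (chg D (A o)) (m o) (u o) (lam o))
    (hr : ∀ o j, Rate D (m o) (A o) (A' o) (ts D (A o) (A' o)) (lam o j) (u o j) (r o j))
    {J₀ : ℕ} (hJ₀ : ∀ j, J₀ ≤ j → ∀ o, 0 < lam o j) (N : ℝ) :
    (∀ j, J₀ ≤ j → AEStronglyMeasurable ({o | K o ≤ N}.indicator fun o =>
      quo (m o) (ts D (A o) (A' o)) (lam o j) (u o j) (r o j)) P) ∧
    AEStronglyMeasurable ({o | K o ≤ N}.indicator fun o => mts D (m o) (A o) (A' o)) P ∧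
    (∀ j, J₀ ≤ j → ∀ o, |{o | K o ≤ N}.indicator (fun o =>
      quo (m o) (ts D (A o) (A' o)) (lam o j) (u o j) (r o j)) o| ≤ 6 * |N|) ∧
    (∀ o, |{o | K o ≤ N}.indicator (fun o => mts D (m o) (A o) (A' o)) o| ≤ 6 * |N|) ∧
    ∀ χ : Ω → ℝ, Integrable χ P → Tendsto (fun j => ∫ o, χ o * {o | K o ≤ N}.indicator
      (fun o => quo (m o) (ts D (A o) (A' o)) (lam o (j + J₀)) (u o (j + J₀)) (r o (j + J₀))) o ∂P)
      atTop (𝓝 (∫ o, χ o * {o | K o ≤ N}.indicator (fun o => mts D (m o) (A o) (A' o)) o ∂P)) := by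
  classical
  set Q : ℕ → Ω → ℝ := fun j o => quo (m o) (ts D (A o) (A' o)) (lam o j) (u o j) (r o j) with hQ
  set Y : Ω → ℝ := fun o => mts D (m o) (A o) (A' o) with hY
  have hflw : Flw P θ := ⟨hV.flow.measurable, hV.zero, hV.add, hP⟩
  have hE : ∀ j, Continuous fun o => lam o j := hR.lam_cont hu
  have hbf : ∀ o, Bf (m o) (sf D (A o) (A' o)) (K o) := fun o =>
    sf_bf (hR.surf o) (hV.cont o) (hV.bdd o)
  have hK0 : ∀ o, 0 ≤ K o := fun o => K_nonneg (hR.surf o) (hV.bdd o)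
  have hQb : ∀ j, J₀ ≤ j → ∀ o, |Q j o| ≤ 6 * K o := fun j hj o =>
    quo_le (hR.surf o) (hu o) (hJ₀ j hj o) (hbf o) (rate_iff.1 (hr o j))
  have hYb : ∀ o, |Y o| ≤ 2 * K o := fun o => mT_close (hR.surf o) fun x w => by
    refine (abs_real_inner_le_norm _ _).trans ?_
    have := mul_le_mul_of_nonneg_right ((hbf o).bd x w) (norm_nonneg w)
    rw [sq]
    linarith
  have hsN : MeasurableSet {o | K o ≤ N} := measurableSet_le hV.Kc.measurable measurable_const
  have hadd : ∀ t o, (fun τ => θ τ (θ t o)) = fun τ => θ (τ + t) o := fun t o =>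
    funext fun τ => (hV.add τ t o).symm
  -- derivatives along the flow
  have hder : ∀ o (R : ℝ), 0 < R → ∀ᵐ t : ℝ, |t| < R → ∀ j,
      HasDerivAt (fun τ => lam (θ τ (θ t o)) j) (-(Q j (θ t o) * lam (θ t o) j)) 0 := by
    intro o R hR0
    filter_upwards [(orbs hR hV hu hr o hR0).2.1] with t ht htR j
    have h1 := shift (ht htR j)
    simp only [hV.add] at h1
    exact h1
  have hder2 : ∀ o, ∀ᵐ t : ℝ, ∀ j,
      HasDerivAt (fun τ => lam (θ τ (θ t o)) j) (-(Q j (θ t o) * lam (θ t o) j)) 0 := by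
    intro o
    have h1 : ∀ᵐ t : ℝ, ∀ n : ℕ, |t| < (n : ℝ) + 1 → ∀ j,
        HasDerivAt (fun τ => lam (θ τ (θ t o)) j) (-(Q j (θ t o) * lam (θ t o) j)) 0 :=
      ae_all_iff.2 fun n => hder o _ (by positivity)
    filter_upwards [h1] with t ht
    obtain ⟨n, hn⟩ := exists_nat_gt |t|
    exact ht n (by linarith)
  have hnull : ∀ᵐ o ∂P, ∀ j, DifferentiableAt ℝ (fun t : ℝ => lam (θ t o) j) 0 := by
    rw [ae_all_iff]
    intro j
    have h1 : MeasurableSet {o : Ω | ¬ DifferentiableAt ℝ (fun t : ℝ => lam (θ t o) j) 0} :=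
      (der_meas (hE j) hV.flow).2.compl
    exact Pool.Agent.Y941.QR.qn Ω P θ hflw _ h1 (fun o => by
      filter_upwards [hder2 o] with t ht
      exact fun hn => hn (ht j).differentiableAt)
  have hae : ∀ᵐ o ∂P, ∀ j, HasDerivAt (fun t : ℝ => lam (θ t o) j) (-(Q j o * lam o j)) 0 := by
    filter_upwards [hnull] with o ho j
    have h1 := (orbs hR hV hu hr o one_pos).1 0 (by rw [abs_zero]; exact one_pos) ho j
    simpa only [hV.zero] using h1
  -- measurable versions
  set X : ℕ → Ω → ℝ := fun j => {o | K o ≤ N}.indicator (XX (fun o => lam o j) θ (6 * |N|)) with hX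
  have hXQ : ∀ j, J₀ ≤ j → ∀ o, HasDerivAt (fun t : ℝ => lam (θ t o) j) (-(Q j o * lam o j)) 0 →
      X j o = {o | K o ≤ N}.indicator (Q j) o := by
    intro j hj o ho
    simp only [hX]
    by_cases hK : K o ≤ N
    · rw [indicator_of_mem (show o ∈ {o | K o ≤ N} from hK),
        indicator_of_mem (show o ∈ {o | K o ≤ N} from hK)]
      refine XX_eq (f := fun o => lam o j) ho (hJ₀ j hj o) ((hQb j hj o).trans ?_)
      have := le_abs_self N
      linarith
    · rw [indicator_of_notMem (show o ∉ {o | K o ≤ N} from hK),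
        indicator_of_notMem (show o ∉ {o | K o ≤ N} from hK)]
  have hXm : ∀ j, Measurable (X j) := fun j => (XX_meas (hE j) hV.flow _).indicator hsN
  have hXb : ∀ j o, |X j o| ≤ 6 * |N| := by
    intro j o
    simp only [hX]
    by_cases hK : K o ≤ N
    · rw [indicator_of_mem (show o ∈ {o | K o ≤ N} from hK)]
      exact XX_bd (by positivity) o
    · rw [indicator_of_notMem (show o ∉ {o | K o ≤ N} from hK), abs_zero]
      positivity
  have hXae : ∀ j, J₀ ≤ j → {o | K o ≤ N}.indicator (Q j) =ᵐ[P] X j := by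
    intro j hj
    filter_upwards [hae] with o ho
    exact (hXQ j hj o (ho j)).symm
  have hYe : Y = fun o => deriv (fun t : ℝ => (m (θ t o)).real univ) 0 / (m o).real univ := by
    funext o
    rw [(orbs hR hV hu hr o one_pos).2.2.1.deriv]
    rfl
  have hYm : Measurable Y := by
    rw [hYe]
    exact (der_meas hR.area_cont hV.flow).1.div hR.area_cont.measurable
  have hYm' : Measurable ({o | K o ≤ N}.indicator Y) := hYm.indicator hsN
  have hYb' : ∀ o, |{o | K o ≤ N}.indicator Y o| ≤ 6 * |N| := by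
    intro o
    by_cases hK : K o ≤ N
    · rw [indicator_of_mem (show o ∈ {o | K o ≤ N} from hK)]
      refine (hYb o).trans ?_
      have := le_abs_self N
      have := hK0 o
      linarith
    · rw [indicator_of_notMem (show o ∉ {o | K o ≤ N} from hK), abs_zero]
      positivity
  have hQb' : ∀ j, J₀ ≤ j → ∀ o, |{o | K o ≤ N}.indicator (Q j) o| ≤ 6 * |N| := by
    intro j hj o
    by_cases hK : K o ≤ N
    · rw [indicator_of_mem (show o ∈ {o | K o ≤ N} from hK)]
      refine (hQb j hj o).trans ?_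
      have := le_abs_self N
      linarith
    · rw [indicator_of_notMem (show o ∉ {o | K o ≤ N} from hK), abs_zero]
      positivity
  refine ⟨fun j hj => (hXm j).aestronglyMeasurable.congr (hXae j hj).symm,
    hYm'.aestronglyMeasurable, hQb', hYb', fun χ hχ => ?_⟩
  have hmain := qw1 P hflw (fun j => X (j + J₀)) ({o | K o ≤ N}.indicator Y) (6 * |N|)
    (fun j => hXm _) hYm' (fun j o => hXb _ o) hYb' (by
      intro o χ' hχ' hχ0
      have hKo : Continuous fun s : ℝ => K (θ s o) :=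
        hV.Kc.comp (hV.flow.comp (continuous_id.prodMk continuous_const))
      have hs : MeasurableSet {t : ℝ | K (θ t o) ≤ N} :=
        measurableSet_le hKo.measurable measurable_const
      have h1 := (orbs hR hV hu hr o two_pos).2.2.2
        ({t : ℝ | K (θ t o) ≤ N}.indicator χ') (hχ'.indicator hs) (fun t ht => by
          by_cases hK : K (θ t o) ≤ N
          · rw [indicator_of_mem (show t ∈ {t : ℝ | K (θ t o) ≤ N} from hK), hχ0 t ht]
          · rw [indicator_of_notMem (show t ∉ {t : ℝ | K (θ t o) ≤ N} from hK)])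
      have h2 := h1.comp (tendsto_add_atTop_nat J₀)
      have e0 : ∀ (f : Ω → ℝ) (t : ℝ), {t : ℝ | K (θ t o) ≤ N}.indicator χ' t * f (θ t o) =
          χ' t * {o | K o ≤ N}.indicator f (θ t o) := by
        intro f t
        by_cases hK : K (θ t o) ≤ N
        · rw [indicator_of_mem (show t ∈ {t : ℝ | K (θ t o) ≤ N} from hK),
            indicator_of_mem (show θ t o ∈ {o | K o ≤ N} from hK)]
        · rw [indicator_of_notMem (show t ∉ {t : ℝ | K (θ t o) ≤ N} from hK),
            indicator_of_notMem (show θ t o ∉ {o | K o ≤ N} from hK), zero_mul, mul_zero]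
      have e2 : ∫ t, {t : ℝ | K (θ t o) ≤ N}.indicator χ' t *
          mts D (m (θ t o)) (A (θ t o)) (A' (θ t o)) =
          ∫ t, χ' t * {o | K o ≤ N}.indicator Y (θ t o) :=
        integral_congr_ae (Eventually.of_forall fun t => e0 Y t)
      rw [e2] at h2
      refine h2.congr fun j => ?_
      refine integral_congr_ae ?_
      filter_upwards [hder2 o] with t ht
      show {t : ℝ | K (θ t o) ≤ N}.indicator χ' t * Q (j + J₀) (θ t o) = _
      rw [e0 (Q (j + J₀)) t, ← hXQ (j + J₀) (Nat.le_add_left _ _) (θ t o) (ht _)]) χ hχ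
  refine hmain.congr fun j => ?_
  refine integral_congr_ae ?_
  filter_upwards [hXae (j + J₀) (Nat.le_add_left _ _)] with o ho
  rw [← ho]

end Pool.Agent.Helper34.QJ
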