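import Pool.Agent.Helper34.QJ.Wg
import Pool.Agent.Y941.QR.Qi
import Pool.Agent.Y401.QR.Dens

/-!
# Stress and energy in the mean: continuous families of metrics
-/

set_option autoImplicit false
set_option linter.unusedSectionVars false

open Set Filter Topology MeasureTheory
open scoped Real ContDiff

noncomputable section

namespace Pool.Agent.Helper34.QJ

open Pool.Agent.Y262.QE Pool.Agent.Y264.QR Pool.Agent.Y708.QE

section cmp

variable {M : Type} [MetricSpace M] [CompactSpace M] [MeasurableSpace M] [BorelSpace M]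
  {D : Data M} {μ ν : Measure M} {A B : Fin D.N → ℂ → ℂ →L[ℝ] ℂ}

/-- the eigenvalues of comparable metrics are comparable -/
theorem cmp [Nonempty M] (hA : (chg D A).IsSurf μ) (hB : (chg D B).IsSurf ν) {c : ℝ} (hc : 1 ≤ c)
    (h1 : ∀ i, ∀ z ∈ D.T i, ∀ v, ‖B i z v‖ ≤ c * ‖A i z v‖)
    (h2 : ∀ i, ∀ z ∈ D.T i, ∀ v, ‖A i z v‖ ≤ c * ‖B i z v‖) {u u' : ℕ → M → ℝ}
    {lam lam' : ℕ → ℝ} (hu : EigBasis (chg D A) μ u lam) (hu' : EigBasis (chg D B) ν u' lam')
    (j : ℕ) : lam' j ≤ c ^ 6 * lam j := by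
  have hc0 : 0 < c := lt_of_lt_of_le one_pos hc
  set A' : ℝ → Fin D.N → ℂ → ℂ →L[ℝ] ℂ := fun t => if t = 0 then A else B with hA'
  set w : ℝ → M → ℝ := fun t => if t = 0 then fun _ => 1 else dr D A B with hw
  have a0 : A' 0 = A := if_pos rfl
  have a1 : ∀ t, t ≠ 0 → A' t = B := fun t ht => if_neg ht
  have w0 : w 0 = fun _ => 1 := if_pos rfl
  have w1 : ∀ t, t ≠ 0 → w t = dr D A B := fun t ht => if_neg ht
  have m0 : wm μ (w 0) = μ := by
    rw [w0]
    unfold wm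
    simp only [ENNReal.ofReal_one]
    exact withDensity_one
  have m1 : ∀ t, t ≠ 0 → wm μ (w t) = ν := fun t ht => by rw [w1 t ht]; exact (dens hA hB).symm
  have hcc : ∀ r : ℝ, 0 ≤ r → r ≤ c * r := fun r hr => le_mul_of_one_le_left hr hc
  have hcc2 : ∀ r : ℝ, 0 ≤ r → r ≤ c ^ 2 * r := fun r hr =>
    le_mul_of_one_le_left hr (one_le_pow₀ hc)
  have hF : Fam0 D μ A' w fun _ _ => c := by
    refine ⟨fun t => ?_, fun x => by rw [w0], fun t x => ?_, fun t => ?_, fun _ _ => hc0,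
      fun s t i z hz v => ?_, fun s t x => ?_⟩
    · by_cases ht : t = 0
      · rw [ht, m0, a0]
        exact hA
      · rw [m1 t ht, a1 t ht]
        exact hB
    · by_cases ht : t = 0
      · rw [ht, w0]
        exact one_pos
      · rw [w1 t ht]
        exact dr_pos hA hB x
    · by_cases ht : t = 0
      · rw [ht, w0]
        exact measurable_const
      · rw [w1 t ht]
        exact dr_meas hA hB
    · by_cases hs : s = 0
      · by_cases ht : t = 0
        · rw [hs, ht]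
          exact hcc _ (norm_nonneg _)
        · rw [hs, a0, a1 t ht]
          exact h2 i z hz v
      · by_cases ht : t = 0
        · rw [ht, a0, a1 s hs]
          exact h1 i z hz v
        · rw [a1 s hs, a1 t ht]
          exact hcc _ (norm_nonneg _)
    · obtain ⟨i, hi, hz⟩ := pcx hA x
      have hdA : 0 < |(A i (D.φ i x)).det| := abs_pos.2 (hA.det i _ hz)
      have hdB : 0 < |(B i (D.φ i x)).det| := abs_pos.2 (hB.det i _ hz)
      by_cases hs : s = 0
      · by_cases ht : t = 0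
        · rw [hs, ht, w0]
          exact hcc2 _ zero_le_one
        · rw [hs, w0, w1 t ht, dr_eq hi, ← mul_div_assoc, le_div_iff₀ hdA, one_mul]
          exact det_le (hB.det i _ hz) (h2 i _ hz)
      · by_cases ht : t = 0
        · rw [ht, w0, w1 s hs, dr_eq hi, mul_one, div_le_iff₀ hdA]
          exact det_le (hA.det i _ hz) (h1 i _ hz)
        · rw [w1 s hs, w1 t ht]
          exact hcc2 _ (dr_pos hA hB x).le
  have h3 := hF.lam_le (s := 1) (t := 0) (u := u') (u' := u) (lam := lam') (lam' := lam)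
    (by rw [a1 1 one_ne_zero, m1 1 one_ne_zero]; exact hu') (by rw [a0, m0]; exact hu) j
  refine h3.trans (le_of_eq ?_)
  ring

end cmp

/-- metrics which depend continuously on the points of `Ω`: the metric at `o` has the orthonormal
coframes `A o` and the area `m o` -/
structure Rm {M Ω : Type} [TopologicalSpace M] [MeasurableSpace M] [TopologicalSpace Ω]
    (D : Data M) (m : Ω → Measure M) (A : Ω → Fin D.N → ℂ → ℂ →L[ℝ] ℂ) : Prop where
  surf : ∀ o, (chg D (A o)).IsSurf (m o)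
  near : ∀ o ε, 0 < ε → ∀ᶠ o' in 𝓝 o, ∀ i, ∀ z ∈ D.T i, ∀ v,
    ‖A o' i z v‖ ≤ (1 + ε) * ‖A o i z v‖ ∧ ‖A o i z v‖ ≤ (1 + ε) * ‖A o' i z v‖

/-- a flow on `Ω`, along which the metrics are differentiable; the speed is at most `K` -/
structure Ve {M Ω : Type} [TopologicalSpace Ω] (D : Data M)
    (A A' : Ω → Fin D.N → ℂ → ℂ →L[ℝ] ℂ) (θ : ℝ → Ω → Ω) (K : Ω → ℝ) : Prop where
  flow : Continuous fun p : ℝ × Ω => θ p.1 p.2
  zero : ∀ o, θ 0 o = o
  add : ∀ s t o, θ (s + t) o = θ s (θ t o)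
  cont : ∀ o i, ContinuousOn (A' o i) (D.T i)
  Kc : Continuous K
  bdd : ∀ o i, ∀ z ∈ D.T i, ∀ v, ‖A' o i z v‖ ≤ K o * ‖A o i z v‖
  der : ∀ o (ε : ℝ), 0 < ε → ∃ δ : ℝ, 0 < δ ∧ ∀ τ : ℝ, |τ| < δ → ∀ i, ∀ z ∈ D.T i, ∀ v,
    ‖A (θ τ o) i z v - A o i z v - τ • A' o i z v‖ ≤ ε * |τ| * ‖A o i z v‖

section

variable {M Ω : Type} [MetricSpace M] [CompactSpace M] [MeasurableSpace M] [BorelSpace M]
  [TopologicalSpace Ω] {D : Data M} {m : Ω → Measure M} {A : Ω → Fin D.N → ℂ → ℂ →L[ℝ] ℂ}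

/-- the eigenvalues depend continuously on the metric -/
theorem Rm.lam_cont [Nonempty M] (h : Rm D m A) {u : Ω → ℕ → M → ℝ} {lam : Ω → ℕ → ℝ}
    (hu : ∀ o, EigBasis (chg D (A o)) (m o) (u o) (lam o)) (j : ℕ) :
    Continuous fun o => lam o j := by
  rw [continuous_iff_continuousAt]
  intro o
  have hlim : Tendsto (fun ε : ℝ => (1 + ε) ^ 6 * lam o j) (𝓝[>] 0) (𝓝 (lam o j)) := by
    have h1 : Continuous fun ε : ℝ => (1 + ε) ^ 6 * lam o j := by fun_prop
    have h2 := h1.tendsto 0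
    rw [add_zero, one_pow, one_mul] at h2
    exact h2.mono_left nhdsWithin_le_nhds
  have hlim' : Tendsto (fun ε : ℝ => ((1 + ε) ^ 6)⁻¹ * lam o j) (𝓝[>] 0) (𝓝 (lam o j)) := by
    have h1 : ContinuousAt (fun ε : ℝ => ((1 + ε) ^ 6)⁻¹ * lam o j) 0 := by
      refine ContinuousAt.mul (ContinuousAt.inv₀ (by fun_prop) (by norm_num)) continuousAt_const
    have h2 := h1.tendsto
    rw [add_zero, one_pow, inv_one, one_mul] at h2
    exact h2.mono_left nhdsWithin_le_nhds
  rw [ContinuousAt, tendsto_order]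
  constructor
  · intro a ha
    obtain ⟨ε, hε, hε0⟩ := ((hlim'.eventually (lt_mem_nhds ha)).and self_mem_nhdsWithin).exists
    have hε1 : (0 : ℝ) < ε := hε0
    filter_upwards [h.near o ε hε1] with o' ho'
    have h1 := cmp (h.surf o') (h.surf o) (c := 1 + ε) (by linarith)
      (fun i z hz v => (ho' i z hz v).2) (fun i z hz v => (ho' i z hz v).1) (hu o') (hu o) j
    have h2 : ((1 + ε) ^ 6)⁻¹ * lam o j ≤ lam o' j := by
      rw [inv_mul_le_iff₀ (by positivity)]
      exact h1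
    exact lt_of_lt_of_le hε h2
  · intro a ha
    obtain ⟨ε, hε, hε0⟩ := ((hlim.eventually (gt_mem_nhds ha)).and self_mem_nhdsWithin).exists
    have hε1 : (0 : ℝ) < ε := hε0
    filter_upwards [h.near o ε hε1] with o' ho'
    have h1 := cmp (h.surf o) (h.surf o') (c := 1 + ε) (by linarith)
      (fun i z hz v => (ho' i z hz v).1) (fun i z hz v => (ho' i z hz v).2) (hu o) (hu o') j
    exact lt_of_le_of_lt h1 hε

/-- the area depends continuously on the metric -/
theorem area_le [Nonempty M] {μ ν : Measure M} {A B : Fin D.N → ℂ → ℂ →L[ℝ] ℂ}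
    (hA : (chg D A).IsSurf μ) (hB : (chg D B).IsSurf ν) {c : ℝ}
    (h1 : ∀ i, ∀ z ∈ D.T i, ∀ v, ‖B i z v‖ ≤ c * ‖A i z v‖) :
    ν.real univ ≤ c ^ 2 * μ.real univ := by
  obtain ⟨hfin, -⟩ := tFin M μ _ hA
  have := hfin
  have e : ν.real univ = ∫ x, dr D A B x ∂μ := by
    have h5 : ν.real univ = ∫ x, (1 : ℝ) ∂ν := by simp
    rw [h5, dens hA hB, Pool.Agent.Y262.QE.integral_wm μ _ (dr_meas hA hB)
      (fun x => (dr_pos hA hB x).le)]
    simp only [mul_one]
  have hle : ∀ x, dr D A B x ≤ c ^ 2 := by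
    intro x
    obtain ⟨i, hi, hz⟩ := pcx hA x
    have hd : 0 < |(A i (D.φ i x)).det| := abs_pos.2 (hA.det i _ hz)
    rw [dr_eq hi, div_le_iff₀ hd]
    exact det_le (hA.det i _ hz) (h1 i _ hz)
  have e2 : c ^ 2 * μ.real univ = ∫ _ : M, c ^ 2 ∂μ := by
    rw [integral_const, smul_eq_mul, mul_comm]
  rw [e, e2]
  refine integral_mono (Integrable.of_bound (dr_meas hA hB).aestronglyMeasurable (c ^ 2)
    (Eventually.of_forall fun x => ?_)) (integrable_const _) hle
  rw [Real.norm_of_nonneg (dr_pos hA hB x).le]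
  exact hle x

theorem area_pos [Nonempty M] {μ : Measure M} {A : Fin D.N → ℂ → ℂ →L[ℝ] ℂ}
    (hA : (chg D A).IsSurf μ) : 0 < μ.real univ := by
  obtain ⟨hfin, hpos⟩ := tFin M μ _ hA
  have := hfin
  exact ENNReal.toReal_pos (hpos univ isOpen_univ univ_nonempty).ne' (measure_ne_top _ _)

theorem Rm.area_cont [Nonempty M] (h : Rm D m A) : Continuous fun o => (m o).real univ := by
  rw [continuous_iff_continuousAt]
  intro o
  have hlim : Tendsto (fun ε : ℝ => (1 + ε) ^ 2 * (m o).real univ) (𝓝[>] 0)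
      (𝓝 ((m o).real univ)) := by
    have h1 : Continuous fun ε : ℝ => (1 + ε) ^ 2 * (m o).real univ := by fun_prop
    have h2 := h1.tendsto 0
    rw [add_zero, one_pow, one_mul] at h2
    exact h2.mono_left nhdsWithin_le_nhds
  have hlim' : Tendsto (fun ε : ℝ => ((1 + ε) ^ 2)⁻¹ * (m o).real univ) (𝓝[>] 0)
      (𝓝 ((m o).real univ)) := by
    have h1 : ContinuousAt (fun ε : ℝ => ((1 + ε) ^ 2)⁻¹ * (m o).real univ) 0 := by
      refine ContinuousAt.mul (ContinuousAt.inv₀ (by fun_prop) (by norm_num)) continuousAt_const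
    have h2 := h1.tendsto
    rw [add_zero, one_pow, inv_one, one_mul] at h2
    exact h2.mono_left nhdsWithin_le_nhds
  rw [ContinuousAt, tendsto_order]
  constructor
  · intro a ha
    obtain ⟨ε, hε, hε0⟩ := ((hlim'.eventually (lt_mem_nhds ha)).and self_mem_nhdsWithin).exists
    have hε1 : (0 : ℝ) < ε := hε0
    filter_upwards [h.near o ε hε1] with o' ho'
    have h1 := area_le (h.surf o') (h.surf o) (c := 1 + ε) (fun i z hz v => (ho' i z hz v).2)
    have h2 : ((1 + ε) ^ 2)⁻¹ * (m o).real univ ≤ (m o').real univ := by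
      rw [inv_mul_le_iff₀ (by positivity)]
      exact h1
    exact lt_of_lt_of_le hε h2
  · intro a ha
    obtain ⟨ε, hε, hε0⟩ := ((hlim.eventually (gt_mem_nhds ha)).and self_mem_nhdsWithin).exists
    have hε1 : (0 : ℝ) < ε := hε0
    filter_upwards [h.near o ε hε1] with o' ho'
    have h1 := area_le (h.surf o) (h.surf o') (c := 1 + ε) (fun i z hz v => (ho' i z hz v).1)
    exact lt_of_le_of_lt h1 hε

/-- two metrics on a compact surface are comparable -/
theorem comp_one {μ ν : Measure M} {A B : Fin D.N → ℂ → ℂ →L[ℝ] ℂ}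
    (hA : (chg D A).IsSurf μ) (hB : (chg D B).IsSurf ν) :
    ∃ c : ℝ, ∀ x : M, ∀ i, x ∈ D.U i → ∀ v, ‖B i (D.φ i x) v‖ ≤ c * ‖A i (D.φ i x) v‖ := by
  have key : ∃ c : ℝ, ∀ x ∈ (univ : Set M), ∀ i, x ∈ D.U i → ∀ v,
      ‖B i (D.φ i x) v‖ ≤ c * ‖A i (D.φ i x) v‖ := by
    refine isCompact_univ.induction_on (p := fun s => ∃ c : ℝ, ∀ x ∈ s, ∀ i, x ∈ D.U i → ∀ v,
      ‖B i (D.φ i x) v‖ ≤ c * ‖A i (D.φ i x) v‖) ⟨0, fun x hx => absurd hx (notMem_empty x)⟩
      (fun s t hst ⟨c, hc⟩ => ⟨c, fun x hx => hc x (hst hx)⟩) ?_ ?_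
    · rintro s t ⟨c, hc⟩ ⟨c', hc'⟩
      refine ⟨max c c', fun x hx i hi v => ?_⟩
      rcases hx with hx | hx
      · exact (hc x hx i hi v).trans
          (mul_le_mul_of_nonneg_right (le_max_left _ _) (norm_nonneg _))
      · exact (hc' x hx i hi v).trans
          (mul_le_mul_of_nonneg_right (le_max_right _ _) (norm_nonneg _))
    · intro x _
      obtain ⟨i, hi'⟩ : ∃ i : Fin D.N, x ∈ D.U i := hA.cover x
      have hm : MapsTo (D.φ i) (D.U i) (D.T i) := fun x hx => ⟨x, hx, rfl⟩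
      have hc : ContinuousOn (fun y => ‖(B i (D.φ i y)).comp (A i (D.φ i y)).inverse‖) (D.U i) :=
        (((hB.contA i).comp (hA.contφ i) hm).clm_comp
          (inv_cont ((hA.contA i).comp (hA.contφ i) hm) fun y hy => hA.det i _ (hm hy))).norm
      have hO : IsOpen (D.U i) := hA.openU i
      have hca := hc.continuousAt (hO.mem_nhds hi')
      set c := ‖(B i (D.φ i x)).comp (A i (D.φ i x)).inverse‖ + 1 with hcdef
      have hev : ∀ᶠ y in 𝓝 x, ‖(B i (D.φ i y)).comp (A i (D.φ i y)).inverse‖ < c :=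
        hca.eventually (gt_mem_nhds (by rw [hcdef]; linarith))
      have hev2 : ∀ᶠ y in 𝓝 x, y ∈ D.U i := hO.mem_nhds hi'
      refine ⟨{y | ‖(B i (D.φ i y)).comp (A i (D.φ i y)).inverse‖ < c ∧ y ∈ D.U i},
        mem_nhdsWithin_of_mem_nhds (hev.and hev2), c, ?_⟩
      rintro y ⟨hy1, hy2⟩ j hj v
      have hb : ∀ v, ‖B i (D.φ i y) v‖ ≤ c * ‖A i (D.φ i y) v‖ := by
        intro v
        have h1 : B i (D.φ i y) v =
            ((B i (D.φ i y)).comp (A i (D.φ i y)).inverse) (A i (D.φ i y) v) := by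
          have h2 : (A i (D.φ i y)).inverse (A i (D.φ i y) v) = v :=
            inv_apply' (hA.det i _ (hm hy2)) v
          show B i (D.φ i y) v = B i (D.φ i y) ((A i (D.φ i y)).inverse (A i (D.φ i y) v))
          rw [h2]
        rw [h1]
        exact (ContinuousLinearMap.le_opNorm _ _).trans
          (mul_le_mul_of_nonneg_right hy1.le (norm_nonneg _))
      have h2 : ‖A i (D.φ i y) (fderiv ℝ (fun z => D.φ i (D.ψ j z)) (D.φ j y) v)‖ =
        ‖A j (D.φ j y) v‖ := (hA.tr j i y hj hy2).2 v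
      have h3 : ‖B i (D.φ i y) (fderiv ℝ (fun z => D.φ i (D.ψ j z)) (D.φ j y) v)‖ =
        ‖B j (D.φ j y) v‖ := (hB.tr j i y hj hy2).2 v
      rw [← h2, ← h3]
      exact hb _
  obtain ⟨c, hc⟩ := key
  exact ⟨c, fun x => hc x (mem_univ x)⟩

theorem comp_two {μ ν : Measure M} {A B : Fin D.N → ℂ → ℂ →L[ℝ] ℂ}
    (hA : (chg D A).IsSurf μ) (hB : (chg D B).IsSurf ν) :
    ∃ c : ℝ, 1 ≤ c ∧ (∀ i, ∀ z ∈ D.T i, ∀ v, ‖B i z v‖ ≤ c * ‖A i z v‖) ∧
      ∀ i, ∀ z ∈ D.T i, ∀ v, ‖A i z v‖ ≤ c * ‖B i z v‖ := by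
  obtain ⟨c, hc⟩ := comp_one hA hB
  obtain ⟨c', hc'⟩ := comp_one hB hA
  refine ⟨max 1 (max c c'), le_max_left _ _, ?_, ?_⟩
  · rintro i z ⟨x, hx, rfl⟩ v
    exact (hc x i hx v).trans (mul_le_mul_of_nonneg_right
      ((le_max_left _ _).trans (le_max_right _ _)) (norm_nonneg _))
  · rintro i z ⟨x, hx, rfl⟩ v
    exact (hc' x i hx v).trans (mul_le_mul_of_nonneg_right
      ((le_max_right _ _).trans (le_max_right _ _)) (norm_nonneg _))

end

end Pool.Agent.Helper34.QJ
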