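import Pool.Agent.Helper34.QJ.Met

/-!
# Stress and energy in the mean: orbits with locally bounded speed
-/

set_option autoImplicit false
set_option linter.unusedSectionVars false

open Set Filter Topology MeasureTheory
open scoped Real ContDiff

noncomputable section

namespace Pool.Agent.Helper34.QJ

open Pool.Agent.Y262.QE Pool.Agent.Y264.QR Pool.Agent.Y708.QE

/-- a cutoff of the time -/
theorem cut {R : ℝ} (hR : 0 < R) : ∃ (c c' : ℝ → ℝ) (L T : ℝ), (∀ t, HasDerivAt c (c' t) t) ∧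
    (∀ t, |c' t| ≤ L) ∧ (∀ t, |c t| ≤ T) ∧ ∀ t, |t| < R → c t = t ∧ c' t = 1 := by
  set f : ContDiffBump (0 : ℝ) := ⟨R, R + 1, hR, by linarith⟩ with hf
  have hc1 : ContDiff ℝ 1 fun t : ℝ => t * f t := contDiff_id.mul f.contDiff
  have hs : HasCompactSupport fun t : ℝ => t * f t := f.hasCompactSupport.mul_left
  have hs' : HasCompactSupport (deriv fun t : ℝ => t * f t) := hs.deriv
  have hc' : Continuous (deriv fun t : ℝ => t * f t) := hc1.continuous_deriv le_rfl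
  obtain ⟨L, hL⟩ := hc'.bounded_above_of_compact_support hs'
  obtain ⟨T, hT⟩ := hc1.continuous.bounded_above_of_compact_support hs
  refine ⟨fun t => t * f t, deriv fun t => t * f t, L, T,
    fun t => (hc1.differentiable one_ne_zero t).hasDerivAt, hL, hT, fun t ht => ?_⟩
  have h1 : ∀ s : ℝ, |s| < R → s * f s = s := by
    intro s hs
    have h2 : f s = 1 := by
      refine f.one_of_mem_closedBall ?_
      rw [Metric.mem_closedBall, dist_zero_right, Real.norm_eq_abs]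
      exact hs.le
    rw [h2, mul_one]
  refine ⟨h1 t ht, ?_⟩
  have h2 : (fun s : ℝ => s * f s) =ᶠ[𝓝 t] fun s => s := by
    have h3 : ∀ᶠ s : ℝ in 𝓝 t, |s| < R := (continuous_abs.tendsto t).eventually (gt_mem_nhds ht)
    filter_upwards [h3] with s hs
    exact h1 s hs
  rw [h2.deriv_eq]
  exact deriv_id t

variable {M Ω : Type} [MetricSpace M] [CompactSpace M] [MeasurableSpace M] [BorelSpace M]
  [TopologicalSpace Ω] {D : Data M} {m : Ω → Measure M} {A A' : Ω → Fin D.N → ℂ → ℂ →L[ℝ] ℂ}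
  {θ : ℝ → Ω → Ω} {K : Ω → ℝ}

theorem split_aux (x a b : ℂ) (σ κ τ : ℝ) :
    x - a - τ • (κ • b) = (x - a - σ • b) + (σ - τ * κ) • b := by
  simp only [Complex.real_smul]
  push_cast
  ring

/-- orbits with cutoff -/
theorem orb (hR : Rm D m A) (hV : Ve D A A' θ K) (o : Ω) {c c' : ℝ → ℝ} {L T : ℝ}
    (h1 : ∀ t, HasDerivAt c (c' t) t) (h2 : ∀ t, |c' t| ≤ L) (h3 : ∀ t, |c t| ≤ T) :
    ∃ K₁, Fa D (fun t => m (θ (c t) o)) (fun t => A (θ (c t) o))
      (fun t i z => c' t • A' (θ (c t) o) i z) K₁ := by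
  have hL : 0 ≤ L := (abs_nonneg _).trans (h2 0)
  have hKo : Continuous fun s : ℝ => K (θ s o) :=
    hV.Kc.comp (hV.flow.comp (continuous_id.prodMk continuous_const))
  obtain ⟨K₂, hK₂⟩ := (isCompact_Icc (a := -T) (b := T)).exists_bound_of_continuousOn
    hKo.continuousOn
  have hKb : ∀ t, K (θ (c t) o) ≤ K₂ := fun t =>
    (le_abs_self _).trans (hK₂ (c t) (abs_le.1 (h3 t)))
  have hK0 : 0 ≤ K₂ := (norm_nonneg _).trans (hK₂ (c 0) (abs_le.1 (h3 0)))
  have hb : ∀ t i, ∀ z ∈ D.T i, ∀ v, ‖A' (θ (c t) o) i z v‖ ≤ K₂ * ‖A (θ (c t) o) i z v‖ :=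
    fun t i z hz v => (hV.bdd _ i z hz v).trans
      (mul_le_mul_of_nonneg_right (hKb t) (norm_nonneg _))
  refine ⟨L * K₂, fun t => hR.surf _, fun t i => ?_, fun t i z hz v => ?_, fun t ε hε => ?_⟩
  · exact (hV.cont (θ (c t) o) i).const_smul (c' t)
  · rw [smul_apply, norm_smul, Real.norm_eq_abs, mul_assoc]
    exact mul_le_mul (h2 t) (hb t i z hz v) (norm_nonneg _) hL
  · set η : ℝ := min 1 (ε / (2 * (K₂ + 1))) with hη
    have hη0 : 0 < η := lt_min one_pos (by positivity)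
    set ε₁ : ℝ := ε / (2 * (L + 1)) with hε₁
    have hε₁0 : 0 < ε₁ := by positivity
    obtain ⟨δ₁, hδ₁, h4⟩ := hV.der (θ (c t) o) ε₁ hε₁0
    have h5 := h1 t
    rw [hasDerivAt_iff_isLittleO_nhds_zero, Asymptotics.isLittleO_iff] at h5
    obtain ⟨δ₂, hδ₂, h6⟩ := Metric.eventually_nhds_iff.1 (h5 hη0)
    refine ⟨min δ₂ (δ₁ / (L + 1)), lt_min hδ₂ (by positivity), fun τ hτ i z hz v => ?_⟩
    have h7 : |c (t + τ) - c t - τ * c' t| ≤ η * |τ| := by
      have := h6 (y := τ) (by rw [dist_zero_right]; exact lt_of_lt_of_le hτ (min_le_left _ _))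
      rwa [smul_eq_mul] at this
    set σ : ℝ := c (t + τ) - c t with hσ
    have h8 : |σ| ≤ (L + 1) * |τ| := by
      have e1 : σ = (σ - τ * c' t) + τ * c' t := by ring
      rw [e1]
      refine (abs_add_le _ _).trans ?_
      rw [abs_mul]
      have g1 : η * |τ| ≤ 1 * |τ| := mul_le_mul_of_nonneg_right (min_le_left _ _) (abs_nonneg _)
      have g2 : |τ| * |c' t| ≤ |τ| * L := mul_le_mul_of_nonneg_left (h2 t) (abs_nonneg _)
      linarith
    have h9 : |σ| < δ₁ := by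
      refine lt_of_le_of_lt h8 ?_
      have := lt_of_lt_of_le hτ (min_le_right _ _)
      rw [lt_div_iff₀ (by positivity)] at this
      linarith
    have h10 := h4 σ h9 i z hz v
    have e2 : θ (c (t + τ)) o = θ σ (θ (c t) o) := by
      rw [← hV.add, hσ, sub_add_cancel]
    show ‖A (θ (c (t + τ)) o) i z v - A (θ (c t) o) i z v - τ • (c' t • A' (θ (c t) o) i z) v‖ ≤ _
    rw [e2]
    set a := A (θ (c t) o) i z v with ha
    set a' := A' (θ (c t) o) i z v with ha'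
    have e3 : A (θ σ (θ (c t) o)) i z v - a - τ • (c' t • A' (θ (c t) o) i z) v =
        (A (θ σ (θ (c t) o)) i z v - a - σ • a') + (σ - τ * c' t) • a' :=
      split_aux _ _ _ _ _ _
    rw [e3]
    refine (norm_add_le _ _).trans ?_
    rw [norm_smul, Real.norm_eq_abs]
    have g3 : ε₁ * |σ| * ‖a‖ ≤ ε / 2 * |τ| * ‖a‖ := by
      refine mul_le_mul_of_nonneg_right ?_ (norm_nonneg _)
      calc ε₁ * |σ| ≤ ε₁ * ((L + 1) * |τ|) := mul_le_mul_of_nonneg_left h8 hε₁0.le
        _ = ε / 2 * |τ| := by rw [hε₁]; field_simp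
    have g4 : |σ - τ * c' t| * ‖a'‖ ≤ ε / 2 * |τ| * ‖a‖ := by
      have g5 : ‖a'‖ ≤ K₂ * ‖a‖ := hb t i z hz v
      have g6 : η * K₂ ≤ ε / 2 := by
        have g7 : η * K₂ ≤ ε / (2 * (K₂ + 1)) * K₂ :=
          mul_le_mul_of_nonneg_right (min_le_right _ _) hK0
        refine g7.trans ?_
        rw [div_mul_eq_mul_div, div_le_div_iff₀ (by positivity) two_pos]
        nlinarith
      calc |σ - τ * c' t| * ‖a'‖ ≤ (η * |τ|) * (K₂ * ‖a‖) :=
            mul_le_mul h7 g5 (norm_nonneg _) (by positivity)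
        _ = (η * K₂) * (|τ| * ‖a‖) := by ring
        _ ≤ ε / 2 * (|τ| * ‖a‖) := mul_le_mul_of_nonneg_right g6 (by positivity)
        _ = ε / 2 * |τ| * ‖a‖ := by ring
    linarith

theorem sf_smul (D : Data M) (A A' : Fin D.N → ℂ → ℂ →L[ℝ] ℂ) (κ : ℝ) (x : M) :
    sf D A (fun i z => κ • A' i z) x = κ • sf D A A' x := by
  unfold sf
  rw [Finset.smul_sum]
  refine Finset.sum_congr rfl fun i _ => ?_
  by_cases hx : x ∈ D.pc i
  · rw [indicator_of_mem hx, indicator_of_mem hx, ContinuousLinearMap.smul_comp]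
  · rw [indicator_of_notMem hx, indicator_of_notMem hx, smul_zero]

theorem ts_smul (D : Data M) (A A' : Fin D.N → ℂ → ℂ →L[ℝ] ℂ) (κ : ℝ) (x : M) :
    ts D A (fun i z => κ • A' i z) x = κ * ts D A A' x := by
  unfold ts
  rw [sf_smul, tr_smul]

theorem rate_smul {ν : Measure M} {A A' : Fin D.N → ℂ → ℂ →L[ℝ] ℂ} {lam r : ℝ} {u : M → ℝ} (κ : ℝ)
    (h : Rate D ν A A' (ts D A A') lam u r) : Rate D ν A (fun i z => κ • A' i z)
      (ts D A fun i z => κ • A' i z) lam u (κ * r) := by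
  obtain ⟨F, hF, hr⟩ := h
  refine ⟨F, hF, ?_⟩
  refine (hr.const_mul κ).congr fun k => ?_
  rw [← integral_const_mul]
  refine integral_congr_ae (Eventually.of_forall fun x => ?_)
  simp only [sd, sf_smul, ts_smul]
  rw [smul_apply, real_inner_smul_left]
  ring

theorem quo_smul {ν : Measure M} {A A' : Fin D.N → ℂ → ℂ →L[ℝ] ℂ} {lam r : ℝ} {u : M → ℝ} (κ : ℝ) :
    quo ν (ts D A fun i z => κ • A' i z) lam u (κ * r) = κ * quo ν (ts D A A') lam u r := by
  unfold quo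
  simp only [ts_smul, mul_assoc]
  rw [integral_const_mul]
  ring

/-- the mean value of the trace of the strain -/
def mts {M : Type} [MeasurableSpace M] (D : Data M) (ν : Measure M)
    (B B' : Fin D.N → ℂ → ℂ →L[ℝ] ℂ) : ℝ :=
  (∫ x, ts D B B' x ∂ν) / ν.real univ

theorem mts_smul {ν : Measure M} {A A' : Fin D.N → ℂ → ℂ →L[ℝ] ℂ} (κ : ℝ) :
    mts D ν A (fun i z => κ • A' i z) = κ * mts D ν A A' := by
  unfold mts
  simp only [ts_smul]
  rw [integral_const_mul, mul_div_assoc]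

/-- the area of a family -/
theorem Fa.area_der [Nonempty M] {m : ℝ → Measure M} {A A' : ℝ → Fin D.N → ℂ → ℂ →L[ℝ] ℂ} {K : ℝ}
    (h : Fa D m A A' K) : HasDerivAt (fun t => (m t).real univ)
      (∫ x, ts D (A 0) (A' 0) x ∂(m 0)) 0 := by
  have hf := h.fam
  obtain ⟨hfin, -⟩ := tFin M _ _ (h.surf 0)
  have := hfin
  have h1 := hf.area 0
  have hm : ∀ t, wm (m 0) (dr D (A 0) (A t)) = m t := fun t => (h.m_eq t).symm
  have hAr : ∀ t, ∫ x, dr D (A 0) (A t) x ∂(m 0) = (m t).real univ := by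
    intro t
    have h5 : (m t).real univ = ∫ x, (1 : ℝ) ∂(m t) := by simp
    rw [h5, ← hm t, hf.base.int]
    simp only [mul_one]
  have h6 : ∀ x, dr D (A 0) (A 0) x = 1 := hf.base.w0
  simp only [hAr, h6, mul_one] at h1
  exact h1

theorem orbs [Nonempty M] (hR : Rm D m A) (hV : Ve D A A' θ K) {u : Ω → ℕ → M → ℝ}
    {lam r : Ω → ℕ → ℝ} (hu : ∀ o, EigBasis (chg D (A o)) (m o) (u o) (lam o))
    (hr : ∀ o j, Rate D (m o) (A o) (A' o) (ts D (A o) (A' o)) (lam o j) (u o j) (r o j))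
    (o : Ω) {R : ℝ} (hR0 : 0 < R) :
    (∀ t, |t| < R → (∀ l, DifferentiableAt ℝ (fun s => lam (θ s o) l) t) → ∀ j,
      HasDerivAt (fun s => lam (θ s o) j) (-(quo (m (θ t o)) (ts D (A (θ t o)) (A' (θ t o)))
        (lam (θ t o) j) (u (θ t o) j) (r (θ t o) j) * lam (θ t o) j)) t) ∧
    (∀ᵐ t : ℝ, |t| < R → ∀ j,
      HasDerivAt (fun s => lam (θ s o) j) (-(quo (m (θ t o)) (ts D (A (θ t o)) (A' (θ t o)))
        (lam (θ t o) j) (u (θ t o) j) (r (θ t o) j) * lam (θ t o) j)) t) ∧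
    HasDerivAt (fun t => (m (θ t o)).real univ) (∫ x, ts D (A o) (A' o) x ∂(m o)) 0 ∧
    ∀ χ : ℝ → ℝ, Integrable χ volume → (∀ t, R ≤ |t| → χ t = 0) →
      Tendsto (fun j => ∫ t, χ t * quo (m (θ t o)) (ts D (A (θ t o)) (A' (θ t o)))
        (lam (θ t o) j) (u (θ t o) j) (r (θ t o) j)) atTop
        (𝓝 (∫ t, χ t * mts D (m (θ t o)) (A (θ t o)) (A' (θ t o)))) := by
  obtain ⟨c, c', L, T, h1, h2, h3, h4⟩ := cut hR0
  obtain ⟨K₁, hF⟩ := orb hR hV o h1 h2 h3
  have hnear : ∀ t : ℝ, |t| < R → ∀ᶠ s : ℝ in 𝓝 t, c s = s := by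
    intro t ht
    filter_upwards [(continuous_abs.tendsto t).eventually (gt_mem_nhds ht)] with s hs
    exact (h4 s hs).1
  obtain ⟨-, -, k3, k4, k5⟩ := lineF hF (fun t => u (θ (c t) o)) (fun t => lam (θ (c t) o))
    (fun t j => c' t * r (θ (c t) o) j) (fun t => hu _) (fun t j => rate_smul (c' t) (hr _ j))
  have htr : ∀ (t : ℝ), |t| < R → ∀ (j : ℕ) (d : ℝ),
      HasDerivAt (fun s => lam (θ (c s) o) j) d t ↔ HasDerivAt (fun s => lam (θ s o) j) d t := by
    intro t ht j d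
    have h5 : (fun s => lam (θ (c s) o) j) =ᶠ[𝓝 t] fun s => lam (θ s o) j := by
      filter_upwards [hnear t ht] with s hs
      rw [hs]
    exact ⟨fun h => h.congr_of_eventuallyEq h5.symm, fun h => h.congr_of_eventuallyEq h5⟩
  refine ⟨fun t ht hd j => ?_, ?_, ?_, fun χ hχ hχ0 => ?_⟩
  · have h5 := k3 t (fun l => ((htr t ht l _).2 (hd l).hasDerivAt).differentiableAt) j
    simp only [quo_smul] at h5
    rw [(h4 t ht).1, (h4 t ht).2, one_mul] at h5
    exact (htr t ht j _).1 h5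
  · filter_upwards [k4] with t ht htR j
    have h5 := ht j
    simp only [quo_smul] at h5
    rw [(h4 t htR).1, (h4 t htR).2, one_mul] at h5
    exact (htr t htR j _).1 h5
  · have h5 := hF.area_der
    have h0 : |(0 : ℝ)| < R := by rwa [abs_zero]
    rw [(h4 0 h0).1, (h4 0 h0).2] at h5
    simp only [one_smul, hV.zero] at h5
    refine h5.congr_of_eventuallyEq ?_
    filter_upwards [hnear 0 h0] with s hs
    rw [hs]
  · have h5 := k5 χ hχ
    have e1 : ∀ j, ∫ t, χ t * quo (m (θ (c t) o)) (ts D (A (θ (c t) o))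
        fun i z => c' t • A' (θ (c t) o) i z) (lam (θ (c t) o) j) (u (θ (c t) o) j)
        (c' t * r (θ (c t) o) j) = ∫ t, χ t * quo (m (θ t o)) (ts D (A (θ t o)) (A' (θ t o)))
        (lam (θ t o) j) (u (θ t o) j) (r (θ t o) j) := by
      intro j
      refine integral_congr_ae (Eventually.of_forall fun t => ?_)
      by_cases ht : |t| < R
      · simp only [quo_smul]
        rw [(h4 t ht).1, (h4 t ht).2, one_mul]
      · simp only [hχ0 t (not_lt.1 ht), zero_mul]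
    have e2 : ∫ t, χ t * ((∫ x, ts D (A (θ (c t) o)) (fun i z => c' t • A' (θ (c t) o) i z) x
        ∂(m (θ (c t) o))) / (m (θ (c t) o)).real univ) =
        ∫ t, χ t * mts D (m (θ t o)) (A (θ t o)) (A' (θ t o)) := by
      refine integral_congr_ae (Eventually.of_forall fun t => ?_)
      by_cases ht : |t| < R
      · show χ t * mts D (m (θ (c t) o)) (A (θ (c t) o)) (fun i z => c' t • A' (θ (c t) o) i z) = _
        rw [mts_smul, (h4 t ht).1, (h4 t ht).2, one_mul]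
      · simp only [hχ0 t (not_lt.1 ht), zero_mul]
    simp only [e1, e2] at h5
    exact h5

end Pool.Agent.Helper34.QJ
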