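import Pool.Agent.Y708.QE.Gr

/-!
# Stress and energy in the mean: linear algebra at a point
-/

set_option autoImplicit false

open Set Filter Topology MeasureTheory
open scoped Real ContDiff

noncomputable section

namespace Pool.Agent.Helper34.QJ

open Pool.Agent.Y262.QE Pool.Agent.Y708.QE

/-- the gradient in the frame of `B` as a function of the gradient in the frame of `A` -/
def rr (A B : ℂ →L[ℝ] ℂ) : ℂ →L[ℝ] ℂ := ContinuousLinearMap.adjoint (A.comp B.inverse)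

theorem inner_rr (A B : ℂ →L[ℝ] ℂ) (g w : ℂ) :
    inner ℝ (rr A B g) w = inner ℝ g (A (B.inverse w)) := by
  rw [rr, ContinuousLinearMap.adjoint_inner_left]
  rfl

theorem rr_grd {A : ℂ →L[ℝ] ℂ} (hA : A.det ≠ 0) (B : ℂ →L[ℝ] ℂ) (P : ℂ →L[ℝ] ℝ) :
    rr A B (grd A P) = grd B P := by
  apply ext_inner_right ℝ
  intro w
  rw [inner_rr, inner_grd, inner_grd, inv_apply' hA]

theorem rr_eq (A B : ℂ →L[ℝ] ℂ) (g : ℂ) :
    rr A B g = grd B ((innerSL ℝ g).comp A) := by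
  apply ext_inner_right ℝ
  intro w
  rw [inner_rr, inner_grd]
  rfl

theorem grd_self {A : ℂ →L[ℝ] ℂ} (hA : A.det ≠ 0) (g : ℂ) :
    grd A ((innerSL ℝ g).comp A) = g := by
  apply ext_inner_right ℝ
  intro w
  rw [inner_grd]
  show inner ℝ g (A (A.inverse w)) = _
  rw [inv_apply hA]

theorem grd_pair {A B : ℂ →L[ℝ] ℂ} (hB : B.det ≠ 0) (P : ℂ →L[ℝ] ℝ) (w : ℂ) :
    inner ℝ (grd A P) w = inner ℝ (grd B P) (B (A.inverse w)) := by
  rw [inner_grd, inner_grd, inv_apply' hB]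

/-- comparison of the gradients in two frames -/
theorem grd_le {A B : ℂ →L[ℝ] ℂ} (hA : A.det ≠ 0) (hB : B.det ≠ 0) {c : ℝ}
    (h : ∀ v, ‖A v‖ ≤ c * ‖B v‖) (P : ℂ →L[ℝ] ℝ) : ‖grd B P‖ ≤ c * ‖grd A P‖ := by
  set q := grd B P with hq
  have h1 : ‖q‖ * ‖q‖ = inner ℝ (grd A P) (A (B.inverse q)) := by
    rw [← real_inner_self_eq_norm_mul_norm, ← grd_pair hA P q]
  have h2 : ‖A (B.inverse q)‖ ≤ c * ‖q‖ := by
    have := h (B.inverse q)
    rwa [inv_apply hB] at this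
  have h3 : ‖q‖ * ‖q‖ ≤ (c * ‖grd A P‖) * ‖q‖ := by
    rw [h1]
    refine (real_inner_le_norm _ _).trans ?_
    calc ‖grd A P‖ * ‖A (B.inverse q)‖ ≤ ‖grd A P‖ * (c * ‖q‖) :=
          mul_le_mul_of_nonneg_left h2 (norm_nonneg _)
      _ = _ := by ring
  rcases (norm_nonneg q).eq_or_lt with h4 | h4
  · rw [← h4]
    have h5 : 0 ≤ c := by
      have h6 := h (B.inverse 1)
      rw [inv_apply hB, norm_one, mul_one] at h6
      exact (norm_nonneg _).trans h6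
    exact mul_nonneg h5 (norm_nonneg _)
  · exact le_of_mul_le_mul_right h3 h4

/-- the derivative of the square of the length of a covector -/
theorem grd_der {K ε τ : ℝ} (hK : 0 ≤ K) (hε : 0 ≤ ε) (hτ : (K + ε) * |τ| ≤ 1 / 2)
    {A B A' : ℂ →L[ℝ] ℂ} (hA : A.det ≠ 0) (hB : B.det ≠ 0) (hA' : ∀ v, ‖A' v‖ ≤ K * ‖A v‖)
    (h : ∀ v, ‖B v - A v - τ • A' v‖ ≤ ε * |τ| * ‖A v‖) (P : ℂ →L[ℝ] ℝ) :
    |‖grd B P‖ ^ 2 - ‖grd A P‖ ^ 2 + 2 * τ * inner ℝ (grd A P) (A' (A.inverse (grd A P)))| ≤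
      (8 * K * (K + ε) * |τ| + 6 * ε) * |τ| * ‖grd A P‖ ^ 2 := by
  set q := grd B P with hq
  set y := grd A P with hy
  set S : ℂ →L[ℝ] ℂ := A'.comp A.inverse with hS
  set ρ : ℂ →L[ℝ] ℂ := B.comp A.inverse - ContinuousLinearMap.id ℝ ℂ - τ • S with hρ
  have ht := abs_nonneg τ
  have hSb : ∀ w, ‖S w‖ ≤ K * ‖w‖ := by
    intro w
    have := hA' (A.inverse w)
    rwa [inv_apply hA] at this
  have hρb : ∀ w, ‖ρ w‖ ≤ ε * |τ| * ‖w‖ := by
    intro w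
    have := h (A.inverse w)
    rwa [inv_apply hA] at this
  have hpair : ∀ w, inner ℝ y w = inner ℝ q w + τ * inner ℝ q (S w) + inner ℝ q (ρ w) := by
    intro w
    rw [hy, grd_pair hB P w, ← hq]
    have e1 : B (A.inverse w) = w + τ • S w + ρ w := by
      show _ = w + τ • S w + (B (A.inverse w) - w - τ • S w)
      ring
    rw [e1, inner_add_right, inner_add_right, real_inner_smul_right]
  have hyq : ‖y - q‖ ≤ (K + ε) * |τ| * ‖q‖ := by
    set w := y - q with hw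
    have h1 : ‖w‖ * ‖w‖ = τ * inner ℝ q (S w) + inner ℝ q (ρ w) := by
      rw [← real_inner_self_eq_norm_mul_norm]
      have h2 : inner ℝ w w = inner ℝ y w - inner ℝ q w := by
        rw [← inner_sub_left]
      rw [h2, hpair w]
      ring
    have h2 : τ * inner ℝ q (S w) ≤ |τ| * (‖q‖ * (K * ‖w‖)) := by
      refine (le_abs_self _).trans ?_
      rw [abs_mul]
      refine mul_le_mul_of_nonneg_left ?_ ht
      exact (abs_real_inner_le_norm _ _).trans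
        (mul_le_mul_of_nonneg_left (hSb w) (norm_nonneg _))
    have h3 : inner ℝ q (ρ w) ≤ ‖q‖ * (ε * |τ| * ‖w‖) :=
      (real_inner_le_norm _ _).trans (mul_le_mul_of_nonneg_left (hρb w) (norm_nonneg _))
    have h4 : ‖w‖ * ‖w‖ ≤ ((K + ε) * |τ| * ‖q‖) * ‖w‖ := by
      rw [h1]
      calc _ ≤ |τ| * (‖q‖ * (K * ‖w‖)) + ‖q‖ * (ε * |τ| * ‖w‖) := add_le_add h2 h3
        _ = _ := by ring
    rcases (norm_nonneg w).eq_or_lt with h5 | h5
    · rw [← h5]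
      positivity
    · exact le_of_mul_le_mul_right h4 h5
  have hq2 : ‖q‖ ≤ 2 * ‖y‖ := by
    have h1 : ‖q‖ ≤ ‖y‖ + ‖y - q‖ := by
      have := norm_sub_norm_le q y
      rw [norm_sub_rev] at this
      linarith
    have h2 : (K + ε) * |τ| * ‖q‖ ≤ 1 / 2 * ‖q‖ := mul_le_mul_of_nonneg_right hτ (norm_nonneg _)
    linarith
  have hyq2 : ‖y - q‖ ≤ (K + ε) * |τ| * (2 * ‖y‖) :=
    hyq.trans (mul_le_mul_of_nonneg_left hq2 (by positivity))
  have e1 := hpair q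
  have e2 := hpair y
  have e3 : ‖q‖ ^ 2 - ‖y‖ ^ 2 + 2 * τ * inner ℝ y (S y) =
      τ * (2 * inner ℝ (y - q) (S y) + inner ℝ q (S (y - q))) -
        inner ℝ q (ρ q) - inner ℝ q (ρ y) := by
    rw [real_inner_self_eq_norm_sq] at e1 e2
    rw [map_sub, inner_sub_left, inner_sub_right]
    rw [real_inner_comm] at e1
    linarith
  have e4 : inner ℝ y (A' (A.inverse y)) = inner ℝ y (S y) := rfl
  rw [e4, e3]
  have b1 : |inner ℝ (y - q) (S y)| ≤ (K + ε) * |τ| * (2 * ‖y‖) * (K * ‖y‖) :=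
    (abs_real_inner_le_norm _ _).trans
      (mul_le_mul hyq2 (hSb y) (norm_nonneg _) (by positivity))
  have b2 : |inner ℝ q (S (y - q))| ≤ (2 * ‖y‖) * (K * ((K + ε) * |τ| * (2 * ‖y‖))) := by
    refine (abs_real_inner_le_norm _ _).trans
      (mul_le_mul hq2 ?_ (norm_nonneg _) (by positivity))
    exact (hSb _).trans (mul_le_mul_of_nonneg_left hyq2 hK)
  have b3 : |inner ℝ q (ρ q)| ≤ (2 * ‖y‖) * (ε * |τ| * (2 * ‖y‖)) := by
    refine (abs_real_inner_le_norm _ _).trans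
      (mul_le_mul hq2 ?_ (norm_nonneg _) (by positivity))
    exact (hρb _).trans (mul_le_mul_of_nonneg_left hq2 (by positivity))
  have b4 : |inner ℝ q (ρ y)| ≤ (2 * ‖y‖) * (ε * |τ| * ‖y‖) :=
    (abs_real_inner_le_norm _ _).trans
      (mul_le_mul hq2 (hρb y) (norm_nonneg _) (by positivity))
  have b5 : |τ * (2 * inner ℝ (y - q) (S y) + inner ℝ q (S (y - q)))| ≤
      |τ| * (2 * ((K + ε) * |τ| * (2 * ‖y‖) * (K * ‖y‖)) +
        (2 * ‖y‖) * (K * ((K + ε) * |τ| * (2 * ‖y‖)))) := by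
    rw [abs_mul]
    refine mul_le_mul_of_nonneg_left ?_ ht
    refine (abs_add_le _ _).trans (add_le_add ?_ b2)
    rw [abs_mul, abs_of_pos (by norm_num : (0 : ℝ) < 2)]
    exact mul_le_mul_of_nonneg_left b1 (by norm_num)
  have b6 := abs_sub (τ * (2 * inner ℝ (y - q) (S y) + inner ℝ q (S (y - q))) -
        inner ℝ q (ρ q)) (inner ℝ q (ρ y))
  have b7 := abs_sub (τ * (2 * inner ℝ (y - q) (S y) + inner ℝ q (S (y - q))))
        (inner ℝ q (ρ q))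
  have b8 : (8 * K * (K + ε) * |τ| + 6 * ε) * |τ| * ‖y‖ ^ 2 =
      |τ| * (2 * ((K + ε) * |τ| * (2 * ‖y‖) * (K * ‖y‖)) +
        (2 * ‖y‖) * (K * ((K + ε) * |τ| * (2 * ‖y‖)))) + (2 * ‖y‖) * (ε * |τ| * (2 * ‖y‖)) +
          (2 * ‖y‖) * (ε * |τ| * ‖y‖) := by ring
  rw [b8]
  linarith

/-- the same with constants -/
theorem grd_der' {K : ℝ} (hK : 0 ≤ K) {ε : ℝ} (hε : 0 < ε) :
    ∃ η δ : ℝ, 0 < η ∧ 0 < δ ∧ ∀ τ : ℝ, |τ| < δ → ∀ {A B A' : ℂ →L[ℝ] ℂ}, A.det ≠ 0 → B.det ≠ 0 →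
      (∀ v, ‖A' v‖ ≤ K * ‖A v‖) → (∀ v, ‖B v - A v - τ • A' v‖ ≤ η * |τ| * ‖A v‖) →
      ∀ P : ℂ →L[ℝ] ℝ,
      |‖grd B P‖ ^ 2 - ‖grd A P‖ ^ 2 + 2 * τ * inner ℝ (grd A P) (A' (A.inverse (grd A P)))| ≤
        ε * |τ| * ‖grd A P‖ ^ 2 := by
  set η : ℝ := ε / 12 with hη
  have hη0 : 0 < η := by positivity
  refine ⟨η, min (1 / (2 * (K + η))) (ε / (16 * K * (K + η) + 1)), hη0, by positivity, ?_⟩
  intro τ hτ A B A' hA hB hA' h P
  have ht := abs_nonneg τ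
  have h1 : |τ| < 1 / (2 * (K + η)) := lt_of_lt_of_le hτ (min_le_left _ _)
  have h2 : |τ| < ε / (16 * K * (K + η) + 1) := lt_of_lt_of_le hτ (min_le_right _ _)
  rw [lt_div_iff₀ (by positivity)] at h1 h2
  refine (grd_der hK hη0.le (by linarith) hA hB hA' h P).trans ?_
  refine mul_le_mul_of_nonneg_right ?_ (sq_nonneg _)
  refine mul_le_mul_of_nonneg_right ?_ ht
  have h3 : |τ| * (16 * K * (K + η)) ≤ ε := by linarith
  have h4 : 8 * K * (K + η) * |τ| ≤ ε / 2 := by linarith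
  rw [hη] at h4 ⊢
  linarith

theorem inv_cont {X : Type} [TopologicalSpace X] {s : Set X} {A : X → ℂ →L[ℝ] ℂ}
    (hA : ContinuousOn A s) (hd : ∀ x ∈ s, (A x).det ≠ 0) :
    ContinuousOn (fun x => (A x).inverse) s := by
  intro x hx
  have h1 := contDiffAt_map_inverse (𝕜 := ℝ) (n := 0)
    ((A x).toContinuousLinearEquivOfDetNeZero (hd x hx))
  rw [(A x).coe_toContinuousLinearEquivOfDetNeZero (hd x hx)] at h1
  exact h1.continuousAt.comp_continuousWithinAt (hA x hx)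

theorem rr_cont {X : Type} [TopologicalSpace X] {s : Set X} {A B : X → ℂ →L[ℝ] ℂ}
    (hA : ContinuousOn A s) (hB : ContinuousOn B s) (hd : ∀ x ∈ s, (B x).det ≠ 0) :
    ContinuousOn (fun x => rr (A x) (B x)) s :=
  (ContinuousLinearMap.adjoint (𝕜 := ℝ) (E := ℂ) (F := ℂ)).continuous.comp_continuousOn
    (hA.clm_comp (inv_cont hB hd))

end Pool.Agent.Helper34.QJ
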