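import Mathlib

/-!
# Infinitesimal perturbations: a common rate for a sequence of functions which tends to zero
-/

set_option autoImplicit false

open Set Filter Topology MeasureTheory

noncomputable section

namespace Pool.Agent.Helper34.QJ

theorem rates {Ω : Type} [MeasurableSpace Ω] (P : Measure Ω) [IsFiniteMeasure P] (R : ℕ → Ω → ℝ)
    (hR : ∀ j, StronglyMeasurable (R j)) (h0 : ∀ j o, 0 ≤ R j o)
    (hlim : ∀ o, Tendsto (fun j => R j o) atTop (𝓝 0)) :
    ∃ ε : ℕ → ℝ, (∀ j, 0 < ε j) ∧ Tendsto ε atTop (𝓝 0) ∧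
      ∀ᵐ o ∂P, Tendsto (fun j => R j o / ε j) atTop (𝓝 0) := by
  have h1 : ∀ k : ℕ, ∃ t : Set Ω, MeasurableSet t ∧ P t ≤ ENNReal.ofReal ((1 / 2) ^ k) ∧
      TendstoUniformlyOn R (fun _ => 0) atTop tᶜ := fun k =>
    tendstoUniformlyOn_of_ae_tendsto' hR stronglyMeasurable_const
      (Eventually.of_forall hlim) (by positivity)
  choose t _ht htP htu using h1
  have h2 : ∀ n : ℕ, ∀ᶠ J in atTop, ∀ j, J ≤ j → ∀ k ≤ n, ∀ o ∈ (t k)ᶜ, R j o ≤ (1 / 4) ^ n := by
    intro n
    have h3 : ∀ k ∈ Finset.range (n + 1), ∀ᶠ j in atTop, ∀ o ∈ (t k)ᶜ, R j o ≤ (1 / 4) ^ n := by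
      intro k _
      have h4 := Metric.tendstoUniformlyOn_iff.1 (htu k) ((1 / 4) ^ n) (by positivity)
      filter_upwards [h4] with j hj o ho
      have h5 := hj o ho
      rw [dist_comm, Real.dist_eq, sub_zero] at h5
      exact (le_abs_self _).trans h5.le
    have h4 := (eventually_all_finset _).2 h3
    obtain ⟨J, hJ⟩ := eventually_atTop.1 h4
    filter_upwards [eventually_ge_atTop J] with J' hJ' j hj k hk o ho
    exact hJ j (hJ'.trans hj) k (Finset.mem_range.2 (Nat.lt_succ_of_le hk)) o ho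
  obtain ⟨φ, hφ, hφ2⟩ := extraction_forall_of_eventually h2
  set idx : ℕ → ℕ := fun j => Nat.findGreatest (fun n => φ n ≤ j) j with hidx
  have hge : ∀ n j, φ n ≤ j → n ≤ idx j := fun n j hj =>
    Nat.le_findGreatest ((hφ.id_le n).trans hj) hj
  have hsp : ∀ n j, φ n ≤ j → φ (idx j) ≤ j := fun n j hj =>
    Nat.findGreatest_spec (P := fun n => φ n ≤ j) ((hφ.id_le n).trans hj) hj
  have hinf : Tendsto idx atTop atTop := by
    rw [tendsto_atTop]
    intro n
    filter_upwards [eventually_ge_atTop (φ n)] with j hj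
    exact hge n j hj
  have hhalf : Tendsto (fun j => (1 / 2 : ℝ) ^ idx j) atTop (𝓝 0) :=
    (tendsto_pow_atTop_nhds_zero_of_lt_one (by norm_num) (by norm_num)).comp hinf
  refine ⟨fun j => (1 / 2) ^ idx j, fun j => by positivity, hhalf, ?_⟩
  have hnull : P (⋂ k, t k) = 0 := by
    have h3 : ∀ k, P (⋂ k, t k) ≤ ENNReal.ofReal ((1 / 2) ^ k) := fun k =>
      (measure_mono (iInter_subset _ k)).trans (htP k)
    have h4 : Tendsto (fun k : ℕ => ENNReal.ofReal ((1 / 2) ^ k)) atTop (𝓝 0) := by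
      have h5 : Tendsto (fun k : ℕ => (1 / 2 : ℝ) ^ k) atTop (𝓝 0) :=
        tendsto_pow_atTop_nhds_zero_of_lt_one (by norm_num) (by norm_num)
      have h6 := ENNReal.tendsto_ofReal h5
      rwa [ENNReal.ofReal_zero] at h6
    exact le_antisymm (ge_of_tendsto' h4 h3) bot_le
  have hae : ∀ᵐ o ∂P, o ∉ ⋂ k, t k := measure_eq_zero_iff_ae_notMem.1 hnull
  filter_upwards [hae] with o ho
  rw [mem_iInter, not_forall] at ho
  obtain ⟨k, hk⟩ := ho
  refine squeeze_zero' (Eventually.of_forall fun j => div_nonneg (h0 j o) (by positivity)) ?_ hhalf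
  filter_upwards [eventually_ge_atTop (φ k)] with j hj
  have h3 := hφ2 (idx j) j (hsp k j hj) k (hge k j hj) o hk
  rw [div_le_iff₀ (by positivity)]
  refine h3.trans (le_of_eq ?_)
  rw [← mul_pow]
  norm_num

end Pool.Agent.Helper34.QJ
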