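import Pool.Agent.Helper34.QJ.Ftc
import Pool.Agent.Helper34.QJ.Rates

/-!
# Infinitesimal perturbations: scaled families
-/

set_option autoImplicit false
set_option linter.unusedSectionVars false

open Set Filter Topology MeasureTheory
open scoped Real

noncomputable section

namespace Pool.Agent.Helper34.QJ

open Pool.Agent.Y262.QE Pool.Agent.Y264.QR Pool.Agent.Y708.QE

variable {M E : Type} [MetricSpace M] [CompactSpace M] [MeasurableSpace M] [BorelSpace M]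
  [AddCommGroup E] [Module ℝ E] [TopologicalSpace E] [IsTopologicalAddGroup E]
  [ContinuousSMul ℝ E] {D : Data M} {m : E → Measure M} {A A' : E → Fin D.N → ℂ → ℂ →L[ℝ] ℂ}
  {h : E} {K : E → ℝ}

/-- the translations by the multiples of a vector -/
def trs (h : E) (t : ℝ) (φ : E) : E := φ + t • h

theorem Rm.scale (hR : Rm D m A) (η : ℝ) : Rm D (fun φ => m (η • φ)) (fun φ => A (η • φ)) :=
  ⟨fun φ => hR.surf _, fun φ ε hε =>
    ((continuous_const_smul η).tendsto φ).eventually (hR.near (η • φ) ε hε)⟩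

theorem scale_trs (η t : ℝ) (φ : E) : η • trs h t φ = trs h (η * t) (η • φ) := by
  unfold trs
  rw [smul_add, smul_smul]

theorem Ve.scale (hV : Ve D A A' (trs h) K) (η : ℝ) :
    Ve D (fun φ => A (η • φ)) (fun φ i z => η • A' (η • φ) i z) (trs h)
      (fun φ => |η| * K (η • φ)) := by
  refine ⟨hV.flow, hV.zero, hV.add, fun φ i => (hV.cont (η • φ) i).const_smul η,
    continuous_const.mul (hV.Kc.comp (continuous_const_smul η)), fun φ i z hz v => ?_,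
    fun φ ε hε => ?_⟩
  · rw [smul_apply, norm_smul, Real.norm_eq_abs, mul_assoc]
    exact mul_le_mul_of_nonneg_left (hV.bdd _ i z hz v) (abs_nonneg _)
  · have hη : 0 < |η| + 1 := by positivity
    obtain ⟨δ, hδ, h1⟩ := hV.der (η • φ) (ε / (|η| + 1)) (by positivity)
    refine ⟨δ / (|η| + 1), by positivity, fun τ hτ i z hz v => ?_⟩
    have h2 : |η * τ| < δ := by
      rw [lt_div_iff₀ hη] at hτ
      rw [abs_mul]
      nlinarith [abs_nonneg τ]
    have h3 := h1 (η * τ) h2 i z hz v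
    beta_reduce
    rw [scale_trs, smul_apply, smul_smul, mul_comm τ η]
    refine h3.trans ?_
    refine mul_le_mul_of_nonneg_right ?_ (norm_nonneg _)
    rw [abs_mul, div_mul_eq_mul_div, div_le_iff₀ hη]
    nlinarith [mul_nonneg hε.le (abs_nonneg τ)]

/-- quasi-invariant measures -/
theorem flw [MeasurableSpace E] [BorelSpace E] (hV : Ve D A A' (trs h) K) {P : Measure E}
    (hP : ∀ t, P.map (trs h t) ≪ P) [SecondCountableTopology E] : Flw P (trs h) :=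
  ⟨hV.flow.measurable, hV.zero, hV.add, hP⟩

/-- the deviations on the segment from `0` to `φ` -/
def RR (m : E → Measure M) (lam : E → ℕ → ℝ) (j : ℕ) (φ : E) : ℝ :=
  sSup ((fun s : ℝ => |WW m lam j (s • φ)|) '' Icc 0 1)

theorem RR_cont [Nonempty M] (hR : Rm D m A) {u : E → ℕ → M → ℝ} {lam : E → ℕ → ℝ}
    (hu : ∀ o, EigBasis (chg D (A o)) (m o) (u o) (lam o)) {J₀ : ℕ}
    (hJ₀ : ∀ j, J₀ ≤ j → ∀ o, 0 < lam o j) {j : ℕ} (hj : J₀ ≤ j) : Continuous (RR m lam j) := by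
  have h1 : Continuous (WW m lam j) := WW_cont hR hu hJ₀ hj
  have h2 : Continuous (Function.uncurry fun (φ : E) (s : ℝ) => |WW m lam j (s • φ)|) := by
    have h3 : Continuous fun p : E × ℝ => p.2 • p.1 := continuous_snd.smul continuous_fst
    exact (h1.comp h3).abs
  exact IsCompact.continuous_sSup isCompact_Icc h2

theorem RR_bdd [Nonempty M] (hR : Rm D m A) {u : E → ℕ → M → ℝ} {lam : E → ℕ → ℝ}
    (hu : ∀ o, EigBasis (chg D (A o)) (m o) (u o) (lam o)) {J₀ : ℕ}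
    (hJ₀ : ∀ j, J₀ ≤ j → ∀ o, 0 < lam o j) {j : ℕ} (hj : J₀ ≤ j) (φ : E) :
    BddAbove ((fun s : ℝ => |WW m lam j (s • φ)|) '' Icc 0 1) := by
  have h1 : Continuous (WW m lam j) := WW_cont hR hu hJ₀ hj
  have h2 : Continuous fun s : ℝ => |WW m lam j (s • φ)| :=
    (h1.comp (continuous_id.smul continuous_const)).abs
  exact (isCompact_Icc.image h2).bddAbove

theorem WW_le_RR [Nonempty M] (hR : Rm D m A) {u : E → ℕ → M → ℝ} {lam : E → ℕ → ℝ}
    (hu : ∀ o, EigBasis (chg D (A o)) (m o) (u o) (lam o)) {J₀ : ℕ}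
    (hJ₀ : ∀ j, J₀ ≤ j → ∀ o, 0 < lam o j) {j : ℕ} (hj : J₀ ≤ j) (φ : E) {s : ℝ}
    (hs : s ∈ Icc (0 : ℝ) 1) : |WW m lam j (s • φ)| ≤ RR m lam j φ :=
  le_csSup (RR_bdd hR hu hJ₀ hj φ) ⟨s, hs, rfl⟩

theorem RR_nonneg (lam : E → ℕ → ℝ) (j : ℕ) (φ : E) : 0 ≤ RR m lam j φ := by
  refine Real.sSup_nonneg ?_
  rintro x ⟨s, -, rfl⟩
  exact abs_nonneg _

theorem RR_tendsto [Nonempty M] (hR : Rm D m A) {u : E → ℕ → M → ℝ} {lam : E → ℕ → ℝ}
    (hu : ∀ o, EigBasis (chg D (A o)) (m o) (u o) (lam o)) {J₀ : ℕ}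
    (hJ₀ : ∀ j, J₀ ≤ j → ∀ o, 0 < lam o j) (φ : E) :
    Tendsto (fun j => RR m lam j φ) atTop (𝓝 0) := by
  rw [Metric.tendsto_atTop]
  intro ε hε
  have hC : IsCompact ((fun s : ℝ => s • φ) '' Icc 0 1) :=
    isCompact_Icc.image (continuous_id.smul continuous_const)
  obtain ⟨J, hJ⟩ := WW_unif hR hu hJ₀ hC (half_pos hε)
  refine ⟨J, fun j hj => ?_⟩
  rw [Real.dist_eq, sub_zero, abs_of_nonneg (RR_nonneg lam j φ)]
  refine lt_of_le_of_lt ?_ (half_lt_self hε)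
  refine csSup_le ((nonempty_Icc.2 zero_le_one).image _) ?_
  rintro x ⟨s, hs, rfl⟩
  exact hJ j hj _ ⟨s, hs, rfl⟩

/-- **The scale of the perturbations.** -/
theorem scales [Nonempty M] [MeasurableSpace E] [BorelSpace E] (hR : Rm D m A)
    {u : E → ℕ → M → ℝ} {lam : E → ℕ → ℝ}
    (hu : ∀ o, EigBasis (chg D (A o)) (m o) (u o) (lam o)) (P : Measure E) [IsFiniteMeasure P] :
    ∃ ε : ℕ → ℝ, (∀ j, 0 < ε j) ∧ Tendsto ε atTop (𝓝 0) ∧ ∀ᵐ φ ∂P, ∀ η : ℕ → ℝ,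
      (∀ᶠ j in atTop, ε j ≤ η j) → (∀ᶠ j in atTop, η j ≤ 1) →
      Tendsto (fun j => |WW m lam j (η j • φ)| / η j) atTop (𝓝 0) := by
  have hne : Nonempty E := ⟨0⟩
  obtain ⟨J₀, hJ₀⟩ := hR.pos hu
  obtain ⟨ε, h1, h2, h3⟩ := rates P (fun j => RR m lam (j + J₀))
    (fun j => (RR_cont hR hu hJ₀ (Nat.le_add_left _ _)).measurable.stronglyMeasurable)
    (fun j φ => RR_nonneg lam _ φ)
    (fun φ => (RR_tendsto hR hu hJ₀ φ).comp (tendsto_add_atTop_nat J₀))
  refine ⟨fun j => ε (j - J₀), fun j => h1 _, h2.comp (tendsto_sub_atTop_nat J₀), ?_⟩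
  filter_upwards [h3] with φ hφ η hη1 hη2
  have h4 : Tendsto (fun j => RR m lam j φ / ε (j - J₀)) atTop (𝓝 0) := by
    refine (tendsto_add_atTop_iff_nat J₀).1 (hφ.congr fun j => ?_)
    rw [Nat.add_sub_cancel]
  refine squeeze_zero' ?_ ?_ h4
  · filter_upwards [hη1] with j hj
    exact div_nonneg (abs_nonneg _) ((h1 _).le.trans hj)
  · filter_upwards [hη1, hη2, eventually_ge_atTop J₀] with j hj1 hj2 hj3
    have h5 : 0 < η j := (h1 _).trans_le hj1
    exact div_le_div₀ (RR_nonneg lam j φ) (WW_le_RR hR hu hJ₀ hj3 φ ⟨h5.le, hj2⟩) (h1 _) hj1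

end Pool.Agent.Helper34.QJ
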