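import Pool.Agent.Helper34.QJ.Forms

/-!
# Stress and energy in the mean: eigenfunctions, Weyl's law
-/

set_option autoImplicit false
set_option linter.unusedSectionVars false

open Set Filter Topology MeasureTheory
open scoped Real ContDiff

noncomputable section

namespace Pool.Agent.Helper34.QJ

open Pool.Agent.Y262.QE Pool.Agent.Y264.QR Pool.Agent.Y708.QE

section weyl

variable {M : Type} [MetricSpace M] [CompactSpace M] [MeasurableSpace M] [BorelSpace M]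

theorem conf_one (D : Data M) : D.conf (fun x => Real.exp ((0 : C(M, ℝ)) x)) = D := by
  unfold Data.conf
  simp only [ContinuousMap.zero_apply, Real.exp_zero, Real.sqrt_one, one_smul]

theorem wm_one (μ : Measure M) : wm μ (fun x => Real.exp ((0 : C(M, ℝ)) x)) = μ := by
  unfold wm
  simp only [ContinuousMap.zero_apply, Real.exp_zero, ENNReal.ofReal_one]
  exact withDensity_one

theorem basis_ex [Nonempty M] {D : Data M} {μ : Measure M} (hD : D.IsSurf μ) :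
    ∃ u lam, EigBasis D μ u lam := by
  have h := tEx M μ D hD inferInstance 0
  rwa [conf_one, wm_one] at h

/-- **Weyl's law** for a basis of eigenfunctions -/
theorem weyl [Nonempty M] {D : Data M} {μ : Measure M} (hD : D.IsSurf μ) {u : ℕ → M → ℝ}
    {lam : ℕ → ℝ} (hu : EigBasis D μ u lam) :
    Tendsto (fun j : ℕ => lam j / (j + 1)) atTop (𝓝 (4 * π / μ.real univ)) := by
  obtain ⟨hfin, -⟩ := tFin M μ D hD
  have := hfin
  obtain ⟨i, a, hSf, hi, ha⟩ := tPackF M μ D hD inferInstance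
  obtain ⟨b, hB, hF, -⟩ := tFm M μ _ i a hSf
  have hW := tWl M μ D hD inferInstance i a b hSf hi ha hB
  have hu' : EigBasis (D.conf fun x => Real.exp ((0 : C(M, ℝ)) x))
      (wm μ fun x => Real.exp ((0 : C(M, ℝ)) x)) u lam := by
    rwa [conf_one, wm_one]
  obtain ⟨e, -, he⟩ := tBr M μ D hD i a b hSf hi ha hB hF 0 u lam hu'
  have h1 := hW 0
  have h2 : ∀ j, Ev a (b 0) j = lam j := fun j =>
    Pool.Agent.Y592.QE.mm _ a (b 0) (hF 0) e lam he j
  simp only [h2] at h1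
  have h3 : ∫ x, Real.exp ((0 : C(M, ℝ)) x) ∂μ = μ.real univ := by
    simp
  rwa [h3] at h1

end weyl

variable {M : Type} [MetricSpace M] [CompactSpace M] [MeasurableSpace M] [BorelSpace M]
  {D : Data M} {μ : Measure M} {A : ℝ → Fin D.N → ℂ → ℂ →L[ℝ] ℂ} {w : ℝ → M → ℝ}
  {C : ℝ → ℝ → ℝ}
  {G : ℝ → HF (chg D (A 0)) μ →L[ℝ] Lp ℂ 2 μ} {I : ℝ → HF (chg D (A 0)) μ →L[ℝ] Lp ℝ 2 μ}

/-- approximating sequences of eigenfunctions, for the metric with the coframes `B` and the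
area `ν` -/
structure ES (D : Data M) (ν : Measure M) (B : Fin D.N → ℂ → ℂ →L[ℝ] ℂ) (lam : ℝ)
    (u : M → ℝ) (F : ℕ → M → ℝ) : Prop where
  c1 : ∀ k, D.C1 (F k)
  cv : Tendsto (fun k => ∫ x, (F k x - u x) ^ 2 ∂ν) atTop (𝓝 0)
  ca : Tendsto (fun p : ℕ × ℕ => ∫ x, ‖(chg D B).gr (F p.1) x -
      (chg D B).gr (F p.2) x‖ ^ 2 ∂ν) atTop (𝓝 0)
  eq : ∀ F' : M → ℝ, D.C1 F' →
      Tendsto (fun k => ∫ x, inner ℝ ((chg D B).gr (F k) x) ((chg D B).gr F' x) ∂ν) atTop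
        (𝓝 (lam * ∫ x, u x * F' x ∂ν))

/-- the vector of a `C¹` function -/
theorem vec1 (h : Fam0 D μ A w C) (hO : OpG D μ A w G I) {F : M → ℝ}
    (hF : D.C1 F) : ∃ f : HF (chg D (A 0)) μ, (f.1.fst : M → ℝ) =ᵐ[μ] F ∧
      ∀ t, (G t f : M → ℂ) =ᵐ[μ] fun x => Real.sqrt (w t x) • (chg D (A t)).gr F x := by
  obtain ⟨p, hp, hp1, hp2⟩ := (tDenF M μ _ h.surf0).1 F hF
  refine ⟨⟨p, hp⟩, hp1, fun t => ?_⟩
  filter_upwards [hO.hG t ⟨p, hp⟩, hp2] with x h1 h2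
  rw [h1, ← h.rf_gr t F x]
  exact congrArg (fun y => Real.sqrt (w t x) • rf D A t x y) h2

theorem G_gr (h : Fam0 D μ A w C) (hO : OpG D μ A w G I) {F : M → ℝ}
    {f : HF (chg D (A 0)) μ} (hf : (f.1.snd : M → ℂ) =ᵐ[μ] (chg D (A 0)).gr F) (t : ℝ) :
    (G t f : M → ℂ) =ᵐ[μ] fun x => Real.sqrt (w t x) • (chg D (A t)).gr F x := by
  filter_upwards [hO.hG t f, hf] with x h1 h2
  rw [h1, ← h.rf_gr t F x]
  exact congrArg (fun y => Real.sqrt (w t x) • rf D A t x y) h2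

theorem Fam0.w_ge (h : Fam0 D μ A w C) (t : ℝ) (x : M) : (C 0 t ^ 2)⁻¹ ≤ w t x := by
  have h1 := h.wl 0 t x
  rw [h.w0] at h1
  have h2 : 0 < C 0 t ^ 2 := pow_pos (h.C0 0 t) 2
  rw [inv_le_iff_one_le_mul₀ h2]
  linarith

theorem Fam0.w_le (h : Fam0 D μ A w C) (t : ℝ) (x : M) : w t x ≤ C t 0 ^ 2 := by
  have h1 := h.wl t 0 x
  rwa [h.w0, mul_one] at h1

theorem Fam0.int (h : Fam0 D μ A w C) (t : ℝ) (g : M → ℝ) :
    ∫ x, g x ∂(wm μ (w t)) = ∫ x, w t x * g x ∂μ :=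
  Pool.Agent.Y262.QE.integral_wm μ _ (h.wme t) (fun x => (h.wp t x).le) g

/-- the limit of an approximating sequence -/
theorem vec (h : Fam0 D μ A w C) (hO : OpG D μ A w G I) (t : ℝ) {u : M → ℝ}
    (hu : MemLp u 2 (wm μ (w t))) {F : ℕ → M → ℝ} (hF : ∀ k, D.C1 (F k))
    (hc : Tendsto (fun k => ∫ x, (F k x - u x) ^ 2 ∂(wm μ (w t))) atTop (𝓝 0))
    (hg : Tendsto (fun p : ℕ × ℕ => ∫ x, ‖(chg D (A t)).gr (F p.1) x -
      (chg D (A t)).gr (F p.2) x‖ ^ 2 ∂(wm μ (w t))) atTop (𝓝 0)) :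
    ∃ (v : HF (chg D (A 0)) μ) (f : ℕ → HF (chg D (A 0)) μ), (v.1.fst : M → ℝ) =ᵐ[μ] u ∧
      (∀ k, (G t (f k) : M → ℂ) =ᵐ[μ] fun x => Real.sqrt (w t x) • (chg D (A t)).gr (F k) x) ∧
      Tendsto f atTop (𝓝 v) := by
  have hw0 : ∀ x, 0 ≤ w t x := fun x => (h.wp t x).le
  choose f hf1 hf3 using fun k => vec1 h hO (hF k)
  set c := (C 0 t ^ 2)⁻¹ with hcdef
  have hc0 : 0 < c := inv_pos.2 (pow_pos (h.C0 0 t) 2)
  have huμ : MemLp u 2 μ := Pool.Agent.Y708.QR.memLp_of_wm hc0 (h.w_ge t) hu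
  set U := huμ.toLp u with hU
  have h1 : ∀ k, ‖(f k).1.fst - U‖ ^ 2 ≤ c⁻¹ * ∫ x, (F k x - u x) ^ 2 ∂(wm μ (w t)) := by
    intro k
    rw [h.int]
    have e1 : ∫ x, w t x * (F k x - u x) ^ 2 ∂μ =
        ∫ x, w t x * ((((f k).1.fst - U : Lp ℝ 2 μ) : M → ℝ) x) ^ 2 ∂μ := by
      refine integral_congr_ae ?_
      filter_upwards [hf1 k, huμ.coeFn_toLp, Lp.coeFn_sub (f k).1.fst U] with x hx1 hx2 hx3
      rw [hx3, Pi.sub_apply, hx1, hx2]
    rw [e1, ← Pool.Agent.Y986.QE.int_sq, ← integral_const_mul]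
    refine integral_mono_of_nonneg (Eventually.of_forall fun x => sq_nonneg _) ?_
      (Eventually.of_forall fun x => ?_)
    · refine Integrable.const_mul ?_ _
      refine (Pool.Agent.Y986.QE.integrable_sq _).bdd_mul (c := C t 0 ^ 2)
        (h.wme t).aestronglyMeasurable (Eventually.of_forall fun x => ?_)
      rw [Real.norm_of_nonneg (hw0 x)]
      exact h.w_le t x
    · show _ ≤ c⁻¹ * (w t x * _)
      rw [← mul_assoc]
      refine le_mul_of_one_le_left (sq_nonneg _) ?_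
      rw [inv_mul_eq_div, le_div_iff₀ hc0, one_mul]
      exact h.w_ge t x
  have h2 : Tendsto (fun k => (f k).1.fst) atTop (𝓝 U) := by
    rw [tendsto_iff_norm_sub_tendsto_zero]
    have h3 : Tendsto (fun k => ‖(f k).1.fst - U‖ ^ 2) atTop (𝓝 0) := by
      refine squeeze_zero (fun k => sq_nonneg _) h1 ?_
      simpa using hc.const_mul c⁻¹
    have h4 := h3.sqrt
    simpa [Real.sqrt_sq (norm_nonneg _)] using h4
  have heq : ∀ p : ℕ × ℕ, ∫ x, ‖(chg D (A t)).gr (F p.1) x -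
      (chg D (A t)).gr (F p.2) x‖ ^ 2 ∂(wm μ (w t)) = ‖G t (f p.1) - G t (f p.2)‖ ^ 2 := by
    intro p
    rw [h.int, ← Pool.Agent.Y986.QE.int_sqC]
    refine integral_congr_ae ?_
    filter_upwards [hf3 p.1 t, hf3 p.2 t, Lp.coeFn_sub (G t (f p.1)) (G t (f p.2))]
      with x hx1 hx2 hx3
    rw [hx3, Pi.sub_apply, hx1, hx2, ← smul_sub, norm_smul, mul_pow,
      Real.norm_of_nonneg (Real.sqrt_nonneg _), Real.sq_sqrt (hw0 x)]
  have hlim0 : Tendsto (fun p : ℕ × ℕ => ‖G t (f p.1) - G t (f p.2)‖) atTop (𝓝 0) := by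
    simp only [heq] at hg
    have h4 := hg.sqrt
    simpa only [Real.sqrt_sq (norm_nonneg _), Real.sqrt_zero] using h4
  have hcau2 : CauchySeq fun k => (f k).1.snd := by
    rw [cauchySeq_iff_tendsto_dist_atTop_0]
    have h5 := hlim0.const_mul (C 0 t * C t 0)
    rw [mul_zero] at h5
    refine squeeze_zero (fun p => dist_nonneg) (fun p => ?_) h5
    rw [dist_eq_norm]
    have h6 := G_le h hO 0 t (f p.1 - f p.2)
    rw [map_sub, map_sub, G_zero h hO, G_zero h hO] at h6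
    exact h6
  obtain ⟨Z, hZ⟩ := cauchySeq_tendsto_of_complete hcau2
  set v : WithLp 2 (Lp ℝ 2 μ × Lp ℂ 2 μ) := WithLp.toLp 2 (U, Z) with hv
  have hlim : Tendsto (fun k => (f k).1) atTop (𝓝 v) := by
    have h3 := ((WithLp.prod_continuous_toLp 2 (Lp ℝ 2 μ) (Lp ℂ 2 μ)).tendsto (U, Z)).comp
      (h2.prodMk_nhds hZ)
    exact h3
  have hvH : v ∈ HF (chg D (A 0)) μ :=
    (Submodule.isClosed_topologicalClosure _).mem_of_tendsto hlim
      (Eventually.of_forall fun k => (f k).2)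
  refine ⟨⟨v, hvH⟩, f, huμ.coeFn_toLp, fun k => hf3 k t, ?_⟩
  rw [tendsto_subtype_rng]
  exact hlim

theorem fb_eq (h : Fam0 D μ A w C) (hO : OpG D μ A w G I) {t : ℝ}
    {v v' : HF (chg D (A 0)) μ} {u u' : M → ℝ} (hv : (v.1.fst : M → ℝ) =ᵐ[μ] u)
    (hv' : (v'.1.fst : M → ℝ) =ᵐ[μ] u') : fb I t v v' = ∫ x, u x * u' x ∂(wm μ (w t)) := by
  rw [fb_apply, inn, h.int]
  refine integral_congr_ae ?_
  filter_upwards [hO.hI t v, hO.hI t v', hv, hv'] with x h1 h2 h3 h4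
  rw [h1, h2, h3, h4]
  have := Real.mul_self_sqrt (h.wp t x).le
  calc Real.sqrt (w t x) * u x * (Real.sqrt (w t x) * u' x) =
      (Real.sqrt (w t x) * Real.sqrt (w t x)) * (u x * u' x) := by ring
    _ = _ := by rw [this]

theorem sq_smul {r : ℝ} (hr : 0 ≤ r) (a b : ℂ) :
    inner ℝ (Real.sqrt r • a) (Real.sqrt r • b) = r * inner ℝ a b := by
  rw [real_inner_smul_left, real_inner_smul_right, ← mul_assoc, Real.mul_self_sqrt hr]

theorem fa_vec (h : Fam0 D μ A w C) {t : ℝ} {f g : HF (chg D (A 0)) μ} {F F' : M → ℝ}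
    (hf : (G t f : M → ℂ) =ᵐ[μ] fun x => Real.sqrt (w t x) • (chg D (A t)).gr F x)
    (hg : (G t g : M → ℂ) =ᵐ[μ] fun x => Real.sqrt (w t x) • (chg D (A t)).gr F' x) :
    fa G t f g = ∫ x, inner ℝ ((chg D (A t)).gr F x) ((chg D (A t)).gr F' x) ∂(wm μ (w t)) := by
  rw [fa_apply, L2.inner_def, h.int]
  refine integral_congr_ae ?_
  filter_upwards [hf, hg] with x h1 h2
  rw [h1, h2, sq_smul (h.wp t x).le]

/-- the vector of an eigenfunction -/
theorem evec (h : Fam0 D μ A w C) (hO : OpG D μ A w G I)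
    {t lam : ℝ} {u : M → ℝ} (hu : MemLp u 2 (wm μ (w t))) {F : ℕ → M → ℝ}
    (hF : ES D (wm μ (w t)) (A t) lam u F) :
    ∃ (v : HF (chg D (A 0)) μ) (f : ℕ → HF (chg D (A 0)) μ), (v.1.fst : M → ℝ) =ᵐ[μ] u ∧
      (∀ y, fa G t v y = lam * fb I t v y) ∧
      (∀ k, (G t (f k) : M → ℂ) =ᵐ[μ] fun x => Real.sqrt (w t x) • (chg D (A t)).gr (F k) x) ∧
      Tendsto f atTop (𝓝 v) := by
  obtain ⟨v, f, hv, hf, hlim⟩ := vec h hO t hu hF.c1 hF.cv hF.ca
  refine ⟨v, f, hv, ?_, hf, hlim⟩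
  refine dens tDenF h.surf0 (P := fun y => fa G t v y = lam * fb I t v y)
    (isClosed_eq (by fun_prop) (by fun_prop)) ?_
  intro y F' hF' hw1 hw2
  have hw3 := G_gr h hO hw2 t
  have h1 : Tendsto (fun k => fa G t (f k) y) atTop (𝓝 (fa G t v y)) := by
    have hcn : Continuous fun x => fa G t x y := by fun_prop
    exact (hcn.tendsto v).comp hlim
  have h2 := hF.eq F' hF'
  have h3 : ∀ k, ∫ x, inner ℝ ((chg D (A t)).gr (F k) x) ((chg D (A t)).gr F' x)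
      ∂(wm μ (w t)) = fa G t (f k) y := fun k => (fa_vec h (hf k) hw3).symm
  simp only [h3] at h2
  rw [tendsto_nhds_unique h1 h2, fb_eq h hO hv hw1]

theorem evec_unique (h : Fam0 D μ A w C) (hO : OpG D μ A w G I)
    {t lam : ℝ} (hFm : Fm (fa G t) (fb I t)) {u : M → ℝ} {v v' : HF (chg D (A 0)) μ}
    (hv : (v.1.fst : M → ℝ) =ᵐ[μ] u) (hv' : (v'.1.fst : M → ℝ) =ᵐ[μ] u)
    (ev : ∀ x, fa G t v x = lam * fb I t v x) (ev' : ∀ x, fa G t v' x = lam * fb I t v' x) :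
    v = v' := by
  have hs : ∀ (c : HF (chg D (A 0)) μ →L[ℝ] HF (chg D (A 0)) μ →L[ℝ] ℝ) (x : HF (chg D (A 0)) μ),
      c (v - v') x = c v x - c v' x := fun c x => by
    rw [map_sub]; rfl
  have hbz : ∀ x, fb I t (v - v') x = 0 := by
    intro x
    rw [hs, fb_eq h hO hv (Filter.EventuallyEq.rfl), fb_eq h hO hv' (Filter.EventuallyEq.rfl),
      sub_self]
  have haz : fa G t (v - v') (v - v') = 0 := by
    have h1 := hbz (v - v')
    rw [hs] at h1
    rw [hs, ev, ev', ← mul_sub, h1, mul_zero]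
  obtain ⟨c, hc, hco⟩ := hFm.co
  have h1 := hco (v - v')
  rw [haz, hbz, add_zero] at h1
  have h2 : ‖v - v'‖ ^ 2 ≤ 0 := by
    by_contra hcon
    push Not at hcon
    have := mul_pos hc hcon
    linarith
  have h3 : ‖v - v'‖ = 0 := by
    have := sq_nonneg ‖v - v'‖
    exact pow_eq_zero_iff two_ne_zero |>.1 (le_antisymm h2 this)
  exact sub_eq_zero.1 (norm_eq_zero.1 h3)

/-- the forms satisfy the hypotheses of the abstract theorem -/
theorem Fam0.fm [Nonempty M] (h : Fam0 D μ A w C) (hO : OpG D μ A w G I) (t : ℝ) :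
    Fm (fa G t) (fb I t) := by
  obtain ⟨hfin, -⟩ := tFin M μ _ h.surf0
  have := hfin
  obtain ⟨i, a, hSf, hi, ha⟩ := tPackF M μ _ h.surf0 inferInstance
  obtain ⟨b, hB, hF, -⟩ := tFm M μ _ i a hSf
  have h0 := hF 0
  have ha0 : ∀ v, a v v = fa G 0 v v := by
    intro v
    rw [ha, fa_apply, G_zero h hO]
  have hb0 : ∀ v, b 0 v v = fb I 0 v v := by
    intro v
    rw [hB, hi, fb_apply, I_zero h hO, inn]
    refine integral_congr_ae (Eventually.of_forall fun x => ?_)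
    simp
  refine ⟨fun u v => ?_, fun u v => ?_, fun v => ?_, fun v => ?_, ?_, ?_, ?_⟩
  · rw [fa_apply, fa_apply, real_inner_comm]
  · rw [fb_apply, fb_apply, real_inner_comm]
  · rw [fa_self]
    exact sq_nonneg _
  · rw [fb_self]
    exact sq_nonneg _
  · obtain ⟨c, hc, hco⟩ := h0.co
    have hC1 := h.C0 0 t
    have hC2 := h.C0 t 0
    set q := (C 0 t * C t 0) ^ 2 + C 0 t ^ 2 with hq
    have hq0 : 0 < q := by positivity
    refine ⟨c / q, by positivity, fun v => ?_⟩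
    have h1 := hco v
    rw [ha0, hb0] at h1
    have h2 := fa_le h hO 0 t v
    have h3 := fb_le h hO 0 t v
    have h4 : 0 ≤ fa G t v v := by rw [fa_self]; exact sq_nonneg _
    have h5 : 0 ≤ fb I t v v := by rw [fb_self]; exact sq_nonneg _
    rw [div_mul_eq_mul_div, div_le_iff₀ hq0]
    have h6 : 0 ≤ C 0 t ^ 2 * fa G t v v := by positivity
    have h7 : 0 ≤ (C 0 t * C t 0) ^ 2 * fb I t v v := by positivity
    calc c * ‖v‖ ^ 2 ≤ fa G 0 v v + fb I 0 v v := h1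
      _ ≤ (C 0 t * C t 0) ^ 2 * fa G t v v + C 0 t ^ 2 * fb I t v v := add_le_add h2 h3
      _ ≤ (fa G t v v + fb I t v v) * q := by rw [hq]; linarith
  · intro ε hε
    set q := C t 0 ^ 2 with hq
    have hq0 : 0 < q := pow_pos (h.C0 t 0) 2
    obtain ⟨n, l, hl⟩ := h0.cp (ε / q) (by positivity)
    refine ⟨n, fun i => Real.sqrt q • l i, fun v => ?_⟩
    have h1 := hl v
    rw [hb0] at h1
    have h2 := fb_le h hO t 0 v
    have h3 := mul_le_mul_of_nonneg_left h1 hq0.le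
    refine h2.trans (h3.trans (le_of_eq ?_))
    rw [mul_add, Finset.mul_sum]
    congr 1
    · field_simp
    · refine Finset.sum_congr rfl fun i _ => ?_
      show _ = (Real.sqrt q * l i v) ^ 2
      rw [mul_pow, Real.sq_sqrt hq0.le]
  · obtain ⟨u, lam, hu⟩ := basis_ex (h.surf t)
    have h1 : ∀ j, ∃ v : HF (chg D (A 0)) μ, (v.1.fst : M → ℝ) =ᵐ[μ] u j := by
      intro j
      obtain ⟨hmem, F, g1, g2, g3, g4⟩ := hu.eig j
      obtain ⟨v, f, hv, -⟩ := evec h hO hmem (F := F) ⟨g1, g2, g3, g4⟩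
      exact ⟨v, hv⟩
    choose e he using h1
    refine ⟨e, fun j k => ?_⟩
    rw [fb_eq h hO (he j) (he k), hu.orth]

/-- a basis of eigenfunctions is a basis of eigenvectors of the forms -/
theorem Fam0.eg [Nonempty M] (h : Fam0 D μ A w C) (hO : OpG D μ A w G I) {t : ℝ}
    {u : ℕ → M → ℝ} {lam : ℕ → ℝ} (hu : EigBasis (chg D (A t)) (wm μ (w t)) u lam)
    {e : ℕ → HF (chg D (A 0)) μ} (he1 : ∀ j, ((e j).1.fst : M → ℝ) =ᵐ[μ] u j)
    (he2 : ∀ j y, fa G t (e j) y = lam j * fb I t (e j) y) : Eg (fa G t) (fb I t) e lam := by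
  have horth : ∀ j k, fb I t (e j) (e k) = if j = k then 1 else 0 := by
    intro j k
    rw [fb_eq h hO (he1 j) (he1 k), hu.orth j k]
  refine ⟨horth, he2, hu.mono,
    Pool.Agent.Y708.QR.tt (h.fm hO t) horth he2 hu.mono, fun y => ?_⟩
  have hy : MemLp (y.1.fst : M → ℝ) 2 (wm μ (w t)) := by
    have g1 : wm μ (w t) ≤ (ENNReal.ofReal (C t 0 ^ 2)) • μ := by
      rw [← withDensity_const]
      exact withDensity_mono (Eventually.of_forall fun x => ENNReal.ofReal_le_ofReal (h.w_le t x))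
    exact ((Lp.memLp y.1.fst).smul_measure ENNReal.ofReal_ne_top).mono_measure g1
  have h1 := Pool.Agent.Y708.QR.parseval (fun j => (hu.eig j).mem) hu.orth hu.total hy
  have e1 : ∀ j, (∫ x, (y.1.fst : M → ℝ) x * u j x ∂(wm μ (w t))) = fb I t y (e j) :=
    fun j => (fb_eq h hO Filter.EventuallyEq.rfl (he1 j)).symm
  have e2 : ∫ x, ((y.1.fst : M → ℝ) x) ^ 2 ∂(wm μ (w t)) = fb I t y y := by
    rw [fb_eq h hO (Filter.EventuallyEq.refl _ _) (Filter.EventuallyEq.refl _ _)]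
    exact integral_congr_ae (Eventually.of_forall fun x => pow_two _)
  simp only [e1, e2] at h1
  exact h1

theorem Fam0.eg_ex [Nonempty M] (h : Fam0 D μ A w C) (hO : OpG D μ A w G I) {t : ℝ}
    {u : ℕ → M → ℝ} {lam : ℕ → ℝ} (hu : EigBasis (chg D (A t)) (wm μ (w t)) u lam) :
    ∃ e, Eg (fa G t) (fb I t) e lam := by
  have h1 : ∀ j, ∃ v : HF (chg D (A 0)) μ, (v.1.fst : M → ℝ) =ᵐ[μ] u j ∧
      ∀ y, fa G t v y = lam j * fb I t v y := by
    intro j
    obtain ⟨hmem, F, g1, g2, g3, g4⟩ := hu.eig j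
    obtain ⟨v, f, hv, ev, -⟩ := evec h hO hmem (F := F) ⟨g1, g2, g3, g4⟩
    exact ⟨v, hv, ev⟩
  choose e he1 he2 using h1
  exact ⟨e, h.eg hO hu he1 he2⟩

/-- comparison of the eigenvalues of two metrics of the family -/
theorem Fam0.lam_le [Nonempty M] (h : Fam0 D μ A w C) {s t : ℝ} {u u' : ℕ → M → ℝ}
    {lam lam' : ℕ → ℝ} (hu : EigBasis (chg D (A s)) (wm μ (w s)) u lam)
    (hu' : EigBasis (chg D (A t)) (wm μ (w t)) u' lam') (j : ℕ) :
    lam j ≤ (C s t * C t s) ^ 2 * C t s ^ 2 * lam' j := by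
  obtain ⟨G, I, hO⟩ := h.ops
  obtain ⟨e, he⟩ := h.eg_ex hO hu
  obtain ⟨e', he'⟩ := h.eg_ex hO hu'
  have h1 := Pool.Agent.Y592.QE.mm _ _ _ (h.fm hO s) e lam he j
  have h2 := Pool.Agent.Y592.QE.mm _ _ _ (h.fm hO t) e' lam' he' j
  rw [← h1, ← h2]
  exact evAB (h.fm hO t) (by have := h.C0 s t; have := h.C0 t s; positivity)
    (by have := h.C0 t s; positivity) (fa_le h hO s t) (fb_le h hO t s) j

end Pool.Agent.Helper34.QJ
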