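import Pool.Agent.Helper34.QJ.Line

/-!
# Stress and energy in the mean: the weak gradient of an eigenfunction
-/

set_option autoImplicit false
set_option linter.unusedSectionVars false

open Set Filter Topology MeasureTheory
open scoped Real ContDiff

noncomputable section

namespace Pool.Agent.Helper34.QJ

open Pool.Agent.Y262.QE Pool.Agent.Y264.QR Pool.Agent.Y708.QE

variable {M : Type} [MetricSpace M] [CompactSpace M] [MeasurableSpace M] [BorelSpace M]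
  {D : Data M} {ν : Measure M} {A : Fin D.N → ℂ → ℂ →L[ℝ] ℂ}

theorem wm_one' (μ : Measure M) : wm μ (fun _ => 1) = μ := by
  unfold wm
  simp only [ENNReal.ofReal_one]
  exact withDensity_one

/-- the constant family -/
theorem fam_const (hD : (chg D A).IsSurf ν) :
    Fam0 D ν (fun _ => A) (fun _ _ => 1) (fun _ _ => 1) := by
  refine ⟨fun t => ?_, fun x => rfl, fun t x => one_pos, fun t => measurable_const,
    fun s t => one_pos, fun s t i z hz v => by rw [one_mul], fun s t x => by norm_num⟩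
  rw [wm_one']
  exact hD

theorem wg0 [Nonempty M] {A : ℝ → Fin D.N → ℂ → ℂ →L[ℝ] ℂ} {w : ℝ → M → ℝ} {c : ℝ → ℝ → ℝ}
    (h : Fam0 D ν A w c) {lam : ℝ} {u : M → ℝ} (hu : (chg D (A 0)).IsEig ν lam u) :
    ∃ e : Lp ℂ 2 ν, ‖e‖ ^ 2 = lam * ∫ x, (u x) ^ 2 ∂ν ∧
      ∀ F, ES D ν (A 0) lam u F → ∀ T : M → ℂ →L[ℝ] ℂ, AEStronglyMeasurable T ν → ∀ C : ℝ,
        (∀ x w, ‖T x w‖ ≤ C * ‖w‖) →
        Tendsto (fun k => ∫ x, inner ℝ (T x ((chg D (A 0)).gr (F k) x))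
          ((chg D (A 0)).gr (F k) x) ∂ν) atTop (𝓝 (∫ x, inner ℝ (T x (e x)) (e x) ∂ν)) := by
  obtain ⟨G, I, hO⟩ := h.ops
  have hFm := h.fm hO 0
  obtain ⟨hmem, F₀, g1, g2, g3, g4⟩ := hu
  have hw : wm ν (w 0) = ν := by
    have e : w 0 = fun _ => 1 := funext h.w0
    rw [e, wm_one']
  have hF₀ : ES D (wm ν (w 0)) (A 0) lam u F₀ := by
    rw [hw]
    exact ⟨g1, g2, g3, g4⟩
  have hmem' : MemLp u 2 (wm ν (w 0)) := by
    rw [hw]
    exact hmem
  obtain ⟨v, f₀, hv, ev, -, -⟩ := evec h hO hmem' hF₀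
  refine ⟨G 0 v, ?_, ?_⟩
  · have h1 : fa G 0 v v = ‖G 0 v‖ ^ 2 := fa_self 0 v
    rw [← h1, ev, fb_eq h hO hv hv, hw]
    congr 1
    exact integral_congr_ae (Eventually.of_forall fun x => (sq _).symm)
  · intro F hF T hT C hC
    have hF' : ES D (wm ν (w 0)) (A 0) lam u F := by
      rw [hw]
      exact hF
    obtain ⟨v', f, hv', ev', hf, hlim⟩ := evec h hO hmem' hF'
    have hvv : v' = v := evec_unique h hO hFm hv' hv ev' ev
    rw [hvv] at hlim
    obtain ⟨m, hm⟩ := mulop T hT C hC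
    have key : ∀ y : Lp ℂ 2 ν, inner ℝ (m y) y = ∫ x, inner ℝ (T x (y x)) (y x) ∂ν := by
      intro y
      rw [L2.inner_def]
      refine integral_congr_ae ?_
      filter_upwards [hm y] with x hx
      rw [hx]
    have hcn : Continuous fun y : HF (chg D (A 0)) ν => inner ℝ (m (G 0 y)) (G 0 y) := by
      fun_prop
    have h1 := (hcn.tendsto v).comp hlim
    rw [key] at h1
    refine h1.congr fun k => ?_
    show inner ℝ (m (G 0 (f k))) (G 0 (f k)) = _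
    rw [key]
    refine integral_congr_ae ?_
    filter_upwards [hf k] with x hx
    have hx' : (G 0 (f k) : M → ℂ) x = (chg D (A 0)).gr (F k) x := by
      rw [hx, h.w0, Real.sqrt_one, one_smul]
    rw [hx']

/-- **The weak gradient of an eigenfunction.** -/
theorem wg [Nonempty M] (hD : (chg D A).IsSurf ν) {lam : ℝ} {u : M → ℝ}
    (hu : (chg D A).IsEig ν lam u) : ∃ e : Lp ℂ 2 ν, ‖e‖ ^ 2 = lam * ∫ x, (u x) ^ 2 ∂ν ∧
      ∀ F, ES D ν A lam u F → ∀ T : M → ℂ →L[ℝ] ℂ, AEStronglyMeasurable T ν → ∀ C : ℝ,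
        (∀ x w, ‖T x w‖ ≤ C * ‖w‖) →
        Tendsto (fun k => ∫ x, inner ℝ (T x ((chg D A).gr (F k) x)) ((chg D A).gr (F k) x) ∂ν)
          atTop (𝓝 (∫ x, inner ℝ (T x (e x)) (e x) ∂ν)) :=
  wg0 (fam_const hD) hu

/-- the stress of the field `S` -/
def St {M : Type} [MeasurableSpace M] (D : Data M) (ν : Measure M)
    (A : Fin D.N → ℂ → ℂ →L[ℝ] ℂ) (S : M → ℂ →L[ℝ] ℂ) (lam : ℝ) (u : M → ℝ) (r : ℝ) : Prop :=
  ∃ F : ℕ → M → ℝ, ES D ν A lam u F ∧
    Tendsto (fun k => ∫ x, (2 * inner ℝ (S x ((chg D A).gr (F k) x)) ((chg D A).gr (F k) x) -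
      tr (S x) * ‖(chg D A).gr (F k) x‖ ^ 2) ∂ν) atTop (𝓝 r)

theorem rate_iff {A' : Fin D.N → ℂ → ℂ →L[ℝ] ℂ} {lam r : ℝ} {u : M → ℝ} :
    Rate D ν A A' (ts D A A') lam u r ↔ St D ν A (sf D A A') lam u r := Iff.rfl

/-- bounded measurable fields -/
structure Bf (ν : Measure M) (S : M → ℂ →L[ℝ] ℂ) (C : ℝ) : Prop where
  meas : AEStronglyMeasurable S ν
  bd : ∀ x w, ‖S x w‖ ≤ C * ‖w‖

theorem tr_cont : Continuous tr := by
  unfold tr
  fun_prop

/-- the quadratic form of the stress -/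
def qf (S : ℂ →L[ℝ] ℂ) (w : ℂ) : ℝ := 2 * inner ℝ (S w) w - tr S * ‖w‖ ^ 2

theorem qf_eq (S : ℂ →L[ℝ] ℂ) (w : ℂ) :
    inner ℝ (((2 : ℝ) • S - tr S • ContinuousLinearMap.id ℝ ℂ) w) w = qf S w := by
  show inner ℝ ((2 : ℝ) • S w - tr S • w) w = _
  rw [inner_sub_left, real_inner_smul_left, real_inner_smul_left, real_inner_self_eq_norm_sq, qf]

/-- the stress of the field `S` is an integral over the weak gradient -/
theorem st_iff [Nonempty M] (hD : (chg D A).IsSurf ν) {lam : ℝ} {u : M → ℝ}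
    (hu : (chg D A).IsEig ν lam u) : ∃ e : Lp ℂ 2 ν, ‖e‖ ^ 2 = lam * ∫ x, (u x) ^ 2 ∂ν ∧
      ∀ (S : M → ℂ →L[ℝ] ℂ) (C : ℝ), Bf ν S C → ∀ r, St D ν A S lam u r ↔
        r = ∫ x, qf (S x) (e x) ∂ν := by
  obtain ⟨e, he, hT⟩ := wg hD hu
  refine ⟨e, he, fun S C hS r => ?_⟩
  have hm : AEStronglyMeasurable (fun x => (2 : ℝ) • S x -
      tr (S x) • ContinuousLinearMap.id ℝ ℂ) ν :=
    (hS.meas.const_smul (2 : ℝ)).sub
      ((tr_cont.comp_aestronglyMeasurable hS.meas).smul aestronglyMeasurable_const)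
  have hb : ∀ x w, ‖((2 : ℝ) • S x - tr (S x) • ContinuousLinearMap.id ℝ ℂ) w‖ ≤
      (4 * C) * ‖w‖ := by
    intro x w
    show ‖(2 : ℝ) • S x w - tr (S x) • w‖ ≤ _
    refine (norm_sub_le _ _).trans ?_
    rw [norm_smul, norm_smul, Real.norm_eq_abs, Real.norm_eq_abs, abs_of_pos two_pos]
    have h1 := abs_tr_le (hS.bd x)
    have h2 := hS.bd x w
    have h3 := mul_le_mul_of_nonneg_right h1 (norm_nonneg w)
    linarith
  have key : ∀ F, ES D ν A lam u F → Tendsto (fun k => ∫ x, (2 * inner ℝ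
      (S x ((chg D A).gr (F k) x)) ((chg D A).gr (F k) x) -
      tr (S x) * ‖(chg D A).gr (F k) x‖ ^ 2) ∂ν) atTop (𝓝 (∫ x, qf (S x) (e x) ∂ν)) := by
    intro F hF
    have h1 := hT F hF _ hm _ hb
    simp only [qf_eq] at h1
    exact h1
  constructor
  · rintro ⟨F, hF, hr⟩
    exact tendsto_nhds_unique hr (key F hF)
  · intro hr
    obtain ⟨hmem, F₀, g1, g2, g3, g4⟩ := hu
    exact ⟨F₀, ⟨g1, g2, g3, g4⟩, hr ▸ key F₀ ⟨g1, g2, g3, g4⟩⟩

theorem st_ex [Nonempty M] (hD : (chg D A).IsSurf ν) {lam : ℝ} {u : M → ℝ}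
    (hu : (chg D A).IsEig ν lam u) {S : M → ℂ →L[ℝ] ℂ} {C : ℝ} (hS : Bf ν S C) :
    ∃! r, St D ν A S lam u r := by
  obtain ⟨e, -, h⟩ := st_iff hD hu
  exact ⟨_, (h S C hS _).2 rfl, fun r hr => (h S C hS r).1 hr⟩

/-- the pairing as a function of the weak gradient -/
def qS (ν : Measure M) (e : M → ℂ) (lam : ℝ) (u : M → ℝ) (S : M → ℂ →L[ℝ] ℂ) : ℝ :=
  (∫ x, qf (S x) (e x) ∂ν) / lam + ∫ x, tr (S x) * (u x) ^ 2 ∂ν

theorem tr_eq (S : ℂ →L[ℝ] ℂ) : tr S = inner ℝ (S 1) 1 + inner ℝ (S Complex.I) Complex.I := by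
  unfold tr
  rw [Complex.inner, Complex.inner]
  simp

/-- fields whose quadratic forms are close -/
theorem tr_close {S : ℂ →L[ℝ] ℂ} {ε : ℝ} (h : ∀ w, |inner ℝ (S w) w| ≤ ε * ‖w‖ ^ 2) :
    |tr S| ≤ 2 * ε := by
  rw [tr_eq]
  have h1 := h 1
  have h2 := h Complex.I
  rw [norm_one, one_pow, mul_one] at h1
  rw [Complex.norm_I, one_pow, mul_one] at h2
  exact (abs_add_le _ _).trans (by linarith)

theorem qf_close {S : ℂ →L[ℝ] ℂ} {ε : ℝ} (h : ∀ w, |inner ℝ (S w) w| ≤ ε * ‖w‖ ^ 2) (w : ℂ) :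
    |qf S w| ≤ 4 * ε * ‖w‖ ^ 2 := by
  unfold qf
  refine (abs_sub _ _).trans ?_
  rw [abs_mul, abs_of_pos two_pos, abs_mul, abs_of_nonneg (sq_nonneg ‖w‖)]
  have h1 := h w
  have h2 := mul_le_mul_of_nonneg_right (tr_close h) (sq_nonneg ‖w‖)
  linarith

theorem qf_int {S : M → ℂ →L[ℝ] ℂ} {C : ℝ} (hS : Bf ν S C) (e : Lp ℂ 2 ν) :
    Integrable (fun x => qf (S x) (e x)) ν := by
  have he : Integrable (fun x => ‖e x‖ ^ 2) ν := (Lp.memLp e).integrable_norm_pow two_ne_zero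
  have hm : AEStronglyMeasurable (fun x => qf (S x) (e x)) ν := by
    have h1 : Continuous fun p : (ℂ →L[ℝ] ℂ) × ℂ => qf p.1 p.2 := by
      unfold qf
      have := tr_cont
      fun_prop
    exact h1.comp_aestronglyMeasurable (hS.meas.prodMk (Lp.aestronglyMeasurable e))
  refine (he.const_mul (4 * C)).mono hm (Eventually.of_forall fun x => ?_)
  have hc : ∀ w, |inner ℝ (S x w) w| ≤ C * ‖w‖ ^ 2 := fun w => by
    refine (abs_real_inner_le_norm _ _).trans ?_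
    have := mul_le_mul_of_nonneg_right (hS.bd x w) (norm_nonneg w)
    rw [sq]
    linarith
  rw [Real.norm_eq_abs]
  exact (qf_close hc (e x)).trans (le_abs_self _)

theorem tr_int {S : M → ℂ →L[ℝ] ℂ} {C : ℝ} (hS : Bf ν S C) {u : M → ℝ}
    (hu : Integrable (fun x => (u x) ^ 2) ν) : Integrable (fun x => tr (S x) * (u x) ^ 2) ν :=
  hu.bdd_mul (c := 2 * C) (tr_cont.comp_aestronglyMeasurable hS.meas)
    (Eventually.of_forall fun x => abs_tr_le (hS.bd x))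

theorem qS_close {e : Lp ℂ 2 ν} {lam : ℝ} (hl : 0 < lam) {u : M → ℝ}
    (hu : Integrable (fun x => (u x) ^ 2) ν) (hu1 : ∫ x, (u x) ^ 2 ∂ν = 1) (he : ‖e‖ ^ 2 = lam)
    {S : M → ℂ →L[ℝ] ℂ} {ε : ℝ} (h : ∀ x w, |inner ℝ (S x w) w| ≤ ε * ‖w‖ ^ 2) :
    |qS ν e lam u S| ≤ 6 * ε := by
  have he1 : ∫ x, ‖e x‖ ^ 2 ∂ν = lam := by
    rw [← he, ← real_inner_self_eq_norm_sq, L2.inner_def]
    exact integral_congr_ae (Eventually.of_forall fun x => (real_inner_self_eq_norm_sq _).symm)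
  have he2 : Integrable (fun x => ‖e x‖ ^ 2) ν := (Lp.memLp e).integrable_norm_pow two_ne_zero
  have h1 : |∫ x, qf (S x) (e x) ∂ν| ≤ 4 * ε * lam := by
    rw [← he1, ← integral_const_mul, ← Real.norm_eq_abs]
    refine norm_integral_le_of_norm_le (he2.const_mul _) (Eventually.of_forall fun x => ?_)
    rw [Real.norm_eq_abs]
    exact qf_close (h x) (e x)
  have h2 : |∫ x, tr (S x) * (u x) ^ 2 ∂ν| ≤ 2 * ε := by
    have h3 : ∫ x, 2 * ε * (u x) ^ 2 ∂ν = 2 * ε := by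
      rw [integral_const_mul, hu1, mul_one]
    rw [← h3, ← Real.norm_eq_abs]
    refine norm_integral_le_of_norm_le (hu.const_mul _) (Eventually.of_forall fun x => ?_)
    rw [Real.norm_eq_abs, abs_mul, abs_of_nonneg (sq_nonneg (u x))]
    exact mul_le_mul_of_nonneg_right (tr_close (h x)) (sq_nonneg _)
  unfold qS
  refine (abs_add_le _ _).trans ?_
  rw [abs_div, abs_of_pos hl]
  have h4 : |∫ x, qf (S x) (e x) ∂ν| / lam ≤ 4 * ε := by
    rwa [div_le_iff₀ hl]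
  linarith

theorem qf_sub (S T : ℂ →L[ℝ] ℂ) (w : ℂ) : qf (S - T) w = qf S w - qf T w := by
  unfold qf tr
  simp only [sub_apply, inner_sub_left, Complex.sub_re, Complex.sub_im]
  ring

theorem tr_sub (S T : ℂ →L[ℝ] ℂ) : tr (S - T) = tr S - tr T := by
  unfold tr
  simp only [sub_apply, Complex.sub_re, Complex.sub_im]
  ring

theorem qf_smul (c : ℝ) (S : ℂ →L[ℝ] ℂ) (w : ℂ) : qf (c • S) w = c * qf S w := by
  unfold qf tr
  simp only [smul_apply, real_inner_smul_left, Complex.smul_re,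
    Complex.smul_im, smul_eq_mul]
  ring

theorem tr_smul (c : ℝ) (S : ℂ →L[ℝ] ℂ) : tr (c • S) = c * tr S := by
  unfold tr
  simp only [smul_apply, Complex.smul_re, Complex.smul_im, smul_eq_mul]
  ring

theorem qf_add (S T : ℂ →L[ℝ] ℂ) (w : ℂ) : qf (S + T) w = qf S w + qf T w := by
  unfold qf tr
  simp only [add_apply, inner_add_left, Complex.add_re, Complex.add_im]
  ring

theorem tr_add (S T : ℂ →L[ℝ] ℂ) : tr (S + T) = tr S + tr T := by
  unfold tr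
  simp only [add_apply, Complex.add_re, Complex.add_im]
  ring

theorem qf_zero (w : ℂ) : qf 0 w = 0 := by
  unfold qf tr
  simp

theorem tr_zero : tr 0 = 0 := by
  unfold tr
  simp

theorem qf_sum {ι : Type} (s : Finset ι) (c : ι → ℝ) (S : ι → ℂ →L[ℝ] ℂ) (w : ℂ) :
    qf (∑ i ∈ s, c i • S i) w = ∑ i ∈ s, c i * qf (S i) w := by
  classical
  induction s using Finset.induction_on with
  | empty => simp [qf_zero]
  | insert a s ha ih => rw [Finset.sum_insert ha, Finset.sum_insert ha, qf_add, qf_smul, ih]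

theorem tr_sum {ι : Type} (s : Finset ι) (c : ι → ℝ) (S : ι → ℂ →L[ℝ] ℂ) :
    tr (∑ i ∈ s, c i • S i) = ∑ i ∈ s, c i * tr (S i) := by
  classical
  induction s using Finset.induction_on with
  | empty => simp [tr_zero]
  | insert a s ha ih => rw [Finset.sum_insert ha, Finset.sum_insert ha, tr_add, tr_smul, ih]

theorem Bf.sum {ι : Type} (s : Finset ι) (c : ι → ℝ) {S : ι → M → ℂ →L[ℝ] ℂ} {C : ι → ℝ}
    (h : ∀ i, Bf ν (S i) (C i)) :
    Bf ν (fun x => ∑ i ∈ s, c i • S i x) (∑ i ∈ s, |c i| * C i) := by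
  refine ⟨?_, fun x w => ?_⟩
  · exact Finset.aestronglyMeasurable_fun_sum s fun i _ => (h i).meas.const_smul (c i)
  · rw [sum_apply, Finset.sum_mul]
    refine (norm_sum_le _ _).trans (Finset.sum_le_sum fun i _ => ?_)
    rw [smul_apply, norm_smul, Real.norm_eq_abs, mul_assoc]
    exact mul_le_mul_of_nonneg_left ((h i).bd x w) (abs_nonneg _)

theorem Bf.sub {S T : M → ℂ →L[ℝ] ℂ} {C C' : ℝ} (h : Bf ν S C) (h' : Bf ν T C') :
    Bf ν (fun x => S x - T x) (C + C') := by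
  refine ⟨h.meas.sub h'.meas, fun x w => ?_⟩
  rw [sub_apply, add_mul]
  exact (norm_sub_le _ _).trans (add_le_add (h.bd x w) (h'.bd x w))

theorem qS_sum {ι : Type} (s : Finset ι) (c : ι → ℝ) {S : ι → M → ℂ →L[ℝ] ℂ} {C : ι → ℝ}
    (h : ∀ i, Bf ν (S i) (C i)) (e : Lp ℂ 2 ν) (lam : ℝ) {u : M → ℝ}
    (hu : Integrable (fun x => (u x) ^ 2) ν) :
    qS ν e lam u (fun x => ∑ i ∈ s, c i • S i x) = ∑ i ∈ s, c i * qS ν e lam u (S i) := by
  unfold qS
  simp only [qf_sum, tr_sum, Finset.sum_mul]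
  rw [integral_finsetSum _ fun i _ => (qf_int (h i) e).const_mul (c i)]
  have e1 : ∀ x, ∑ i ∈ s, c i * tr (S i x) * (u x) ^ 2 =
      ∑ i ∈ s, c i * (tr (S i x) * (u x) ^ 2) := fun x =>
    Finset.sum_congr rfl fun i _ => mul_assoc _ _ _
  simp only [e1]
  rw [integral_finsetSum _ fun i _ => (tr_int (h i) hu).const_mul (c i), Finset.sum_div,
    ← Finset.sum_add_distrib]
  refine Finset.sum_congr rfl fun i _ => ?_
  rw [integral_const_mul, integral_const_mul]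
  ring

theorem qS_sub {S T : M → ℂ →L[ℝ] ℂ} {C C' : ℝ} (h : Bf ν S C) (h' : Bf ν T C') (e : Lp ℂ 2 ν)
    (lam : ℝ) {u : M → ℝ} (hu : Integrable (fun x => (u x) ^ 2) ν) :
    qS ν e lam u (fun x => S x - T x) = qS ν e lam u S - qS ν e lam u T := by
  unfold qS
  simp only [qf_sub, tr_sub, sub_mul]
  rw [integral_sub (qf_int h e) (qf_int h' e), integral_sub (tr_int h hu) (tr_int h' hu)]
  ring

end Pool.Agent.Helper34.QJ
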